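import Pool.Agent.TH531.FbFinal

set_option autoImplicit false
set_option linter.unusedSectionVars false

open Finset

namespace Pool.Agent.TH531.Fb

/-- the real-valued indicator of a Boolean function -/
noncomputable def ind {n : ℕ} (f : (Fin n → Bool) → Bool) : (Fin n → Bool) → ℝ :=
  fun x => if f x then 1 else 0

lemma MB_ind {n : ℕ} {f : (Fin n → Bool) → Bool} (hf : Monotone f) : MB (ind f) := by
  constructor
  · intro x; unfold ind; split_ifs <;> simp
  · intro x y hxy
    unfold ind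
    have := hf hxy
    by_cases hx : f x = true
    · have hy : f y = true := by
        rw [hx] at this
        exact le_antisymm (Bool.le_true _) this
      rw [if_pos hx, if_pos hy]
    · rw [if_neg hx]; split_ifs <;> norm_num

lemma DegLT_ind {n : ℕ} {f : (Fin n → Bool) → Bool} {d : ℕ}
    (h : ∀ S : Finset (Fin n),
      (∑ x : Fin n → Bool, (if f x then (1 : ℤ) else 0) *
          ∏ i ∈ S, (if x i then (-1 : ℤ) else 1)) ≠ 0 → S.card ≤ d) : DegLT (d+1) (ind f) := by
  apply DegLT_of_fourier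
  intro S hS
  apply h S
  intro hc
  apply hS
  have : (((∑ x : Fin n → Bool, (if f x then (1 : ℤ) else 0) *
          ∏ i ∈ S, (if x i then (-1 : ℤ) else 1)) : ℤ) : ℝ) = ∑ y, ind f y * chi S y := by
    push_cast
    apply Finset.sum_congr rfl
    intro x _
    unfold ind chi
    rfl
  rw [← this, hc]
  simp

lemma rel_ind {n : ℕ} {f : (Fin n → Bool) → Bool} {i : Fin n}
    (h : ∃ x : Fin n → Bool, f (Function.update x i true) ≠ f (Function.update x i false)) :
    ∃ x, D i (ind f) x ≠ 0 := by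
  obtain ⟨x, hx⟩ := h
  refine ⟨x, ?_⟩
  unfold D ind
  cases h1 : f (Function.update x i true) <;> cases h0 : f (Function.update x i false) <;>
    simp_all

/-- the degree inequality -/
theorem degree_bound : ∃ C : ℝ, ∀ n : ℕ, ∀ f : (Fin n → Bool) → Bool, Monotone f →
    ∀ d : ℕ,
        (∀ S : Finset (Fin n),
          (∑ x : Fin n → Bool, (if f x then (1 : ℤ) else 0) *
              ∏ i ∈ S, (if x i then (-1 : ℤ) else 1)) ≠ 0 → S.card ≤ d) →
        ((Finset.univ.filter (fun i : Fin n => ∃ x : Fin n → Bool,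
            f (Function.update x i true) ≠ f (Function.update x i false))).card : ℝ)
          * Real.sqrt (d : ℝ) ≤ C * (2 : ℝ) ^ d := by
  obtain ⟨C, m0, hC, hm04, hmain⟩ := main
  refine ⟨C * 2 ^ m0 * (m0 + 1) + C, ?_⟩
  intro n f hf d hd
  have hMB := MB_ind hf
  have hdeg := DegLT_ind hd
  set R := Finset.univ.filter (fun i : Fin n => ∃ x : Fin n → Bool,
            f (Function.update x i true) ≠ f (Function.update x i false)) with hR
  have hRrel : ∀ i ∈ R, ∃ x, D i (ind f) x ≠ 0 := by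
    intro i hi
    rw [hR, Finset.mem_filter] at hi
    exact rel_ind hi.2
  have hm0r : (4:ℝ) ≤ m0 := by exact_mod_cast hm04
  have h2d : (1:ℝ) ≤ 2 ^ d := one_le_pow₀ (by norm_num)
  have hCA : 0 ≤ C * 2 ^ m0 * ((m0:ℝ) + 1) := by positivity
  rcases Nat.lt_or_ge m0 d with hlt | hge
  · -- large degree
    obtain ⟨m, hm⟩ : ∃ m, d = m + 1 := ⟨d - 1, by omega⟩
    subst hm
    have h1 := hmain n (ind f) hMB m (by omega) hdeg R hRrel
    have hmr : (4:ℝ) ≤ m := by exact_mod_cast (by omega : 4 ≤ m)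
    have h2 : Real.sqrt ((m + 1 : ℕ) : ℝ) ≤ 2 * Real.sqrt m := by
      rw [Real.sqrt_le_left (by positivity)]
      rw [mul_pow, Real.sq_sqrt (by linarith)]
      push_cast
      linarith
    have hR0 : (0:ℝ) ≤ R.card := Nat.cast_nonneg _
    calc (R.card : ℝ) * Real.sqrt ((m + 1 : ℕ) : ℝ) ≤ R.card * (2 * Real.sqrt m) :=
          mul_le_mul_of_nonneg_left h2 hR0
      _ = 2 * (R.card * Real.sqrt m) := by ring
      _ ≤ 2 * (C * 2 ^ m) := by linarith
      _ = C * 2 ^ (m+1) := by rw [pow_succ]; ring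
      _ ≤ (C * 2 ^ m0 * (m0 + 1) + C) * 2 ^ (m+1) := by
          apply mul_le_mul_of_nonneg_right _ (by positivity)
          linarith
  · -- small degree
    have hdeg' : DegLT (m0 + 2) (ind f) := DegLT_le (by omega) hdeg
    have h1 := hmain n (ind f) hMB m0 (le_refl _) hdeg' R hRrel
    have hR0 : (0:ℝ) ≤ R.card := Nat.cast_nonneg _
    have hs1 : 1 ≤ Real.sqrt m0 := by
      apply Real.le_sqrt_of_sq_le; linarith
    have h2 : (R.card : ℝ) ≤ C * 2 ^ m0 := by
      have := mul_le_mul_of_nonneg_left hs1 hR0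
      linarith
    have h3 : Real.sqrt d ≤ m0 + 1 := by
      have hdm : (d:ℝ) ≤ m0 := by exact_mod_cast hge
      rw [Real.sqrt_le_left (by positivity)]
      nlinarith
    have hs0 : 0 ≤ Real.sqrt (d:ℝ) := Real.sqrt_nonneg _
    calc (R.card : ℝ) * Real.sqrt d ≤ (C * 2 ^ m0) * (m0 + 1) := by
          apply mul_le_mul h2 h3 hs0 (by positivity)
      _ ≤ (C * 2 ^ m0 * (m0 + 1) + C) * 1 := by linarith
      _ ≤ (C * 2 ^ m0 * (m0 + 1) + C) * 2 ^ d := by
          apply mul_le_mul_of_nonneg_left h2d (by linarith)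

end Pool.Agent.TH531.Fb
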