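import Mathlib

set_option autoImplicit false
set_option linter.unusedSectionVars false

open Finset

namespace Pool.Agent.TH531.Fb

variable {ι : Type*} [Fintype ι] [DecidableEq ι]

/-- flip coordinate `k` -/
def fl (k : ι) (x : ι → Bool) : ι → Bool := Function.update x k (!x k)

omit [Fintype ι] in
lemma fl_fl (k : ι) (x : ι → Bool) : fl k (fl k x) = x := by
  unfold fl
  simp

/-- product weight -/
noncomputable def wt (p : ι → ℝ) (x : ι → Bool) : ℝ := ∏ k, (if x k then p k else 1 - p k)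

/-- product weight with coordinate `k` removed -/
noncomputable def wt' (k : ι) (p : ι → ℝ) (x : ι → Bool) : ℝ :=
  ∏ j ∈ univ.erase k, (if x j then p j else 1 - p j)

/-- expectation -/
noncomputable def Ex (p : ι → ℝ) (φ : (ι → Bool) → ℝ) : ℝ := ∑ x, wt p x * φ x

/-- restriction -/
def res (k : ι) (b : Bool) (φ : (ι → Bool) → ℝ) : (ι → Bool) → ℝ :=
  fun x => φ (Function.update x k b)

/-- discrete derivative -/
def D (k : ι) (φ : (ι → Bool) → ℝ) : (ι → Bool) → ℝ :=
  fun x => φ (Function.update x k true) - φ (Function.update x k false)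

/-- independence of coordinate `k` -/
def Ind (k : ι) (φ : (ι → Bool) → ℝ) : Prop := ∀ x b, φ (Function.update x k b) = φ x

lemma wt_eq (k : ι) (p : ι → ℝ) (x : ι → Bool) :
    wt p x = (if x k then p k else 1 - p k) * wt' k p x := by
  unfold wt wt'
  exact (Finset.mul_prod_erase univ _ (mem_univ k)).symm

lemma wt'_update (k : ι) (p : ι → ℝ) (x : ι → Bool) (b : Bool) :
    wt' k p (Function.update x k b) = wt' k p x := by
  unfold wt'
  apply Finset.prod_congr rfl
  intro j hj
  rw [Function.update_of_ne (Finset.ne_of_mem_erase hj)]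

lemma wt'_fl (k : ι) (p : ι → ℝ) (x : ι → Bool) :
    wt' k p (fl k x) = wt' k p x := wt'_update k p x _

lemma wt'_update_p (k : ι) (p : ι → ℝ) (x : ι → Bool) (r : ℝ) :
    wt' k (Function.update p k r) x = wt' k p x := by
  unfold wt'
  apply Finset.prod_congr rfl
  intro j hj
  rw [Function.update_of_ne (Finset.ne_of_mem_erase hj)]

/-- flipping as an equivalence -/
def flE (k : ι) : (ι → Bool) ≃ (ι → Bool) :=
  ⟨fl k, fl k, fl_fl k, fl_fl k⟩

lemma sum_fl (k : ι) (G : (ι → Bool) → ℝ) : ∑ x, G (fl k x) = ∑ x, G x :=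
  Equiv.sum_comp (flE k) G

lemma sum_half (k : ι) (G : (ι → Bool) → ℝ) :
    ∑ x, G x = (1/2) * ∑ x, (G x + G (fl k x)) := by
  rw [Finset.sum_add_distrib, sum_fl]
  ring

lemma Ex_half (k : ι) (p : ι → ℝ) (φ : (ι → Bool) → ℝ) :
    Ex p φ = (1/2) * ∑ x, wt' k p x * ((1 - p k) * φ (Function.update x k false)
      + p k * φ (Function.update x k true)) := by
  unfold Ex
  rw [sum_half k]
  congr 1
  apply Finset.sum_congr rfl
  intro x _
  rw [wt_eq k p x, wt_eq k p (fl k x), wt'_fl]
  cases hx : x k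
  · have h1 : Function.update x k false = x := by
      rw [← hx]; exact Function.update_eq_self k x
    have h2 : fl k x = Function.update x k true := by
      unfold fl; rw [hx]; rfl
    rw [h2, h1]
    simp
    ring
  · have h1 : Function.update x k true = x := by
      rw [← hx]; exact Function.update_eq_self k x
    have h2 : fl k x = Function.update x k false := by
      unfold fl; rw [hx]; rfl
    rw [h2, h1]
    simp
    ring

lemma Ex_ind (k : ι) (p : ι → ℝ) {φ : (ι → Bool) → ℝ} (h : Ind k φ) :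
    Ex p φ = (1/2) * ∑ x, wt' k p x * φ x := by
  rw [Ex_half k]
  congr 1
  apply Finset.sum_congr rfl
  intro x _
  rw [h, h]
  ring

omit [Fintype ι] in
lemma ind_res (k : ι) (b : Bool) (φ : (ι → Bool) → ℝ) : Ind k (res k b φ) := by
  intro x b'
  unfold res
  simp

omit [Fintype ι] in
lemma ind_D (k : ι) (φ : (ι → Bool) → ℝ) : Ind k (D k φ) := by
  intro x b'
  unfold D
  simp

lemma Ex_split (k : ι) (p : ι → ℝ) (φ : (ι → Bool) → ℝ) :
    Ex p φ = (1 - p k) * Ex p (res k false φ) + p k * Ex p (res k true φ) := by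
  rw [Ex_half k, Ex_ind k p (ind_res k false φ), Ex_ind k p (ind_res k true φ)]
  unfold res
  rw [Finset.mul_sum, Finset.mul_sum, Finset.mul_sum, Finset.mul_sum, Finset.mul_sum,
    ← Finset.sum_add_distrib]
  apply Finset.sum_congr rfl
  intro x _
  ring

lemma Ex_update_ind (k : ι) (p : ι → ℝ) (r : ℝ) {φ : (ι → Bool) → ℝ} (h : Ind k φ) :
    Ex (Function.update p k r) φ = Ex p φ := by
  rw [Ex_ind k _ h, Ex_ind k _ h]
  simp_rw [wt'_update_p]

lemma Ex_sub (p : ι → ℝ) (φ ψ : (ι → Bool) → ℝ) :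
    Ex p (fun x => φ x - ψ x) = Ex p φ - Ex p ψ := by
  unfold Ex
  rw [← Finset.sum_sub_distrib]
  apply Finset.sum_congr rfl
  intro x _
  ring

lemma Ex_add (p : ι → ℝ) (φ ψ : (ι → Bool) → ℝ) :
    Ex p (fun x => φ x + ψ x) = Ex p φ + Ex p ψ := by
  unfold Ex
  rw [← Finset.sum_add_distrib]
  apply Finset.sum_congr rfl
  intro x _
  ring

lemma Ex_smul (p : ι → ℝ) (c : ℝ) (φ : (ι → Bool) → ℝ) :
    Ex p (fun x => c * φ x) = c * Ex p φ := by
  unfold Ex
  rw [Finset.mul_sum]
  apply Finset.sum_congr rfl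
  intro x _
  ring

lemma Ex_sum {κ : Type*} (p : ι → ℝ) (s : Finset κ) (φ : κ → (ι → Bool) → ℝ) :
    Ex p (fun x => ∑ k ∈ s, φ k x) = ∑ k ∈ s, Ex p (φ k) := by
  unfold Ex
  rw [Finset.sum_comm]
  apply Finset.sum_congr rfl
  intro x _
  rw [Finset.mul_sum]

lemma Ex_D (k : ι) (p : ι → ℝ) (φ : (ι → Bool) → ℝ) :
    Ex p (D k φ) = Ex p (res k true φ) - Ex p (res k false φ) := by
  rw [← Ex_sub]
  rfl

lemma Ex_update (k : ι) (p : ι → ℝ) (r : ℝ) (φ : (ι → Bool) → ℝ) :
    Ex (Function.update p k r) φ - Ex p φ = (r - p k) * Ex p (D k φ) := by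
  rw [Ex_split k (Function.update p k r), Ex_split k p, Ex_update_ind k p r (ind_res k _ φ),
    Ex_update_ind k p r (ind_res k _ φ), Ex_D]
  simp only [Function.update_self]
  ring

/-- probability vectors -/
def PV (p : ι → ℝ) : Prop := ∀ k, 0 ≤ p k ∧ p k ≤ 1

lemma wt_nonneg {p : ι → ℝ} (hp : PV p) (x : ι → Bool) : 0 ≤ wt p x := by
  unfold wt
  apply Finset.prod_nonneg
  intro k _
  have := hp k
  split_ifs <;> linarith

lemma wt_sum (p : ι → ℝ) : ∑ x, wt p x = 1 := by
  unfold wt
  have h := Finset.prod_univ_sum (fun _ : ι => (Finset.univ : Finset Bool))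
    (fun k b => (if b then p k else 1 - p k : ℝ))
  rw [Fintype.piFinset_univ] at h
  rw [← h]
  apply Finset.prod_eq_one
  intro k _
  simp

lemma Ex_const (p : ι → ℝ) (c : ℝ) : Ex p (fun _ => c) = c := by
  unfold Ex
  rw [← Finset.sum_mul, wt_sum, one_mul]

lemma Ex_mono {p : ι → ℝ} (hp : PV p) {φ ψ : (ι → Bool) → ℝ} (h : ∀ x, φ x ≤ ψ x) :
    Ex p φ ≤ Ex p ψ := by
  unfold Ex
  apply Finset.sum_le_sum
  intro x _
  exact mul_le_mul_of_nonneg_left (h x) (wt_nonneg hp x)

lemma Ex_nonneg {p : ι → ℝ} (hp : PV p) {φ : (ι → Bool) → ℝ} (h : ∀ x, 0 ≤ φ x) :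
    0 ≤ Ex p φ := by
  unfold Ex
  apply Finset.sum_nonneg
  intro x _
  exact mul_nonneg (wt_nonneg hp x) (h x)

lemma Ex_le_one {p : ι → ℝ} (hp : PV p) {φ : (ι → Bool) → ℝ} (h : ∀ x, φ x ≤ 1) :
    Ex p φ ≤ 1 := by
  have := Ex_mono hp (ψ := fun _ => 1) h
  rwa [Ex_const] at this

lemma Ex_abs_le {p : ι → ℝ} (hp : PV p) (φ : (ι → Bool) → ℝ) :
    |Ex p φ| ≤ Ex p (fun x => |φ x|) := by
  rw [abs_le]
  constructor
  · have := Ex_mono hp (φ := fun x => (-1) * |φ x|) (ψ := φ) (fun x => by
      have := neg_abs_le (φ x); linarith)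
    rw [Ex_smul] at this
    linarith
  · exact Ex_mono hp (fun x => le_abs_self _)

lemma Ex_zero (p : ι → ℝ) : Ex p (fun _ => 0) = 0 := Ex_const p 0

/-- two vectors agreeing on the coordinates on which `φ` depends give the same expectation -/
lemma Ex_congr_p {p p' : ι → ℝ} {φ : (ι → Bool) → ℝ} (h : ∀ k, p k ≠ p' k → Ind k φ) :
    Ex p φ = Ex p' φ := by
  have key : ∀ W : Finset ι, Ex (fun k => if k ∈ W then p k else p' k) φ = Ex p' φ := by
    intro W
    induction W using Finset.induction_on with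
    | empty => simp
    | insert a W ha ih =>
      have h1 : (fun k => if k ∈ insert a W then p k else p' k)
          = Function.update (fun k => if k ∈ W then p k else p' k) a (p a) := by
        funext k
        by_cases hk : k = a
        · subst hk; simp
        · rw [Function.update_of_ne hk]
          simp [Finset.mem_insert, hk]
      rw [h1, ← ih]
      by_cases hpa : p a = p' a
      · have : Function.update (fun k => if k ∈ W then p k else p' k) a (p a)
          = (fun k => if k ∈ W then p k else p' k) := by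
          funext k
          by_cases hk : k = a
          · subst hk; simp [ha, hpa]
          · rw [Function.update_of_ne hk]
        rw [this]
      · exact Ex_update_ind a _ _ (h a hpa)
  have := key univ
  simpa using this

lemma Ex_res_sum_le {p : ι → ℝ} (hp : ∀ k, 3/8 ≤ p k ∧ p k ≤ 5/8) (k : ι)
    {φ : (ι → Bool) → ℝ} (h : ∀ x, 0 ≤ φ x) :
    Ex p (res k false φ) + Ex p (res k true φ) ≤ (8/3) * Ex p φ := by
  have hPV : PV p := fun k => ⟨by linarith [(hp k).1], by linarith [(hp k).2]⟩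
  rw [Ex_split k p φ]
  have h0 := Ex_nonneg hPV (φ := res k false φ) (fun x => h _)
  have h1 := Ex_nonneg hPV (φ := res k true φ) (fun x => h _)
  have := hp k
  nlinarith

end Pool.Agent.TH531.Fb
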