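import Pool.Agent.TH531.FbDeg

set_option autoImplicit false
set_option linter.unusedSectionVars false

open Finset

namespace Pool.Agent.TH531.Fb

variable {ι : Type*} [Fintype ι] [DecidableEq ι]

lemma pi_alg {τ T P a0 a1 b0 b1 : ℝ} (hτ : τ ^ 2 ≤ T ^ 2) (hT : T ^ 2 ≤ 1 / 64)
    (hP : 0 ≤ P) (ha0 : 0 ≤ a0) (ha1 : 0 ≤ a1) (hb0 : 0 ≤ b0) (hb1 : 0 ≤ b1)
    (hu : P ≤ a0 * b0) (hv : P ≤ a1 * b1) (hS : (4 + 128 * T ^ 2) * P ≤ (a0 + a1) * (b0 + b1)) :
    P ≤ ((1/2 - τ) * a0 + (1/2 + τ) * a1) * ((1/2 + τ) * b0 + (1/2 - τ) * b1) := by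
  obtain ⟨u, hu'⟩ : ∃ u, u = a0 * b0 := ⟨_, rfl⟩
  obtain ⟨v, hv'⟩ : ∃ v, v = a1 * b1 := ⟨_, rfl⟩
  obtain ⟨x, hx'⟩ : ∃ x, x = a0 * b1 := ⟨_, rfl⟩
  obtain ⟨w, hw'⟩ : ∃ w, w = a1 * b0 := ⟨_, rfl⟩
  have hxw : x * w = u * v := by rw [hx', hw', hu', hv']; ring
  have hx0 : 0 ≤ x := by rw [hx']; positivity
  have hw0 : 0 ≤ w := by rw [hw']; positivity
  have hexp : ((1/2 - τ) * a0 + (1/2 + τ) * a1) * ((1/2 + τ) * b0 + (1/2 - τ) * b1)
      = ((1 - 4 * τ ^ 2) * (u + v) + (1 + 4 * τ ^ 2) * (x + w) - 4 * τ * (x - w)) / 4 := by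
    rw [hu', hv', hx', hw']; ring
  have hS' : (4 + 128 * T ^ 2) * P ≤ u + v + x + w := by
    have : (a0 + a1) * (b0 + b1) = u + v + x + w := by rw [hu', hv', hx', hw']; ring
    linarith
  rw [← hu'] at hu
  rw [← hv'] at hv
  rw [hexp]
  clear hexp hS hu' hv' hx' hw'
  set A := u + v with hA
  set B := x + w with hB
  have hA2 : 2 * P ≤ A := by rw [hA]; linarith
  have huv : P ^ 2 ≤ u * v := by nlinarith
  have hB0 : 0 ≤ B := by rw [hB]; linarith
  have hB2 : 2 * P ≤ B := by
    have : (2 * P) ^ 2 ≤ B ^ 2 := by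
      have h1 : B ^ 2 = (x - w) ^ 2 + 4 * (x * w) := by rw [hB]; ring
      rw [h1, hxw]
      nlinarith [sq_nonneg (x - w)]
    exact le_of_sq_le_sq this hB0
  set η := A + B - 4 * P with hη
  have hη0 : 128 * T ^ 2 * P ≤ η := by
    rw [hη]; nlinarith [hS']
  have hτP : 128 * τ ^ 2 * P ≤ η := by nlinarith
  have hη1 : 0 ≤ η := by
    have : 0 ≤ 128 * τ ^ 2 * P := by positivity
    linarith
  have hD2 : (x - w) ^ 2 ≤ (4 * P + η) * η := by
    have h1 : (x - w) ^ 2 = B ^ 2 - 4 * (u * v) := by rw [← hxw, hB]; ring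
    rw [h1, hη]
    have h2 : P * (u + v) - P ^ 2 ≤ u * v := by nlinarith
    rw [← hA] at h2
    nlinarith
  have hτ64 : τ ^ 2 ≤ 1 / 64 := le_trans hτ hT
  have h14 : 0 ≤ 1 - 4 * τ ^ 2 := by linarith
  have hsq : (4 * τ * (x - w)) ^ 2 ≤ (η * (1 - 4 * τ ^ 2)) ^ 2 := by
    have e1 : (4 * τ * (x - w)) ^ 2 = 16 * τ ^ 2 * (x - w) ^ 2 := by ring
    have e2 : 16 * τ ^ 2 * (x - w) ^ 2 ≤ 16 * τ ^ 2 * ((4 * P + η) * η) := by
      apply mul_le_mul_of_nonneg_left hD2; positivity
    have e3 : 16 * τ ^ 2 * ((4 * P + η) * η) = η * (64 * τ ^ 2 * P + 16 * τ ^ 2 * η) := by ring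
    have e4 : 64 * τ ^ 2 * P + 16 * τ ^ 2 * η ≤ (3/4) * η := by nlinarith
    have e5 : (3/4) ≤ (1 - 4 * τ ^ 2) ^ 2 := by nlinarith
    have e6 : η * (64 * τ ^ 2 * P + 16 * τ ^ 2 * η) ≤ η * ((3/4) * η) :=
      mul_le_mul_of_nonneg_left e4 hη1
    have e7 : η * ((3/4) * η) ≤ (η * (1 - 4 * τ ^ 2)) ^ 2 := by
      have : (η * (1 - 4 * τ ^ 2)) ^ 2 = η ^ 2 * (1 - 4 * τ ^ 2) ^ 2 := by ring
      rw [this]
      have : η * ((3/4) * η) = η ^ 2 * (3/4) := by ring
      rw [this]
      exact mul_le_mul_of_nonneg_left e5 (sq_nonneg _)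
    linarith
  have hmain : 4 * τ * (x - w) ≤ η * (1 - 4 * τ ^ 2) :=
    le_of_sq_le_sq hsq (mul_nonneg hη1 h14)
  have hAB : A - B ≤ η := by rw [hη]; linarith
  have : 4 * τ ^ 2 * (A - B) ≤ 4 * τ ^ 2 * η := by
    apply mul_le_mul_of_nonneg_left hAB; positivity
  have hAB' : A + B = 4 * P + η := by rw [hη]; ring
  nlinarith

/-- indicator of non-vanishing -/
noncomputable def nz (q : (ι → Bool) → ℝ) : (ι → Bool) → ℝ :=
  fun x => if q x ≠ 0 then 1 else 0

lemma nz_nonneg (q : (ι → Bool) → ℝ) (x : ι → Bool) : 0 ≤ nz q x := by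
  unfold nz; split_ifs <;> norm_num

lemma nz_le_one (q : (ι → Bool) → ℝ) (x : ι → Bool) : nz q x ≤ 1 := by
  unfold nz; split_ifs <;> norm_num

lemma nz_res (v : ι) (b : Bool) (q : (ι → Bool) → ℝ) : res v b (nz q) = nz (res v b q) := rfl

lemma nz_ind {k : ι} {q : (ι → Bool) → ℝ} (h : Ind k q) : Ind k (nz q) := by
  intro x b; unfold nz; rw [h]

lemma nz_D_le (v : ι) (q : (ι → Bool) → ℝ) (x : ι → Bool) :
    nz (D v q) x ≤ nz (res v false q) x + nz (res v true q) x := by
  unfold nz D res
  by_cases h0 : q (Function.update x v false) = 0 <;>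
    by_cases h1 : q (Function.update x v true) = 0 <;> simp [h0, h1]
  split_ifs <;> norm_num

lemma pv_one_sub {p : ι → ℝ} (hp : PV p) : PV (fun i => 1 - p i) :=
  fun k => ⟨by linarith [(hp k).2], by linarith [(hp k).1]⟩

theorem PI {T : ℝ} (hT : T ^ 2 ≤ 1/64) {p : ι → ℝ}
    (hp : ∀ k, (p k - 1/2) ^ 2 ≤ T ^ 2) (hPV : PV p) (V : Finset ι) :
    ∀ (k : ℕ) (q : (ι → Bool) → ℝ), (∀ i, i ∉ V → Ind i q) → DegLT (k+1) q → (∃ x, q x ≠ 0) →
    (1 / (4 + 128 * T ^ 2)) ^ k ≤ Ex p (nz q) * Ex (fun i => 1 - p i) (nz q) := by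
  have hg0 : 0 < 4 + 128 * T ^ 2 := by positivity
  have hγ0 : 0 < 1 / (4 + 128 * T ^ 2) := by positivity
  have hγ1 : 1 / (4 + 128 * T ^ 2) ≤ 1 := by
    rw [div_le_one hg0]; nlinarith [sq_nonneg T]
  have hPV' : PV (fun i => 1 - p i) := pv_one_sub hPV
  induction V using Finset.induction_on with
  | empty =>
    intro k q hind _ ⟨x, hx⟩
    have hconst : ∀ y, q y = q x := by
      intro y
      have key : ∀ W : Finset ι, q (fun k => if k ∈ W then y k else x k) = q x := by
        intro W
        induction W using Finset.induction_on with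
        | empty => simp
        | insert a W ha ih =>
          have e : (fun k => if k ∈ insert a W then y k else x k)
            = Function.update (fun k => if k ∈ W then y k else x k) a (y a) := by
            funext k
            by_cases hk : k = a
            · subst hk; simp
            · rw [Function.update_of_ne hk]; simp [Finset.mem_insert, hk]
          rw [e, hind a (by simp), ih]
      have := key univ
      simpa using this
    have hnz : nz q = fun _ => 1 := by
      funext y
      unfold nz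
      rw [hconst y, if_pos hx]
    rw [hnz, Ex_const, Ex_const, mul_one]
    exact pow_le_one₀ hγ0.le hγ1
  | insert v V hv ih =>
    intro k q hind hdeg hne
    have hind' : ∀ b, ∀ i, i ∉ V → Ind i (res v b q) := by
      intro b i hi
      by_cases hiv : i = v
      · subst hiv; exact ind_res i b q
      · exact ind_res_of_ind v b (hind i (by simp [hiv, hi]))
    have hindD : ∀ i, i ∉ V → Ind i (D v q) := by
      intro i hi
      by_cases hiv : i = v
      · subst hiv; exact ind_D i q
      · exact ind_D_of_ind v (hind i (by simp [hiv, hi]))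
    have hdeg' : ∀ b, DegLT (k+1) (res v b q) := fun b => DegLT_res v b hdeg
    have hsp : Ex p (nz q) = (1 - p v) * Ex p (nz (res v false q))
        + p v * Ex p (nz (res v true q)) := by
      rw [Ex_split v p (nz q), nz_res, nz_res]
    have hsp' : Ex (fun i => 1 - p i) (nz q) = p v * Ex (fun i => 1 - p i) (nz (res v false q))
        + (1 - p v) * Ex (fun i => 1 - p i) (nz (res v true q)) := by
      rw [Ex_split v _ (nz q), nz_res, nz_res]
      ring
    set a0 := Ex p (nz (res v false q)) with ha0
    set a1 := Ex p (nz (res v true q)) with ha1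
    set b0 := Ex (fun i => 1 - p i) (nz (res v false q)) with hb0
    set b1 := Ex (fun i => 1 - p i) (nz (res v true q)) with hb1
    have ha0n : 0 ≤ a0 := Ex_nonneg hPV (nz_nonneg _)
    have ha1n : 0 ≤ a1 := Ex_nonneg hPV (nz_nonneg _)
    have hb0n : 0 ≤ b0 := Ex_nonneg hPV' (nz_nonneg _)
    have hb1n : 0 ≤ b1 := Ex_nonneg hPV' (nz_nonneg _)
    have hpv := hp v
    have hρ : 1 / (4 + 128 * T ^ 2) ≤ p v * (1 - p v) := by
      have h1 : p v * (1 - p v) = 1/4 - (p v - 1/2) ^ 2 := by ring
      rw [h1]
      have h2 : 1/4 - T ^ 2 ≤ 1/4 - (p v - 1/2) ^ 2 := by linarith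
      refine le_trans ?_ h2
      rw [div_le_iff₀ hg0]
      nlinarith [sq_nonneg T, sq_nonneg (T ^ 2)]
    have hρ0 : 0 ≤ p v * (1 - p v) := le_trans hγ0.le hρ
    rw [hsp, hsp']
    by_cases h0 : ∃ x, res v false q x ≠ 0
    · by_cases h1 : ∃ x, res v true q x ≠ 0
      · have i0 := ih k (res v false q) (hind' false) (hdeg' false) h0
        have i1 := ih k (res v true q) (hind' true) (hdeg' true) h1
        rw [← ha0, ← hb0] at i0
        rw [← ha1, ← hb1] at i1
        by_cases hD : ∃ x, D v q x ≠ 0
        · cases k with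
          | zero =>
            exfalso
            obtain ⟨x, hx⟩ := hD
            exact hx (hdeg v x)
          | succ k =>
            have iD := ih k (D v q) hindD (hdeg v) hD
            have hl1 : Ex p (nz (D v q)) ≤ a0 + a1 := by
              rw [ha0, ha1, ← Ex_add]
              exact Ex_mono hPV (nz_D_le v q)
            have hl2 : Ex (fun i => 1 - p i) (nz (D v q)) ≤ b0 + b1 := by
              rw [hb0, hb1, ← Ex_add]
              exact Ex_mono hPV' (nz_D_le v q)
            have hS : (1 / (4 + 128 * T ^ 2)) ^ k ≤ (a0 + a1) * (b0 + b1) := by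
              refine le_trans iD ?_
              apply mul_le_mul hl1 hl2 (Ex_nonneg hPV' (nz_nonneg _)) (by linarith)
            have hS' : (4 + 128 * T ^ 2) * (1 / (4 + 128 * T ^ 2)) ^ (k+1)
                ≤ (a0 + a1) * (b0 + b1) := by
              have : (4 + 128 * T ^ 2) * (1 / (4 + 128 * T ^ 2)) ^ (k+1)
                = (1 / (4 + 128 * T ^ 2)) ^ k := by
                have hx1 : (4 + 128 * T ^ 2) * (1 / (4 + 128 * T ^ 2)) = 1 := by
                  rw [mul_one_div]; exact div_self hg0.ne'
                rw [pow_succ]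
                linear_combination (1 / (4 + 128 * T ^ 2)) ^ k * hx1
              rw [this]; exact hS
            have := pi_alg (τ := p v - 1/2) hpv hT (pow_nonneg hγ0.le (k+1)) ha0n ha1n hb0n hb1n
              i0 i1 hS'
            convert this using 2 <;> ring
        · have hDz : ∀ x, D v q x = 0 := by
            intro x; by_contra hx; exact hD ⟨x, hx⟩
          have hindv := ind_of_D hDz
          have e0 : res v false q = q := by
            funext x; unfold res; exact hindv x false
          have e1 : res v true q = q := by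
            funext x; unfold res; exact hindv x true
          have ea : a1 = a0 := by rw [ha0, ha1, e0, e1]
          have eb : b1 = b0 := by rw [hb0, hb1, e0, e1]
          rw [ea, eb]
          have : ((1 - p v) * a0 + p v * a0) * (p v * b0 + (1 - p v) * b0) = a0 * b0 := by ring
          rw [this]; exact i0
      · have h1z : ∀ x, res v true q x = 0 := by
          intro x; by_contra hx; exact h1 ⟨x, hx⟩
        have hD : ∃ x, D v q x ≠ 0 := by
          obtain ⟨x, hx⟩ := h0
          refine ⟨x, ?_⟩
          have : D v q x = res v true q x - res v false q x := rfl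
          rw [this, h1z]
          intro hc; apply hx; linarith
        have hnz : nz (D v q) = nz (res v false q) := by
          funext x
          have e : D v q x = - res v false q x := by
            have : D v q x = res v true q x - res v false q x := rfl
            rw [this, h1z]; ring
          unfold nz
          rw [e]
          simp
        cases k with
        | zero =>
          exfalso
          obtain ⟨x, hx⟩ := hD
          exact hx (hdeg v x)
        | succ k =>
          have iD := ih k (D v q) hindD (hdeg v) hD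
          rw [hnz, ← ha0, ← hb0] at iD
          have hprod : (1 / (4 + 128 * T ^ 2)) ^ (k+1) ≤ (p v * (1 - p v)) * (a0 * b0) := by
            rw [pow_succ, mul_comm]
            exact mul_le_mul hρ iD (pow_nonneg hγ0.le k) hρ0
          have hp0 := (hPV v).1
          have hp1 := (hPV v).2
          have hq0 : 0 ≤ 1 - p v := by linarith
          have e1 : 0 ≤ (1 - p v) * (1 - p v) * (a0 * b1) := by positivity
          have e2 : 0 ≤ p v * p v * (a1 * b0) := by positivity
          have e3 : 0 ≤ p v * (1 - p v) * (a1 * b1) := by positivity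
          nlinarith
    · have h0z : ∀ x, res v false q x = 0 := by
        intro x; by_contra hx; exact h0 ⟨x, hx⟩
      have h1 : ∃ x, res v true q x ≠ 0 := by
        obtain ⟨x, hx⟩ := hne
        refine ⟨x, ?_⟩
        cases hxv : x v
        · exfalso
          apply hx
          have := h0z x
          unfold res at this
          rwa [← hxv, Function.update_eq_self] at this
        · unfold res
          rwa [← hxv, Function.update_eq_self]
      have hD : ∃ x, D v q x ≠ 0 := by
        obtain ⟨x, hx⟩ := h1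
        refine ⟨x, ?_⟩
        have : D v q x = res v true q x - res v false q x := rfl
        rw [this, h0z]
        simpa using hx
      have hnz : nz (D v q) = nz (res v true q) := by
        funext x
        have e : D v q x = res v true q x := by
          have : D v q x = res v true q x - res v false q x := rfl
          rw [this, h0z]; ring
        unfold nz
        rw [e]
      cases k with
      | zero =>
        exfalso
        obtain ⟨x, hx⟩ := hD
        exact hx (hdeg v x)
      | succ k =>
        have iD := ih k (D v q) hindD (hdeg v) hD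
        rw [hnz, ← ha1, ← hb1] at iD
        have hprod : (1 / (4 + 128 * T ^ 2)) ^ (k+1) ≤ (p v * (1 - p v)) * (a1 * b1) := by
          rw [pow_succ, mul_comm]
          exact mul_le_mul hρ iD (pow_nonneg hγ0.le k) hρ0
        have hp0 := (hPV v).1
        have hp1 := (hPV v).2
        have hq0 : 0 ≤ 1 - p v := by linarith
        have e1 : 0 ≤ (1 - p v) * (1 - p v) * (a0 * b1) := by positivity
        have e2 : 0 ≤ p v * p v * (a1 * b0) := by positivity
        have e3 : 0 ≤ p v * (1 - p v) * (a0 * b0) := by positivity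
        nlinarith

end Pool.Agent.TH531.Fb
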