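import Pool.Agent.TH531.FbMono
import Pool.Agent.TH531.FbPI

set_option autoImplicit false
set_option linter.unusedSectionVars false
set_option linter.unnecessarySeqFocus false

open Finset

namespace Pool.Agent.TH531.Fb

variable {ι : Type*} [Fintype ι] [DecidableEq ι]

/-- replace the coordinates in `Q` by those of `v` -/
def mix (Q : Finset ι) (v x : ι → Bool) : ι → Bool := fun k => if k ∈ Q then v k else x k

/-- conditional expectation over the coordinates in `Q` -/
noncomputable def cE (p : ι → ℝ) (Q : Finset ι) (φ : (ι → Bool) → ℝ) : (ι → Bool) → ℝ :=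
  fun x => Ex p (fun v => φ (mix Q v x))

lemma mix_update_ne {Q : Finset ι} {l : ι} (hl : l ∉ Q) (v x : ι → Bool) (b : Bool) :
    mix Q v (Function.update x l b) = Function.update (mix Q v x) l b := by
  funext k
  unfold mix
  by_cases hk : k = l
  · subst hk; simp [hl]
  · rw [Function.update_of_ne hk, Function.update_of_ne hk]

lemma mix_update_mem {Q : Finset ι} {l : ι} (hl : l ∈ Q) (v x : ι → Bool) (b : Bool) :
    mix Q v (Function.update x l b) = mix Q v x := by
  funext k
  unfold mix
  by_cases hk : k = l
  · subst hk; simp [hl]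
  · rw [Function.update_of_ne hk]

lemma mix_insert {Q : Finset ι} {l : ι} (hl : l ∉ Q) (v x : ι → Bool) (b : Bool) :
    mix (insert l Q) (Function.update v l b) x = mix Q v (Function.update x l b) := by
  funext k
  unfold mix
  by_cases hk : k = l
  · subst hk; simp [hl]
  · simp [Finset.mem_insert, hk]

lemma cE_empty (p : ι → ℝ) (φ : (ι → Bool) → ℝ) (x : ι → Bool) : cE p ∅ φ x = φ x := by
  unfold cE
  have : (fun v : ι → Bool => φ (mix ∅ v x)) = fun _ => φ x := by
    funext v
    have : mix ∅ v x = x := by funext k; unfold mix; simp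
    rw [this]
  rw [this, Ex_const]

lemma cE_insert {Q : Finset ι} {l : ι} (hl : l ∉ Q) (p : ι → ℝ) (φ : (ι → Bool) → ℝ)
    (x : ι → Bool) :
    cE p (insert l Q) φ x = (1 - p l) * cE p Q φ (Function.update x l false)
      + p l * cE p Q φ (Function.update x l true) := by
  unfold cE
  rw [Ex_split l p]
  have : ∀ b, res l b (fun v => φ (mix (insert l Q) v x))
      = fun v => φ (mix Q v (Function.update x l b)) := by
    intro b; funext v
    show φ (mix (insert l Q) (Function.update v l b) x) = _
    rw [mix_insert hl]
  rw [this, this]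

lemma cE_mono {p : ι → ℝ} (hp : PV p) (Q : Finset ι) {φ ψ : (ι → Bool) → ℝ}
    (h : ∀ x, φ x ≤ ψ x) (x : ι → Bool) : cE p Q φ x ≤ cE p Q ψ x :=
  Ex_mono hp (fun _ => h _)

lemma cE_nonneg {p : ι → ℝ} (hp : PV p) (Q : Finset ι) {φ : (ι → Bool) → ℝ}
    (h : ∀ x, 0 ≤ φ x) (x : ι → Bool) : 0 ≤ cE p Q φ x :=
  Ex_nonneg hp (fun _ => h _)

lemma cE_le_one {p : ι → ℝ} (hp : PV p) (Q : Finset ι) {φ : (ι → Bool) → ℝ}
    (h : ∀ x, φ x ≤ 1) (x : ι → Bool) : cE p Q φ x ≤ 1 :=
  Ex_le_one hp (fun _ => h _)

lemma Ex_cE (p : ι → ℝ) (Q : Finset ι) (φ : (ι → Bool) → ℝ) :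
    Ex p (cE p Q φ) = Ex p φ := by
  induction Q using Finset.induction_on with
  | empty =>
    have : cE p ∅ φ = φ := by funext x; exact cE_empty p φ x
    rw [this]
  | insert l Q hl ih =>
    have : cE p (insert l Q) φ = fun x => (1 - p l) * res l false (cE p Q φ) x
        + p l * res l true (cE p Q φ) x := by
      funext x; exact cE_insert hl p φ x
    rw [this, Ex_add, Ex_smul, Ex_smul, ← Ex_split, ih]

lemma ind_cE {Q : Finset ι} {k : ι} (hk : k ∈ Q) (p : ι → ℝ) (φ : (ι → Bool) → ℝ) :
    Ind k (cE p Q φ) := by
  intro x b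
  unfold cE
  congr 1; funext v
  rw [mix_update_mem hk]

lemma D_cE {Q : Finset ι} {l : ι} (hl : l ∉ Q) (p : ι → ℝ) (φ : (ι → Bool) → ℝ) :
    D l (cE p Q φ) = cE p Q (D l φ) := by
  funext x
  unfold D cE
  rw [← Ex_sub]
  congr 1; funext v
  rw [mix_update_ne hl, mix_update_ne hl]

/-- Poincare -/
lemma poincare {p : ι → ℝ} (hp : PV p) {F : (ι → Bool) → ℝ} (hF : MB F) (Q : Finset ι) :
    Ex p (fun x => cE p Q F x * (1 - cE p Q F x)) ≤ (1/4) * ∑ l ∈ Q, Ex p (D l F) := by
  induction Q using Finset.induction_on with
  | empty =>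
    have : (fun x => cE p ∅ F x * (1 - cE p ∅ F x)) = fun _ => 0 := by
      funext x; rw [cE_empty]
      rcases hF.h01 x with h | h <;> rw [h] <;> ring
    rw [this, Ex_const]; simp
  | insert l Q hl ih =>
    rw [Finset.sum_insert hl]
    have e1 : (fun x => cE p (insert l Q) F x * (1 - cE p (insert l Q) F x))
        = fun x => ((1 - p l) * res l false (fun x => cE p Q F x * (1 - cE p Q F x)) x
          + p l * res l true (fun x => cE p Q F x * (1 - cE p Q F x)) x)
          + (p l * (1 - p l)) * (D l (cE p Q F) x) ^ 2 := by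
      funext x
      rw [cE_insert hl]
      unfold res D
      ring
    rw [e1, Ex_add, Ex_add, Ex_smul, Ex_smul, ← Ex_split, Ex_smul]
    have h2 : Ex p (fun x => (D l (cE p Q F) x) ^ 2) ≤ Ex p (D l F) := by
      rw [← Ex_cE p Q (D l F), D_cE hl]
      apply Ex_mono hp
      intro x
      have a0 : 0 ≤ cE p Q (D l F) x := cE_nonneg hp Q (hF.g_nonneg l) x
      have a1 : cE p Q (D l F) x ≤ 1 := cE_le_one hp Q (hF.g_le_one l) x
      nlinarith
    have h3 : 0 ≤ Ex p (fun x => (D l (cE p Q F) x) ^ 2) := Ex_nonneg hp (fun x => sq_nonneg _)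
    have h4 : p l * (1 - p l) ≤ 1/4 := by nlinarith [sq_nonneg (p l - 1/2)]
    have h5 : 0 ≤ p l * (1 - p l) := mul_nonneg (hp l).1 (by linarith [(hp l).2])
    have h6 : p l * (1 - p l) * Ex p (fun x => (D l (cE p Q F) x) ^ 2)
        ≤ (1/4) * Ex p (D l F) := by
      apply mul_le_mul h4 h2 h3 (by norm_num)
    linarith

lemma lb_one {p : ι → ℝ} (hp : PV p) {F : (ι → Bool) → ℝ} (hF : MB F) {b : ℝ}
    (Q : Finset ι) (hb : ∀ k ∈ Q, p k = b) :
    ∀ x z : ι → Bool, (∀ k, k ∉ Q → z k = x k) → F z = 1 →
      b ^ (Q.filter (fun k => z k = true)).card ≤ cE p Q F x := by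
  induction Q using Finset.induction_on with
  | empty =>
    intro x z hz hFz
    have : z = x := by funext k; exact hz k (by simp)
    rw [cE_empty, ← this, hFz]; simp
  | insert l Q hl ih =>
    intro x z hz hFz
    have hbl : p l = b := hb l (by simp)
    have hb0 : 0 ≤ b := by rw [← hbl]; exact (hp l).1
    have hb1 : b ≤ 1 := by rw [← hbl]; exact (hp l).2
    have ih' := ih (fun k hk => hb k (by simp [hk]))
    rw [cE_insert hl, hbl]
    cases hzl : z l
    · have hz0 : ∀ k, k ∉ Q → z k = Function.update x l false k := by
        intro k hk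
        by_cases hkl : k = l
        · subst hkl; rw [hzl]; simp
        · rw [Function.update_of_ne hkl]; exact hz k (by simp [hkl, hk])
      have hz1 : ∀ k, k ∉ Q → Function.update z l true k = Function.update x l true k := by
        intro k hk
        by_cases hkl : k = l
        · subst hkl; simp
        · rw [Function.update_of_ne hkl, Function.update_of_ne hkl]; exact hz k (by simp [hkl, hk])
      have hF1 : F (Function.update z l true) = 1 := by
        apply hF.eq_one; rw [← hFz]; apply hF.mono
        intro j; by_cases hj : j = l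
        · subst hj; rw [hzl]; exact Bool.false_le _
        · rw [Function.update_of_ne hj]
      have i0 := ih' _ z hz0 hFz
      have i1 := ih' _ _ hz1 hF1
      have ec : (Q.filter (fun k => Function.update z l true k = true))
          = Q.filter (fun k => z k = true) := by
        apply Finset.filter_congr
        intro k hk
        have : k ≠ l := by rintro rfl; exact hl hk
        rw [Function.update_of_ne this]
      rw [ec] at i1
      have ec2 : ((insert l Q).filter (fun k => z k = true)) = Q.filter (fun k => z k = true) := by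
        rw [Finset.filter_insert]; simp [hzl]
      rw [ec2]
      have q0 := mul_le_mul_of_nonneg_left i0 (by linarith : 0 ≤ 1 - b)
      have q1 := mul_le_mul_of_nonneg_left i1 hb0
      linarith
    · have hz1 : ∀ k, k ∉ Q → z k = Function.update x l true k := by
        intro k hk
        by_cases hkl : k = l
        · subst hkl; rw [hzl]; simp
        · rw [Function.update_of_ne hkl]; exact hz k (by simp [hkl, hk])
      have i1 := ih' _ z hz1 hFz
      have ec2 : ((insert l Q).filter (fun k => z k = true)).card
          = (Q.filter (fun k => z k = true)).card + 1 := by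
        rw [Finset.filter_insert, if_pos hzl, Finset.card_insert_of_notMem]
        intro h; exact hl (Finset.mem_filter.mp h).1
      rw [ec2, pow_succ]
      have q0 : 0 ≤ (1 - b) * cE p Q F (Function.update x l false) :=
        mul_nonneg (by linarith) (cE_nonneg hp Q hF.nonneg _)
      have q1 := mul_le_mul_of_nonneg_left i1 hb0
      linarith

lemma lb_zero {p : ι → ℝ} (hp : PV p) {F : (ι → Bool) → ℝ} (hF : MB F) {b : ℝ}
    (Q : Finset ι) (hb : ∀ k ∈ Q, p k = b) :
    ∀ x z : ι → Bool, (∀ k, k ∉ Q → z k = x k) → F z = 0 →
      (1 - b) ^ (Q.filter (fun k => z k = false)).card ≤ 1 - cE p Q F x := by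
  induction Q using Finset.induction_on with
  | empty =>
    intro x z hz hFz
    have : z = x := by funext k; exact hz k (by simp)
    rw [cE_empty, ← this, hFz]; simp
  | insert l Q hl ih =>
    intro x z hz hFz
    have hbl : p l = b := hb l (by simp)
    have hb0 : 0 ≤ b := by rw [← hbl]; exact (hp l).1
    have hb1 : b ≤ 1 := by rw [← hbl]; exact (hp l).2
    have ih' := ih (fun k hk => hb k (by simp [hk]))
    rw [cE_insert hl, hbl]
    cases hzl : z l
    · have hz1 : ∀ k, k ∉ Q → z k = Function.update x l false k := by
        intro k hk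
        by_cases hkl : k = l
        · subst hkl; rw [hzl]; simp
        · rw [Function.update_of_ne hkl]; exact hz k (by simp [hkl, hk])
      have i1 := ih' _ z hz1 hFz
      have ec2 : ((insert l Q).filter (fun k => z k = false)).card
          = (Q.filter (fun k => z k = false)).card + 1 := by
        rw [Finset.filter_insert, if_pos hzl, Finset.card_insert_of_notMem]
        intro h; exact hl (Finset.mem_filter.mp h).1
      rw [ec2, pow_succ]
      have q0 : 0 ≤ b * (1 - cE p Q F (Function.update x l true)) :=
        mul_nonneg hb0 (by linarith [cE_le_one hp Q hF.le_one (Function.update x l true)])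
      have q1 := mul_le_mul_of_nonneg_left i1 (by linarith : 0 ≤ 1 - b)
      linarith
    · have hz0 : ∀ k, k ∉ Q → z k = Function.update x l true k := by
        intro k hk
        by_cases hkl : k = l
        · subst hkl; rw [hzl]; simp
        · rw [Function.update_of_ne hkl]; exact hz k (by simp [hkl, hk])
      have hz1 : ∀ k, k ∉ Q → Function.update z l false k = Function.update x l false k := by
        intro k hk
        by_cases hkl : k = l
        · subst hkl; simp
        · rw [Function.update_of_ne hkl, Function.update_of_ne hkl]; exact hz k (by simp [hkl, hk])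
      have hF1 : F (Function.update z l false) = 0 := by
        apply hF.eq_zero; rw [← hFz]; apply hF.mono
        intro j; by_cases hj : j = l
        · subst hj; rw [hzl]; exact Bool.le_true _
        · rw [Function.update_of_ne hj]
      have i0 := ih' _ z hz0 hFz
      have i1 := ih' _ _ hz1 hF1
      have ec : (Q.filter (fun k => Function.update z l false k = false))
          = Q.filter (fun k => z k = false) := by
        apply Finset.filter_congr
        intro k hk
        have : k ≠ l := by rintro rfl; exact hl hk
        rw [Function.update_of_ne this]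
      rw [ec] at i1
      have ec2 : ((insert l Q).filter (fun k => z k = false)) = Q.filter (fun k => z k = false) := by
        rw [Finset.filter_insert]; simp [hzl]
      rw [ec2]
      have q0 := mul_le_mul_of_nonneg_left i0 hb0
      have q1 := mul_le_mul_of_nonneg_left i1 (by linarith : 0 ≤ 1 - b)
      linarith

lemma Dl_res {v : ι} {l : List ι} (hv : v ∉ l) (b : Bool) (q : (ι → Bool) → ℝ) :
    Dl l (res v b q) = res v b (Dl l q) := by
  induction l with
  | nil => rfl
  | cons a l ih =>
    rw [List.mem_cons, not_or] at hv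
    simp only [Dl]
    rw [ih hv.2, res_D_ne (Ne.symm hv.1)]

lemma LD_res {Q : Finset ι} {v : ι} (hv : v ∉ Q) (b : Bool) {ℓ : ℕ} {q : (ι → Bool) → ℝ}
    (h : LD (insert v Q) ℓ q) : LD Q ℓ (res v b q) := by
  intro l hl hlen x
  rw [Dl_res (fun hvl => hv (hl v hvl))]
  exact h l (fun k hk => by simp [hl k hk]) hlen _

lemma LD_D {Q : Finset ι} {v : ι} {ℓ : ℕ} {q : (ι → Bool) → ℝ}
    (h : LD (insert v Q) (ℓ+1) q) : LD Q ℓ (D v q) := by
  intro l hl hlen x
  have := h (l ++ [v]) (by
    intro k hk
    rw [List.mem_append] at hk
    rcases hk with hk | hk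
    · simp [hl k hk]
    · simp at hk; simp [hk]) (by simp; omega) x
  rw [Dl_append] at this
  exact this

/-- Schwartz–Zippel on a subcube -/
lemma sz {p : ι → ℝ} (hp : PV p) (Q : Finset ι) (hQ : ∀ k ∈ Q, p k = 1/2) :
    ∀ (ℓ : ℕ) (q : (ι → Bool) → ℝ), LD Q ℓ q → ∀ x,
      (∃ z, (∀ k, k ∉ Q → z k = x k) ∧ q z ≠ 0) → 1 ≤ 2 ^ ℓ * cE p Q (nz q) x := by
  induction Q using Finset.induction_on with
  | empty =>
    intro ℓ q _ x ⟨z, hz, hqz⟩
    have : z = x := by funext k; exact hz k (by simp)
    rw [this] at hqz
    rw [cE_empty]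
    have : nz q x = 1 := by unfold nz; rw [if_pos hqz]
    rw [this, mul_one]
    exact one_le_pow₀ (by norm_num)
  | insert v Q hv ih =>
    intro ℓ q hq x hex
    have ih' := ih (fun k hk => hQ k (by simp [hk]))
    have hpv : p v = 1/2 := hQ v (by simp)
    have hEb : ∀ b, cE p Q (nz q) (Function.update x v b) = cE p Q (nz (res v b q)) x := by
      intro b
      unfold cE
      congr 1; funext w
      rw [mix_update_ne hv]
      rfl
    rw [cE_insert hv, hpv, hEb, hEb]
    set E0 := cE p Q (nz (res v false q)) x with hE0
    set E1 := cE p Q (nz (res v true q)) x with hE1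
    have hE0n : 0 ≤ E0 := cE_nonneg hp Q (nz_nonneg _) x
    have hE1n : 0 ≤ E1 := cE_nonneg hp Q (nz_nonneg _) x
    by_cases h0 : ∃ z, (∀ k, k ∉ Q → z k = x k) ∧ res v false q z ≠ 0
    · by_cases h1 : ∃ z, (∀ k, k ∉ Q → z k = x k) ∧ res v true q z ≠ 0
      · have i0 := ih' ℓ _ (LD_res hv false hq) x h0
        have i1 := ih' ℓ _ (LD_res hv true hq) x h1
        rw [← hE0] at i0
        rw [← hE1] at i1
        linarith
      · have hz1 : ∀ z, (∀ k, k ∉ Q → z k = x k) → res v true q z = 0 := by
          intro z hz; by_contra hc; exact h1 ⟨z, hz, hc⟩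
        have hDex : ∃ z, (∀ k, k ∉ Q → z k = x k) ∧ D v q z ≠ 0 := by
          obtain ⟨z, hz, hqz⟩ := h0
          refine ⟨z, hz, ?_⟩
          have : D v q z = res v true q z - res v false q z := rfl
          rw [this, hz1 z hz]
          intro hc; apply hqz; linarith
        cases ℓ with
        | zero =>
          exfalso
          obtain ⟨z, _, hDz⟩ := hDex
          exact hDz (hq [v] (by simp) (by simp) z)
        | succ ℓ =>
          have iD := ih' ℓ _ (LD_D hq) x hDex
          have hEq : cE p Q (nz (D v q)) x = E0 := by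
            rw [hE0]
            unfold cE
            congr 1; funext w
            have hmix : ∀ k, k ∉ Q → mix Q w x k = x k := by
              intro k hk; unfold mix; rw [if_neg hk]
            have e := hz1 _ hmix
            unfold nz
            have : D v q (mix Q w x) = res v true q (mix Q w x) - res v false q (mix Q w x) := rfl
            rw [this, e]
            simp
          rw [hEq] at iD
          rw [pow_succ]
          have h2 : (0:ℝ) ≤ 2 ^ ℓ * E1 := mul_nonneg (by positivity) hE1n
          linarith
    · have hz0 : ∀ z, (∀ k, k ∉ Q → z k = x k) → res v false q z = 0 := by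
        intro z hz; by_contra hc; exact h0 ⟨z, hz, hc⟩
      have h1 : ∃ z, (∀ k, k ∉ Q → z k = x k) ∧ res v true q z ≠ 0 := by
        obtain ⟨z, hz, hqz⟩ := hex
        have hzv : z v = true := by
          cases hzv : z v
          · exfalso
            have := hz0 (Function.update z v (x v)) (by
              intro k hk
              by_cases hkv : k = v
              · subst hkv; simp
              · rw [Function.update_of_ne hkv]; exact hz k (by simp [hkv, hk]))
            unfold res at this
            rw [Function.update_idem, ← hzv, Function.update_eq_self] at this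
            exact hqz this
          · rfl
        refine ⟨Function.update z v (x v), ?_, ?_⟩
        · intro k hk
          by_cases hkv : k = v
          · subst hkv; simp
          · rw [Function.update_of_ne hkv]; exact hz k (by simp [hkv, hk])
        · unfold res
          rw [Function.update_idem, ← hzv, Function.update_eq_self]
          exact hqz
      have hDex : ∃ z, (∀ k, k ∉ Q → z k = x k) ∧ D v q z ≠ 0 := by
        obtain ⟨z, hz, hqz⟩ := h1
        refine ⟨z, hz, ?_⟩
        have : D v q z = res v true q z - res v false q z := rfl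
        rw [this, hz0 z hz]
        simpa using hqz
      cases ℓ with
      | zero =>
        exfalso
        obtain ⟨z, _, hDz⟩ := hDex
        exact hDz (hq [v] (by simp) (by simp) z)
      | succ ℓ =>
        have iD := ih' ℓ _ (LD_D hq) x hDex
        have hEq : cE p Q (nz (D v q)) x = E1 := by
          rw [hE1]
          unfold cE
          congr 1; funext w
          have hmix : ∀ k, k ∉ Q → mix Q w x k = x k := by
            intro k hk; unfold mix; rw [if_neg hk]
          have e := hz0 _ hmix
          unfold nz
          have : D v q (mix Q w x) = res v true q (mix Q w x) - res v false q (mix Q w x) := rfl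
          rw [this, e]
          simp
        rw [hEq] at iD
        rw [pow_succ]
        have h2 : (0:ℝ) ≤ 2 ^ ℓ * E0 := mul_nonneg (by positivity) hE0n
        linarith

/-- change of the light biases costs at most `2^ℓ` -/
lemma light_change {p p' : ι → ℝ} (hp : PV p) (hp' : PV p') (L : Finset ι)
    (hL : ∀ k ∈ L, p' k = 1/2) (hoff : ∀ k, k ∉ L → p k = p' k) {ℓ : ℕ}
    {φ : (ι → Bool) → ℝ} (h01 : ∀ x, φ x = 0 ∨ φ x = 1) (hφ : LD L ℓ φ) :
    Ex p φ ≤ 2 ^ ℓ * Ex p' φ := by
  classical
  set A : (ι → Bool) → ℝ := fun x => if (∃ z, (∀ k, k ∉ L → z k = x k) ∧ φ z ≠ 0) then 1 else 0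
    with hA
  have h1 : Ex p φ ≤ Ex p A := by
    apply Ex_mono hp
    intro x
    rw [hA]
    rcases h01 x with h | h
    · rw [h]; dsimp only; split_ifs <;> norm_num
    · rw [h]; dsimp only
      rw [if_pos]
      exact ⟨x, fun _ _ => rfl, by rw [h]; norm_num⟩
  have h2 : Ex p A = Ex p' A := by
    apply Ex_congr_p
    intro k hk
    have hkL : k ∈ L := by
      by_contra hc; exact hk (hoff k hc)
    intro x b
    rw [hA]
    dsimp only
    congr 1
    apply propext
    constructor
    · rintro ⟨z, hz, hφz⟩
      refine ⟨z, fun j hj => ?_, hφz⟩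
      have : j ≠ k := by rintro rfl; exact hj hkL
      rw [hz j hj, Function.update_of_ne this]
    · rintro ⟨z, hz, hφz⟩
      refine ⟨z, fun j hj => ?_, hφz⟩
      have : j ≠ k := by rintro rfl; exact hj hkL
      rw [hz j hj, Function.update_of_ne this]
  have hnz : nz φ = φ := by
    funext x
    unfold nz
    rcases h01 x with h | h <;> rw [h] <;> simp
  have h3 : Ex p' A ≤ Ex p' (fun x => 2 ^ ℓ * cE p' L φ x) := by
    apply Ex_mono hp'
    intro x
    rw [hA]
    dsimp only
    split_ifs with h
    · have := sz hp' L hL ℓ φ hφ x h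
      rwa [hnz] at this
    · apply mul_nonneg (by positivity)
      apply cE_nonneg hp'
      intro y
      rcases h01 y with h | h <;> rw [h]; norm_num
  rw [Ex_smul, Ex_cE] at h3
  linarith

end Pool.Agent.TH531.Fb
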