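import Pool.Agent.TH531.FbBasic

set_option autoImplicit false
set_option linter.unusedSectionVars false

open Finset

namespace Pool.Agent.TH531.Fb

variable {ι : Type*} [Fintype ι] [DecidableEq ι]

/-- degree less than `k` -/
def DegLT : ℕ → ((ι → Bool) → ℝ) → Prop
  | 0, q => ∀ x, q x = 0
  | (k+1), q => ∀ i, DegLT k (D i q)

/-- iterated derivative along a list -/
def Dl : List ι → ((ι → Bool) → ℝ) → ((ι → Bool) → ℝ)
  | [], q => q
  | (a :: l), q => D a (Dl l q)

lemma D_zero (k : ι) {q : (ι → Bool) → ℝ} (h : ∀ x, q x = 0) : ∀ x, D k q x = 0 := by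
  intro x; unfold D; rw [h, h]; ring

lemma D_of_ind {k : ι} {q : (ι → Bool) → ℝ} (h : Ind k q) : ∀ x, D k q x = 0 := by
  intro x; unfold D; rw [h, h]; ring

lemma ind_of_D {k : ι} {q : (ι → Bool) → ℝ} (h : ∀ x, D k q x = 0) : Ind k q := by
  intro x b
  have hx := h x
  unfold D at hx
  have hx' : q (Function.update x k true) = q (Function.update x k false) := by linarith
  have hs : Function.update x k (x k) = x := Function.update_eq_self k x
  cases b <;> cases hxk : x k <;> rw [hxk] at hs
  · rw [hs]
  · rw [← hx', hs]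
  · rw [hx', hs]
  · rw [hs]

lemma D_comm (i j : ι) (q : (ι → Bool) → ℝ) : D i (D j q) = D j (D i q) := by
  funext x
  unfold D
  by_cases h : i = j
  · subst h; rfl
  · rw [Function.update_comm h, Function.update_comm h, Function.update_comm h,
      Function.update_comm h]
    ring

lemma ind_D_of_ind {k : ι} (j : ι) {q : (ι → Bool) → ℝ} (h : Ind k q) : Ind k (D j q) := by
  apply ind_of_D
  intro x
  rw [D_comm]
  exact D_zero j (D_of_ind h) x

lemma ind_res_of_ind {k : ι} (j : ι) (b : Bool) {q : (ι → Bool) → ℝ} (h : Ind k q) :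
    Ind k (res j b q) := by
  intro x b'
  unfold res
  by_cases hkj : k = j
  · subst hkj; simp
  · rw [Function.update_comm hkj, h]

lemma res_D_ne {i v : ι} (h : i ≠ v) (b : Bool) (q : (ι → Bool) → ℝ) :
    D i (res v b q) = res v b (D i q) := by
  funext x
  unfold D res
  rw [Function.update_comm h, Function.update_comm h]

lemma DegLT_of_zero (k : ℕ) {q : (ι → Bool) → ℝ} (h : ∀ x, q x = 0) : DegLT k q := by
  induction k generalizing q with
  | zero => exact h
  | succ k ih =>
    intro i
    exact ih (D_zero i h)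

lemma DegLT_succ {k : ℕ} {q : (ι → Bool) → ℝ} (h : DegLT k q) : DegLT (k+1) q := by
  induction k generalizing q with
  | zero =>
    intro i
    exact D_zero i h
  | succ k ih =>
    intro i
    exact ih (h i)

lemma DegLT_le {k k' : ℕ} (hk : k ≤ k') {q : (ι → Bool) → ℝ} (h : DegLT k q) :
    DegLT k' q := by
  induction hk with
  | refl => exact h
  | step _ ih => exact DegLT_succ ih

lemma DegLT_res {k : ℕ} (v : ι) (b : Bool) {q : (ι → Bool) → ℝ} (h : DegLT k q) :
    DegLT k (res v b q) := by
  induction k generalizing q with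
  | zero => intro x; exact h _
  | succ k ih =>
    intro i
    by_cases hi : i = v
    · subst hi
      exact DegLT_of_zero k (D_of_ind (ind_res i b q))
    · rw [res_D_ne hi]
      exact ih (h i)

lemma D_add (i : ι) (q r : (ι → Bool) → ℝ) :
    D i (fun x => q x + r x) = fun x => D i q x + D i r x := by
  funext x; unfold D; ring

lemma D_smul (i : ι) (c : ℝ) (q : (ι → Bool) → ℝ) :
    D i (fun x => c * q x) = fun x => c * D i q x := by
  funext x; unfold D; ring

lemma DegLT_add {k : ℕ} {q r : (ι → Bool) → ℝ} (hq : DegLT k q) (hr : DegLT k r) :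
    DegLT k (fun x => q x + r x) := by
  induction k generalizing q r with
  | zero => intro x; simp [hq x, hr x]
  | succ k ih =>
    intro i
    rw [D_add]
    exact ih (hq i) (hr i)

lemma DegLT_smul {k : ℕ} (c : ℝ) {q : (ι → Bool) → ℝ} (hq : DegLT k q) :
    DegLT k (fun x => c * q x) := by
  induction k generalizing q with
  | zero => intro x; simp [hq x]
  | succ k ih =>
    intro i
    rw [D_smul]
    exact ih (hq i)

lemma DegLT_sum {κ : Type*} {k : ℕ} (s : Finset κ) (q : κ → (ι → Bool) → ℝ)
    (h : ∀ a ∈ s, DegLT k (q a)) : DegLT k (fun x => ∑ a ∈ s, q a x) := by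
  classical
  induction s using Finset.induction_on with
  | empty => simpa using DegLT_of_zero k (q := fun _ => (0:ℝ)) (fun _ => rfl)
  | insert a s ha ih =>
    simp_rw [Finset.sum_insert ha]
    exact DegLT_add (h a (Finset.mem_insert_self a s))
      (ih (fun b hb => h b (Finset.mem_insert_of_mem hb)))

lemma Dl_append (l₁ l₂ : List ι) (q : (ι → Bool) → ℝ) :
    Dl (l₁ ++ l₂) q = Dl l₁ (Dl l₂ q) := by
  induction l₁ with
  | nil => rfl
  | cons a l ih => simp only [List.cons_append, Dl, ih]

lemma DegLT_Dl {k : ℕ} (l : List ι) {q : (ι → Bool) → ℝ} (h : DegLT (k + l.length) q) :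
    DegLT k (Dl l q) := by
  induction l generalizing k with
  | nil => exact h
  | cons a l ih =>
    have h' : DegLT ((k+1) + l.length) q := by
      have e : k + (a :: l).length = (k+1) + l.length := by simp; ring
      rwa [e] at h
    exact ih h' a

lemma Dl_eq_zero {k : ℕ} (l : List ι) {q : (ι → Bool) → ℝ} (h : DegLT k q)
    (hl : k ≤ l.length) : ∀ x, Dl l q x = 0 := by
  have : DegLT (0 + l.length) q := DegLT_le (by omega) h
  exact DegLT_Dl (k := 0) l this

lemma ind_Dl_of_ind {k : ι} (l : List ι) {q : (ι → Bool) → ℝ} (h : Ind k q) :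
    Ind k (Dl l q) := by
  induction l with
  | nil => exact h
  | cons a l ih => exact ind_D_of_ind a ih

lemma ind_Dl_of_mem {k : ι} {l : List ι} (hk : k ∈ l) (q : (ι → Bool) → ℝ) :
    Ind k (Dl l q) := by
  induction l with
  | nil => simp at hk
  | cons a l ih =>
    rcases List.mem_cons.mp hk with h | h
    · subst h; exact ind_D k _
    · exact ind_D_of_ind a (ih h)

lemma Dl_of_ind_mem {k : ι} {l : List ι} (hk : k ∈ l) {q : (ι → Bool) → ℝ} (h : Ind k q) :
    ∀ x, Dl l q x = 0 := by
  induction l with
  | nil => simp at hk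
  | cons a l ih =>
    rcases List.mem_cons.mp hk with h' | h'
    · subst h'; exact D_of_ind (ind_Dl_of_ind l h)
    · exact D_zero a (ih h')

lemma nodup_of_Dl {l : List ι} {q : (ι → Bool) → ℝ} {x : ι → Bool} (h : Dl l q x ≠ 0) :
    l.Nodup := by
  induction l generalizing x with
  | nil => exact List.nodup_nil
  | cons a l ih =>
    have h1 : a ∉ l := by
      intro ha
      exact h (D_of_ind (ind_Dl_of_mem ha q) x)
    refine List.nodup_cons.mpr ⟨h1, ?_⟩
    by_contra hnd
    have hz : ∀ y, Dl l q y = 0 := by
      intro y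
      by_contra hy
      exact hnd (ih hy)
    exact h (D_zero a hz x)

lemma Dl_exists {l : List ι} {q : (ι → Bool) → ℝ} {x : ι → Bool} (h : Dl l q x ≠ 0) :
    ∃ z, (∀ k, k ∉ l → z k = x k) ∧ q z ≠ 0 := by
  induction l generalizing x with
  | nil => exact ⟨x, fun _ _ => rfl, h⟩
  | cons a l ih =>
    have : Dl l q (Function.update x a true) ≠ 0 ∨ Dl l q (Function.update x a false) ≠ 0 := by
      by_contra hc
      push Not at hc
      apply h
      show Dl l q (Function.update x a true) - Dl l q (Function.update x a false) = 0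
      rw [hc.1, hc.2]; ring
    rcases this with h' | h'
    · obtain ⟨z, hz, hqz⟩ := ih h'
      refine ⟨z, fun k hk => ?_, hqz⟩
      rw [List.mem_cons, not_or] at hk
      rw [hz k hk.2, Function.update_of_ne hk.1]
    · obtain ⟨z, hz, hqz⟩ := ih h'
      refine ⟨z, fun k hk => ?_, hqz⟩
      rw [List.mem_cons, not_or] at hk
      rw [hz k hk.2, Function.update_of_ne hk.1]

lemma face_ne {l : List ι} {q : (ι → Bool) → ℝ} {x : ι → Bool} (hnd : l.Nodup)
    (h : ∀ z, (∀ k, k ∉ l → z k = x k) → z ≠ x → q z = 0) (hx : q x ≠ 0) :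
    Dl l q x ≠ 0 := by
  induction l with
  | nil => exact hx
  | cons a l ih =>
    rw [List.nodup_cons] at hnd
    have h1 : Dl l q x ≠ 0 := by
      apply ih hnd.2
      intro z hz hzx
      apply h z _ hzx
      intro k hk
      rw [List.mem_cons, not_or] at hk
      exact hz k hk.2
    have h2 : Dl l q (fl a x) = 0 := by
      by_contra hc
      obtain ⟨z, hz, hqz⟩ := Dl_exists hc
      apply hqz
      apply h z
      · intro k hk
        rw [List.mem_cons, not_or] at hk
        rw [hz k hk.2]
        unfold fl
        rw [Function.update_of_ne hk.1]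
      · intro hzx
        have := hz a hnd.1
        rw [hzx] at this
        unfold fl at this
        simp at this
    show Dl l q (Function.update x a true) - Dl l q (Function.update x a false) ≠ 0
    unfold fl at h2
    have hs : Function.update x a (x a) = x := Function.update_eq_self a x
    cases hxa : x a <;> rw [hxa] at hs h2
    · rw [hs]
      simp only [Bool.not_false] at h2
      rw [h2]
      intro hc
      apply h1
      linarith
    · rw [hs]
      simp only [Bool.not_true] at h2
      rw [h2]
      intro hc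
      apply h1
      linarith

/-- characters -/
def chi (S : Finset ι) (x : ι → Bool) : ℝ := ∏ i ∈ S, (if x i then (-1 : ℝ) else 1)

lemma D_chi_mem {S : Finset ι} {i : ι} (hi : i ∈ S) :
    D i (chi S) = fun x => (-2) * chi (S.erase i) x := by
  funext x
  unfold D chi
  rw [← Finset.mul_prod_erase S _ hi, ← Finset.mul_prod_erase S _ hi]
  have h1 : ∀ b : Bool, ∏ j ∈ S.erase i, (if (Function.update x i b) j = true then (-1 : ℝ) else 1)
      = ∏ j ∈ S.erase i, (if x j = true then (-1 : ℝ) else 1) := by
    intro b
    apply Finset.prod_congr rfl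
    intro j hj
    rw [Function.update_of_ne (Finset.ne_of_mem_erase hj)]
  rw [h1, h1]
  simp
  ring

lemma ind_chi {S : Finset ι} {i : ι} (hi : i ∉ S) : Ind i (chi S) := by
  intro x b
  unfold chi
  apply Finset.prod_congr rfl
  intro j hj
  have : j ≠ i := by rintro rfl; exact hi hj
  rw [Function.update_of_ne this]

lemma DegLT_chi (S : Finset ι) : DegLT (S.card + 1) (chi S) := by
  induction hc : S.card generalizing S with
  | zero =>
    intro i
    have : i ∉ S := by
      rw [Finset.card_eq_zero] at hc; simp [hc]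
    exact D_of_ind (ind_chi this)
  | succ c ih =>
    intro i
    by_cases hi : i ∈ S
    · rw [D_chi_mem hi]
      apply DegLT_smul
      have hce : (S.erase i).card = c := by
        rw [Finset.card_erase_of_mem hi, hc]; rfl
      exact ih _ hce
    · exact DegLT_of_zero _ (D_of_ind (ind_chi hi))

lemma chi_sum (x y : ι → Bool) :
    ∑ S : Finset ι, chi S x * chi S y = if x = y then (2:ℝ) ^ (Fintype.card ι) else 0 := by
  have h1 : ∀ S : Finset ι, chi S x * chi S y
      = ∏ i ∈ S, ((if x i then (-1 : ℝ) else 1) * (if y i then (-1 : ℝ) else 1)) := by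
    intro S
    unfold chi
    rw [Finset.prod_mul_distrib]
  simp_rw [h1]
  rw [← Finset.powerset_univ, ← Finset.prod_one_add]
  split_ifs with hxy
  · subst hxy
    have : ∀ i ∈ (univ : Finset ι), (1 + (if x i = true then (-1:ℝ) else 1)
        * (if x i = true then (-1:ℝ) else 1)) = 2 := by
      intro i _
      split_ifs <;> norm_num
    rw [Finset.prod_congr rfl this, Finset.prod_const, Finset.card_univ]
  · obtain ⟨i, hi⟩ := Function.ne_iff.mp hxy
    apply Finset.prod_eq_zero (Finset.mem_univ i)
    cases hx : x i <;> cases hy : y i <;> simp_all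

lemma fourier_inv (F : (ι → Bool) → ℝ) (x : ι → Bool) :
    F x = (1 / 2 ^ (Fintype.card ι)) * ∑ S : Finset ι, (∑ y, F y * chi S y) * chi S x := by
  have h1 : ∑ S : Finset ι, (∑ y, F y * chi S y) * chi S x
      = ∑ y, F y * ∑ S : Finset ι, chi S x * chi S y := by
    simp_rw [Finset.sum_mul, Finset.mul_sum]
    rw [Finset.sum_comm]
    apply Finset.sum_congr rfl
    intro y _
    apply Finset.sum_congr rfl
    intro S _
    ring
  rw [h1]
  simp_rw [chi_sum]
  simp only [mul_ite, mul_zero]
  rw [Finset.sum_ite_eq]
  simp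
  field_simp

lemma DegLT_of_fourier {d : ℕ} {F : (ι → Bool) → ℝ}
    (h : ∀ S : Finset ι, (∑ y, F y * chi S y) ≠ 0 → S.card ≤ d) : DegLT (d+1) F := by
  have h1 : F = fun x => (1 / 2 ^ (Fintype.card ι)) *
      ∑ S : Finset ι, (∑ y, F y * chi S y) * chi S x := by
    funext x; exact fourier_inv F x
  rw [h1]
  apply DegLT_smul
  apply DegLT_sum
  intro S _
  by_cases hS : (∑ y, F y * chi S y) = 0
  · apply DegLT_of_zero
    intro x
    rw [hS]; ring
  · apply DegLT_smul
    exact DegLT_le (by have := h S hS; omega) (DegLT_chi S)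

end Pool.Agent.TH531.Fb
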