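import Pool.Agent.TH531.FbMain

set_option autoImplicit false
set_option linter.unusedSectionVars false
set_option linter.unnecessarySeqFocus false

open Finset

namespace Pool.Agent.TH531.Fb

variable {ι : Type*} [Fintype ι] [DecidableEq ι]

section

variable {F : (ι → Bool) → ℝ} {δ : ℝ} {N1 N2 m : ℕ}

/-- dyadic bookkeeping -/
noncomputable def bb (j : ℕ) : ℝ := (2 * j + 6) / 2 ^ j

lemma bb_step (j : ℕ) : bb j = bb (j+1) + (j + 2) / 2 ^ j := by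
  unfold bb
  rw [pow_succ]
  push_cast
  field_simp
  ring

lemma bb_nonneg (j : ℕ) : 0 ≤ bb j := by unfold bb; positivity

lemma exp_ge (m : ℕ) : ((3:ℝ)/4) ^ m ≤ Real.exp (-((m:ℝ)/4)) := by
  have h1 : (3:ℝ)/4 ≤ Real.exp (-(1/4)) := by
    have := Real.add_one_le_exp (-(1/4 : ℝ)); linarith
  have h2 := pow_le_pow_left₀ (by norm_num) h1 m
  rw [← Real.exp_nat_mul] at h2
  have e : (m:ℝ) * -(1/4) = -((m:ℝ)/4) := by ring
  rwa [e] at h2

/-- the heavy sets along the dyadic scales -/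
lemma scales (h : Par F δ N1 N2 m) {c : ℕ}
    (hc : ∀ (j lam : ℕ) (s : ℝ), 0 ≤ s → s ≤ 6 * lam * 2 ^ j →
      ((9:ℝ)/8) ^ lam ≤ 54 * (s + 1) ^ 3 * 2 ^ j → lam ≤ c * (j + 1))
    (hc2a : (8 * m ^ 2) ^ (16 * c) ≤ 2 ^ m)
    (hc2b : 4 * (8:ℝ) ^ c * (m:ℝ) ^ (2 * c + 4) ≤ (3/2) ^ m)
    {J : ℕ} (hJ1 : m ^ 2 ≤ 2 ^ J) (hJ2 : 2 ^ J ≤ 4 * m ^ 2) :
    ∀ t : ℕ, t ≤ J → ∃ H : Finset ι,
      (∀ k, k ∉ H → Th δ N1 N2 F H k < (δ/2) * 2 ^ (J - t) * (1/2) ^ m) ∧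
      (H.card : ℝ) ≤ (48 + 3840 * (c + 1) * (bb (J - t) - bb J)) * (2 ^ m / Real.sqrt m) := by
  have hmr := h.mr
  have hsq := h.sq
  have hss := h.ss
  have hδ := h.δpos
  have hδ8 : δ ≤ 1/8 := by have := h.δ16; linarith
  have hδe := h.hδ
  have h2m : ((1:ℝ)/2) ^ m * 2 ^ m = 1 := by rw [← mul_pow]; norm_num
  have hM0 : 0 < (2:ℝ) ^ m / Real.sqrt m := by positivity
  intro t
  induction t with
  | zero =>
    intro _
    obtain ⟨H, _, h2, h3⟩ := closure hδ hδ8 (N1 := N1) (N2 := N2) h.hF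
      (θ := (δ/2) * 2 ^ J * (1/2) ^ m) _ (∅ : Finset ι) rfl
    refine ⟨H, by simpa using h2, ?_⟩
    rw [Nat.sub_zero, sub_self, mul_zero, add_zero]
    have h4 := Phi_le hδ hδ8 h.N1pos h.hN2 h.hF (∅ : Finset ι) (N1 := N1) (N2 := N2)
    have h5 := Phi_nonneg hδ h.N1pos F H (N2 := N2)
    rw [Finset.card_empty, Nat.cast_zero, sub_zero] at h3
    have h6 : (H.card : ℝ) * ((δ/2) * 2 ^ J * (1/2) ^ m) ≤ 3 := by linarith
    have hJr : (m:ℝ) ^ 2 ≤ 2 ^ J := by exact_mod_cast hJ1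
    have hcard0 : (0:ℝ) ≤ H.card := Nat.cast_nonneg _
    have h7 : (H.card : ℝ) * ((δ/2) * (m:ℝ) ^ 2 * (1/2) ^ m) ≤ 3 := by
      refine le_trans ?_ h6
      apply mul_le_mul_of_nonneg_left _ hcard0
      apply mul_le_mul_of_nonneg_right _ (by positivity)
      apply mul_le_mul_of_nonneg_left hJr (by linarith)
    rw [mul_div_assoc', le_div_iff₀ (by linarith)]
    -- card * sqrt m ≤ 48 * 2^m
    have h8 : δ * (8 * Real.sqrt m) = 1 := by rw [hδe]; field_simp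
    have h9 : (H.card : ℝ) * ((m:ℝ) ^ 2 * (1/2) ^ m) ≤ 48 * Real.sqrt m := by
      have e : (H.card : ℝ) * ((m:ℝ) ^ 2 * (1/2) ^ m)
          = (H.card : ℝ) * ((δ/2) * (m:ℝ) ^ 2 * (1/2) ^ m) * (16 * Real.sqrt m) := by
        linear_combination (-(H.card : ℝ) * ((m:ℝ) ^ 2 * (1/2) ^ m)) * h8
      rw [e]
      have := mul_le_mul_of_nonneg_right h7 (show 0 ≤ 16 * Real.sqrt m by positivity)
      linarith
    have h10 : (H.card : ℝ) * (m:ℝ) ^ 2 ≤ 48 * Real.sqrt m * 2 ^ m := by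
      have := mul_le_mul_of_nonneg_right h9 (show (0:ℝ) ≤ 2 ^ m by positivity)
      have e : (H.card : ℝ) * ((m:ℝ) ^ 2 * (1/2) ^ m) * 2 ^ m = (H.card : ℝ) * (m:ℝ) ^ 2 := by
        linear_combination (H.card : ℝ) * (m:ℝ) ^ 2 * h2m
      linarith
    -- multiply: card * sqrt m * m = card * m^2 / sqrt m ≤ 48 * 2^m
    have h11 : ((H.card : ℝ) * Real.sqrt m) * (m * Real.sqrt m) ≤ (48 * 2 ^ m) * Real.sqrt m := by
      have e : ((H.card : ℝ) * Real.sqrt m) * (m * Real.sqrt m) = (H.card : ℝ) * (m:ℝ) ^ 2 := by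
        linear_combination (H.card : ℝ) * m * hss
      rw [e]; linarith
    have h12 : ((H.card : ℝ) * Real.sqrt m) * m ≤ 48 * 2 ^ m := by
      have : ((H.card : ℝ) * Real.sqrt m) * (m * Real.sqrt m)
          = ((H.card : ℝ) * Real.sqrt m) * m * Real.sqrt m := by ring
      rw [this] at h11
      exact le_of_mul_le_mul_right h11 (by linarith)
    have h13 : 0 ≤ (H.card : ℝ) * Real.sqrt m := by positivity
    nlinarith
  | succ t ih =>
    intro ht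
    obtain ⟨H, hcl, hcard⟩ := ih (by omega)
    obtain ⟨j, hj⟩ : ∃ j, J - (t+1) = j := ⟨_, rfl⟩
    have hj1 : J - t = j + 1 := by omega
    have hjJ : j + 1 ≤ J := by omega
    rw [hj1] at hcl hcard
    rw [hj]
    -- faces
    set ℓ := c * ((j+1) + 1) with hℓdef
    have hq := h.face_small hc hcl
    have hpt := h.pointwise hcl
    have h8m : 2 ^ (J+1) ≤ 8 * m ^ 2 := by rw [pow_succ]; omega
    have hℓ16 : 16 * ℓ ≤ m := by
      have h1 : 2 ^ (16 * ℓ) ≤ 2 ^ m := by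
        refine le_trans ?_ hc2a
        calc 2 ^ (16 * ℓ) ≤ 2 ^ ((J+1) * (16 * c)) := by
              apply Nat.pow_le_pow_right (by norm_num)
              rw [hℓdef]
              have : (j + 1) + 1 ≤ J + 1 := by omega
              calc 16 * (c * ((j+1) + 1)) = 16 * c * ((j+1)+1) := by ring
                _ ≤ 16 * c * (J+1) := Nat.mul_le_mul_left _ this
                _ = (J+1) * (16 * c) := by ring
          _ = (2 ^ (J+1)) ^ (16 * c) := by rw [pow_mul]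
          _ ≤ (8 * m ^ 2) ^ (16 * c) := Nat.pow_le_pow_left h8m _
      exact (Nat.pow_le_pow_iff_right (by norm_num)).mp h1
    have hℓm : 2 * (ℓ:ℝ) ≤ m/8 := by
      have : (16:ℝ) * ℓ ≤ m := by exact_mod_cast hℓ16
      linarith
    have hη : (2:ℝ) ^ ℓ * (N1 * 2 ^ (j+1) * (1/2) ^ m) ≤ Real.exp (-((m:ℝ)/4)) := by
      refine le_trans ?_ (exp_ge m)
      have e34 : ((3:ℝ)/4) ^ m = (3/2) ^ m * (1/2) ^ m := by rw [← mul_pow]; norm_num
      rw [e34, ← mul_assoc]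
      apply mul_le_mul_of_nonneg_right _ (by positivity)
      refine le_trans ?_ hc2b
      have a1 : (2:ℝ) ^ ℓ ≤ (8 * (m:ℝ) ^ 2) ^ c := by
        calc (2:ℝ) ^ ℓ ≤ 2 ^ ((J+1) * c) := by
              apply pow_le_pow_right₀ (by norm_num)
              rw [hℓdef, mul_comm]
              exact Nat.mul_le_mul_right _ (by omega)
          _ = (2 ^ (J+1)) ^ c := by rw [pow_mul]
          _ ≤ (8 * (m:ℝ) ^ 2) ^ c := by
              apply pow_le_pow_left₀ (by positivity)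
              exact_mod_cast h8m
      have a2 : (2:ℝ) ^ (j+1) ≤ 4 * (m:ℝ) ^ 2 := by
        calc (2:ℝ) ^ (j+1) ≤ 2 ^ J := pow_le_pow_right₀ (by norm_num) hjJ
          _ ≤ 4 * (m:ℝ) ^ 2 := by exact_mod_cast hJ2
      rw [h.hN1]
      push_cast
      calc (2:ℝ) ^ ℓ * ((m:ℝ) ^ 2 * 2 ^ (j+1)) ≤ (8 * (m:ℝ) ^ 2) ^ c * ((m:ℝ) ^ 2 * (4 * (m:ℝ) ^ 2)) := by
            apply mul_le_mul a1 _ (by positivity) (by positivity)
            exact mul_le_mul_of_nonneg_left a2 (by positivity)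
        _ = 4 * (8:ℝ) ^ c * (m:ℝ) ^ (2 * c + 4) := by
            rw [mul_pow, ← pow_mul]; ring
    have hPhi := stage hδ hδ8 h.N1pos h.hN2 h.hN (by have := h.hm; omega) h.hF h.hqm H hq hℓm hη
      hpt (N2 := N2)
    obtain ⟨H', hsub, h2, h3⟩ := closure hδ hδ8 (N1 := N1) (N2 := N2) h.hF
      (θ := (δ/2) * 2 ^ j * (1/2) ^ m) _ H rfl
    refine ⟨H', h2, ?_⟩
    have h5 := Phi_nonneg hδ h.N1pos F H' (N2 := N2)
    have h6 : ((H'.card : ℝ) - H.card) * ((δ/2) * 2 ^ j * (1/2) ^ m) ≤ 240 * (ℓ + 1) / m := by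
      linarith
    have hℓle : (ℓ:ℝ) + 1 ≤ (c + 1) * (j + 2) := by
      rw [hℓdef]; push_cast
      have : (0:ℝ) ≤ j := Nat.cast_nonneg j
      nlinarith
    have h7 : ((H'.card : ℝ) - H.card) ≤ 3840 * (c + 1) * ((j + 2) / 2 ^ j) * (2 ^ m / Real.sqrt m) := by
      have hsm : 0 < Real.sqrt m := by linarith
      have h2j : (0:ℝ) < 2 ^ j := by positivity
      have h2mp : (0:ℝ) < 2 ^ m := by positivity
      have e0 : (δ/2) * 2 ^ j * (1/2) ^ m = 2 ^ j / (16 * Real.sqrt m * 2 ^ m) := by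
        rw [eq_div_iff (by positivity), hδe]
        have h8 : (1 / (8 * Real.sqrt m)) * (8 * Real.sqrt m) = 1 := by field_simp
        have : 1 / (8 * Real.sqrt m) / 2 * 2 ^ j * (1/2) ^ m * (16 * Real.sqrt m * 2 ^ m)
            = (1 / (8 * Real.sqrt m)) * (8 * Real.sqrt m) * ((1/2) ^ m * 2 ^ m) * 2 ^ j := by ring
        rw [this, h8, h2m]; ring
      rw [e0] at h6
      have h9 : 240 * ((ℓ:ℝ) + 1) / m ≤ 240 * ((c + 1) * (j + 2)) / m := by
        apply div_le_div_of_nonneg_right _ (by linarith)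
        linarith
      have h10 : ((H'.card : ℝ) - H.card) * (2 ^ j / (16 * Real.sqrt m * 2 ^ m))
          ≤ (3840 * (c + 1) * ((j + 2) / 2 ^ j) * (2 ^ m / Real.sqrt m))
            * (2 ^ j / (16 * Real.sqrt m * 2 ^ m)) := by
        have e1 : (3840 * ((c:ℝ) + 1) * ((j + 2) / 2 ^ j) * (2 ^ m / Real.sqrt m))
            * (2 ^ j / (16 * Real.sqrt m * 2 ^ m))
            = 240 * ((c + 1) * (j + 2)) / (Real.sqrt m * Real.sqrt m) := by
          field_simp; ring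
        rw [e1, hss]; linarith
      exact le_of_mul_le_mul_right h10 (by positivity)
    rw [bb_step j]
    have e2 : (48 + 3840 * ((c:ℝ) + 1) * (bb (j+1) + (j + 2) / 2 ^ j - bb J)) * (2 ^ m / Real.sqrt m)
        = (48 + 3840 * (c + 1) * (bb (j+1) - bb J)) * (2 ^ m / Real.sqrt m)
          + 3840 * (c + 1) * ((j + 2) / 2 ^ j) * (2 ^ m / Real.sqrt m) := by ring
    rw [e2]
    linarith

end

/-- main theorem -/
theorem main : ∃ (C : ℝ) (m0 : ℕ), 0 ≤ C ∧ 4 ≤ m0 ∧ ∀ (n : ℕ) (F : (Fin n → Bool) → ℝ), MB F →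
    ∀ m : ℕ, m0 ≤ m → DegLT (m+2) F →
    ∀ R : Finset (Fin n), (∀ i ∈ R, ∃ x, D i F x ≠ 0) →
      (R.card : ℝ) * Real.sqrt m ≤ C * 2 ^ m := by
  obtain ⟨c, hc⟩ := num1
  obtain ⟨m0, hm04, hm0⟩ := num2 c
  refine ⟨48 + 3840 * (c + 1) * 6, m0, by positivity, hm04, ?_⟩
  intro n F hF m hm hdeg R hR
  obtain ⟨hc2a, hc2b⟩ := hm0 m hm
  have hpar : Par F (1 / (8 * Real.sqrt m)) (m ^ 2) (2 * n ^ 2 * 2 ^ m + n + 1) m := by
    refine ⟨hF, hdeg, by omega, rfl, rfl, by omega, ?_, ?_⟩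
    · rw [Fintype.card_fin]; omega
    · rw [Fintype.card_fin]; push_cast
      have : (0:ℝ) ≤ n := Nat.cast_nonneg n
      linarith
  obtain ⟨J, hJ⟩ : ∃ J, J = 2 * (Nat.log 2 m + 1) := ⟨_, rfl⟩
  have hm0' : m ≠ 0 := by omega
  have hJ1 : m ^ 2 ≤ 2 ^ J := by
    have h1 : m ≤ 2 ^ (Nat.log 2 m + 1) := (Nat.lt_pow_succ_log_self (by norm_num) m).le
    rw [hJ, mul_comm, pow_mul]
    exact Nat.pow_le_pow_left h1 2
  have hJ2 : 2 ^ J ≤ 4 * m ^ 2 := by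
    have h1 : 2 ^ (Nat.log 2 m) ≤ m := Nat.pow_log_le_self 2 hm0'
    have h2 : 2 ^ (Nat.log 2 m + 1) ≤ 2 * m := by rw [pow_succ]; omega
    rw [hJ, mul_comm, pow_mul]
    calc (2 ^ (Nat.log 2 m + 1)) ^ 2 ≤ (2 * m) ^ 2 := Nat.pow_le_pow_left h2 2
      _ = 4 * m ^ 2 := by ring
  obtain ⟨H, hcl, hcard⟩ := scales hpar hc hc2a hc2b hJ1 hJ2 J (le_refl J)
  rw [Nat.sub_self] at hcl hcard
  have hRH : R ⊆ H := fun i hi => hpar.relevant hcl (hR i hi)
  have h1 : (R.card : ℝ) ≤ H.card := by exact_mod_cast Finset.card_le_card hRH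
  have hb0 : bb 0 = 6 := by unfold bb; norm_num
  have hbJ := bb_nonneg J
  have hsq := hpar.sq
  have hsm : 0 < Real.sqrt m := by linarith
  have h2 : (R.card : ℝ) ≤ (48 + 3840 * (c + 1) * 6) * (2 ^ m / Real.sqrt m) := by
    refine le_trans (le_trans h1 hcard) ?_
    apply mul_le_mul_of_nonneg_right _ (by positivity)
    rw [hb0]
    have : 0 ≤ 3840 * ((c:ℝ) + 1) * bb J := by positivity
    linarith
  rw [mul_div_assoc', le_div_iff₀ hsm] at h2
  exact h2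

end Pool.Agent.TH531.Fb
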