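import Pool.Agent.TH531.FbBasic

set_option autoImplicit false
set_option linter.unusedSectionVars false

open Finset

namespace Pool.Agent.TH531.Fb

variable {ι : Type*} [Fintype ι] [DecidableEq ι]

lemma two_point_aux {p a0 a1 : ℝ} (hp : 3/8 ≤ p) (hp1 : p ≤ 5/8) (h0 : 0 ≤ a0)
    (h01 : a0 ≤ a1) :
    Real.negMulLog ((1 - p) * a0 + p * a1) ≤ (1 - p) * Real.negMulLog a0
      + p * Real.negMulLog a1 + p * (a1 - a0) := by
  rcases eq_or_lt_of_le (le_trans h0 h01) with h1 | h1
  · have ha1 : a1 = 0 := h1.symm
    have ha0 : a0 = 0 := le_antisymm (by linarith) h0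
    rw [ha1, ha0]; simp
  · have ha : 0 < (1 - p) * a0 + p * a1 := by
      have : 0 ≤ (1 - p) * a0 := mul_nonneg (by linarith) h0
      have : 0 < p * a1 := mul_pos (by linarith) h1
      linarith
    set a := (1 - p) * a0 + p * a1 with hadef
    have hlog : Real.log a1 ≤ 1 + Real.log a := by
      have h2 : a1 ≤ Real.exp 1 * a := by
        have he : (2.7182818283 : ℝ) < Real.exp 1 := Real.exp_one_gt_d9
        have h3 : (3/8) * a1 ≤ a := by
          rw [hadef]
          have : 0 ≤ (1 - p) * a0 := mul_nonneg (by linarith) h0
          nlinarith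
        nlinarith
      have h4 := Real.log_le_log h1 h2
      rw [Real.log_mul (Real.exp_pos 1).ne' ha.ne', Real.log_exp] at h4
      exact h4
    unfold Real.negMulLog
    have key : (1 - p) * a0 * (Real.log a0 - Real.log a) + p * a0 * (Real.log a1 - Real.log a)
        ≤ 0 := by
      rcases eq_or_lt_of_le h0 with h0' | h0'
      · rw [← h0']; simp
      · have hc := strictConcaveOn_log_Ioi.concaveOn.2
          (Set.mem_Ioi.mpr h0') (Set.mem_Ioi.mpr h1)
          (by linarith : 0 ≤ 1 - p) (by linarith : 0 ≤ p) (by ring)
        simp only [smul_eq_mul] at hc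
        rw [← hadef] at hc
        have : (1 - p) * a0 * (Real.log a0 - Real.log a) + p * a0 * (Real.log a1 - Real.log a)
          = a0 * ((1 - p) * Real.log a0 + p * Real.log a1 - Real.log a) := by ring
        rw [this]
        exact mul_nonpos_of_nonneg_of_nonpos h0 (by linarith)
    have key2 : p * (a1 - a0) * (Real.log a1 - Real.log a) ≤ p * (a1 - a0) := by
      have : 0 ≤ p * (a1 - a0) := mul_nonneg (by linarith) (by linarith)
      nlinarith
    have e : -a * Real.log a = -(((1 - p) * a0 + p * a1) * Real.log a) := by
      rw [← hadef]; ring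
    rw [e]
    nlinarith

lemma two_point {p a0 a1 : ℝ} (hp : 3/8 ≤ p) (hp1 : p ≤ 5/8) (h0 : 0 ≤ a0) (h1 : 0 ≤ a1) :
    Real.negMulLog ((1 - p) * a0 + p * a1) ≤ (1 - p) * Real.negMulLog a0
      + p * Real.negMulLog a1 + (1 - p) * max (a0 - a1) 0 + p * max (a1 - a0) 0 := by
  rcases le_total a0 a1 with h | h
  · have := two_point_aux hp hp1 h0 h
    rw [max_eq_right (by linarith : a0 - a1 ≤ 0), max_eq_left (by linarith : 0 ≤ a1 - a0)]
    linarith
  · have := two_point_aux (p := 1 - p) (by linarith) (by linarith) h1 h
    rw [max_eq_left (by linarith : 0 ≤ a0 - a1), max_eq_right (by linarith : a1 - a0 ≤ 0)]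
    have e : (1 - (1 - p)) * a1 + (1 - p) * a0 = (1 - p) * a0 + p * a1 := by ring
    rw [e] at this
    linarith

lemma pv_of_mid {p : ι → ℝ} (hp : ∀ k, 3/8 ≤ p k ∧ p k ≤ 5/8) : PV p :=
  fun k => ⟨by linarith [(hp k).1], by linarith [(hp k).2]⟩

/-- edge-isoperimetry -/
theorem iso_aux {p : ι → ℝ} (hp : ∀ k, 3/8 ≤ p k ∧ p k ≤ 5/8) (V : Finset ι) :
    ∀ φ : (ι → Bool) → ℝ, (∀ x, φ x = 0 ∨ φ x = 1) → (∀ i, i ∉ V → Ind i φ) →
    Real.negMulLog (Ex p φ) ≤ ∑ k ∈ V, Ex p (fun x => φ x * (1 - φ (fl k x))) := by
  have hPV := pv_of_mid hp
  induction V using Finset.induction_on with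
  | empty =>
    intro φ h01 hind
    have hconst : ∀ x y, φ y = φ x := by
      intro x y
      have key : ∀ W : Finset ι, φ (fun k => if k ∈ W then y k else x k) = φ x := by
        intro W
        induction W using Finset.induction_on with
        | empty => simp
        | insert a W ha ih =>
          have e : (fun k => if k ∈ insert a W then y k else x k)
            = Function.update (fun k => if k ∈ W then y k else x k) a (y a) := by
            funext k
            by_cases hk : k = a
            · subst hk; simp
            · rw [Function.update_of_ne hk]; simp [Finset.mem_insert, hk]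
          rw [e, hind a (by simp), ih]
      have := key univ
      simpa using this
    have he : φ = fun _ => φ (fun _ => false) := by
      funext y; exact hconst _ y
    rw [he, Ex_const]
    rcases h01 (fun _ => false) with h | h <;> rw [h] <;> simp
  | insert v V hv ih =>
    intro φ h01 hind
    have hind' : ∀ b, ∀ i, i ∉ V → Ind i (res v b φ) := by
      intro b i hi
      by_cases hiv : i = v
      · subst hiv; exact ind_res i b φ
      · intro x b'
        unfold res
        rw [Function.update_comm hiv, hind i (by simp [hiv, hi])]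
    have h01' : ∀ b x, res v b φ x = 0 ∨ res v b φ x = 1 := fun b x => h01 _
    have i0 := ih (res v false φ) (h01' false) (hind' false)
    have i1 := ih (res v true φ) (h01' true) (hind' true)
    set a0 := Ex p (res v false φ) with ha0
    set a1 := Ex p (res v true φ) with ha1
    have ha0n : 0 ≤ a0 := Ex_nonneg hPV (fun x => by rcases h01' false x with h | h <;> rw [h] <;> norm_num)
    have ha1n : 0 ≤ a1 := Ex_nonneg hPV (fun x => by rcases h01' true x with h | h <;> rw [h] <;> norm_num)
    rw [Finset.sum_insert hv, Ex_split v p φ, ← ha0, ← ha1]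
    have hsum : ∑ k ∈ V, Ex p (fun x => φ x * (1 - φ (fl k x)))
        = (1 - p v) * ∑ k ∈ V, Ex p (fun x => res v false φ x * (1 - res v false φ (fl k x)))
        + p v * ∑ k ∈ V, Ex p (fun x => res v true φ x * (1 - res v true φ (fl k x))) := by
      rw [Finset.mul_sum, Finset.mul_sum, ← Finset.sum_add_distrib]
      apply Finset.sum_congr rfl
      intro k hk
      have hkv : k ≠ v := by rintro rfl; exact hv hk
      rw [Ex_split v p (fun x => φ x * (1 - φ (fl k x)))]
      have e : ∀ b, res v b (fun x => φ x * (1 - φ (fl k x)))
          = fun x => res v b φ x * (1 - res v b φ (fl k x)) := by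
        intro b
        funext x
        show φ (Function.update x v b) * (1 - φ (Function.update (Function.update x v b) k
            (!(Function.update x v b) k)))
          = φ (Function.update x v b) * (1 - φ (Function.update (Function.update x k (!x k)) v b))
        rw [Function.update_of_ne hkv, Function.update_comm hkv]
      rw [e, e]
    rw [hsum]
    have hv1 : (1 - p v) * max (a0 - a1) 0 + p v * max (a1 - a0) 0
        ≤ Ex p (fun x => φ x * (1 - φ (fl v x))) := by
      rw [Ex_split v p (fun x => φ x * (1 - φ (fl v x)))]
      have e0 : res v false (fun x => φ x * (1 - φ (fl v x)))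
          = fun x => res v false φ x * (1 - res v true φ x) := by
        funext x
        unfold res fl
        simp
      have e1 : res v true (fun x => φ x * (1 - φ (fl v x)))
          = fun x => res v true φ x * (1 - res v false φ x) := by
        funext x
        unfold res fl
        simp
      rw [e0, e1]
      have l0 : max (a0 - a1) 0 ≤ Ex p (fun x => res v false φ x * (1 - res v true φ x)) := by
        apply max_le
        · rw [ha0, ha1, ← Ex_sub]
          apply Ex_mono hPV
          intro x
          rcases h01' false x with h | h <;> rcases h01' true x with h' | h' <;> rw [h, h'] <;> norm_num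
        · apply Ex_nonneg hPV
          intro x
          rcases h01' false x with h | h <;> rcases h01' true x with h' | h' <;> rw [h, h'] <;> norm_num
      have l1 : max (a1 - a0) 0 ≤ Ex p (fun x => res v true φ x * (1 - res v false φ x)) := by
        apply max_le
        · rw [ha0, ha1, ← Ex_sub]
          apply Ex_mono hPV
          intro x
          rcases h01' false x with h | h <;> rcases h01' true x with h' | h' <;> rw [h, h'] <;> norm_num
        · apply Ex_nonneg hPV
          intro x
          rcases h01' false x with h | h <;> rcases h01' true x with h' | h' <;> rw [h, h'] <;> norm_num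
      have := hp v
      have q0 := mul_le_mul_of_nonneg_left l0 (by linarith : 0 ≤ 1 - p v)
      have q1 := mul_le_mul_of_nonneg_left l1 (by linarith : 0 ≤ p v)
      linarith
    have htp := two_point (hp v).1 (hp v).2 ha0n ha1n
    have := hp v
    have q0 := mul_le_mul_of_nonneg_left i0 (by linarith : 0 ≤ 1 - p v)
    have q1 := mul_le_mul_of_nonneg_left i1 (by linarith : 0 ≤ p v)
    linarith

theorem iso {p : ι → ℝ} (hp : ∀ k, 3/8 ≤ p k ∧ p k ≤ 5/8)
    {φ : (ι → Bool) → ℝ} (h01 : ∀ x, φ x = 0 ∨ φ x = 1) :
    Real.negMulLog (Ex p φ) ≤ ∑ k, Ex p (fun x => φ x * (1 - φ (fl k x))) :=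
  iso_aux hp univ φ h01 (fun i hi => absurd (mem_univ i) hi)

end Pool.Agent.TH531.Fb
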