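import Pool.Agent.TH531.FbPath

set_option autoImplicit false
set_option linter.unusedSectionVars false
set_option linter.unnecessarySeqFocus false

open Finset

namespace Pool.Agent.TH531.Fb

variable {ι : Type*} [Fintype ι] [DecidableEq ι]

/-- the grid of heavy biases -/
noncomputable def tau (δ : ℝ) (N : ℕ) (j : ℕ) : ℝ := δ/2 + j * ((δ - δ/2) / N)

/-- the grid of light biases -/
noncomputable def tg (N : ℕ) (r : ℕ) : ℝ := -1/8 + r * ((1/8 - (-1/8)) / N)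

lemma tau_mem {δ : ℝ} (hδ : 0 < δ) {N j : ℕ} (hj : j < N) :
    δ/2 ≤ tau δ N j ∧ tau δ N j ≤ δ := by
  have hN : (0:ℝ) < N := by exact_mod_cast (by omega : 0 < N)
  have hj' : (j:ℝ) ≤ N := by exact_mod_cast hj.le
  unfold tau
  have h1 : (j:ℝ) * ((δ - δ/2) / N) ≤ δ - δ/2 := by
    rw [mul_div_assoc', div_le_iff₀ hN, mul_comm]
    exact mul_le_mul_of_nonneg_left hj' (by linarith)
  have h0 : 0 ≤ (j:ℝ) * ((δ - δ/2) / N) := by
    apply mul_nonneg (Nat.cast_nonneg j)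
    apply div_nonneg (by linarith) hN.le
  constructor <;> linarith

lemma tg_mem {N r : ℕ} (hr : r < N) : -1/8 ≤ tg N r ∧ tg N r ≤ 1/8 := by
  have hN : (0:ℝ) < N := by exact_mod_cast (by omega : 0 < N)
  have hj' : (r:ℝ) ≤ N := by exact_mod_cast hr.le
  unfold tg
  have h1 : (r:ℝ) * ((1/8 - (-1/8)) / N) ≤ 1/4 := by
    rw [mul_div_assoc', div_le_iff₀ hN]
    linarith
  have h0 : 0 ≤ (r:ℝ) * ((1/8 - (-1/8)) / N) := by
    apply mul_nonneg (Nat.cast_nonneg r)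
    apply div_nonneg (by norm_num) hN.le
  constructor <;> linarith

lemma tg_abs {N r : ℕ} (hr : r < N) : |tg N r| ≤ 1/8 := by
  rw [abs_le]
  have := tg_mem hr
  constructor <;> linarith

/-- weighted sum over the light biases -/
noncomputable def slot (δ : ℝ) (N : ℕ) (w : ℝ → ℝ) : ℝ :=
  w 0 + δ * w (1/8) + δ * w (-1/8) + (δ / N) * ∑ r ∈ range N, w (tg N r)

/-- average over the heavy biases -/
noncomputable def avg (δ : ℝ) (N : ℕ) (w : ℝ → ℝ) : ℝ :=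
  (1 / (N:ℝ)) * ∑ j ∈ range N, w (tau δ N j)

/-- the full weighted functional -/
noncomputable def Lam (δ : ℝ) (N1 N2 : ℕ) (W : ℝ → ℝ → ℝ) : ℝ :=
  avg δ N1 (fun a => slot δ N2 (W a) + slot δ N2 (W (-a)))

lemma slot_mono {δ : ℝ} (hδ : 0 ≤ δ) {N : ℕ} {w w' : ℝ → ℝ}
    (h : ∀ t, |t| ≤ 1/8 → w t ≤ w' t) : slot δ N w ≤ slot δ N w' := by
  unfold slot
  have h0 := h 0 (by norm_num)
  have h1 := mul_le_mul_of_nonneg_left (h (1/8) (by norm_num)) hδ
  have h2 := mul_le_mul_of_nonneg_left (h (-1/8) (by norm_num)) hδ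
  have h3 : (δ / N) * ∑ r ∈ range N, w (tg N r) ≤ (δ / N) * ∑ r ∈ range N, w' (tg N r) := by
    apply mul_le_mul_of_nonneg_left _ (by positivity)
    apply Finset.sum_le_sum
    intro r hr
    exact h _ (tg_abs (Finset.mem_range.mp hr))
  linarith

lemma slot_sub (δ : ℝ) (N : ℕ) (w w' : ℝ → ℝ) :
    slot δ N (fun t => w t - w' t) = slot δ N w - slot δ N w' := by
  unfold slot
  rw [Finset.sum_sub_distrib]
  ring

lemma slot_nonneg {δ : ℝ} (hδ : 0 ≤ δ) {N : ℕ} {w : ℝ → ℝ}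
    (h : ∀ t, |t| ≤ 1/8 → 0 ≤ w t) : 0 ≤ slot δ N w := by
  have := slot_mono hδ (N := N) (w := fun _ => 0) (w' := w) h
  have h0 : slot δ N (fun _ => 0) = 0 := by unfold slot; simp
  linarith

lemma slot_ge_zero {δ : ℝ} (hδ : 0 ≤ δ) {N : ℕ} {w : ℝ → ℝ}
    (h : ∀ t, |t| ≤ 1/8 → 0 ≤ w t) : w 0 ≤ slot δ N w := by
  unfold slot
  have h1 := mul_nonneg hδ (h (1/8) (by norm_num))
  have h2 := mul_nonneg hδ (h (-1/8) (by norm_num))
  have h3 : 0 ≤ (δ / N) * ∑ r ∈ range N, w (tg N r) := by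
    apply mul_nonneg (by positivity)
    apply Finset.sum_nonneg
    intro r hr
    exact h _ (tg_abs (Finset.mem_range.mp hr))
  linarith

lemma slot_ge {δ : ℝ} (hδ : 0 ≤ δ) {N : ℕ} {w : ℝ → ℝ}
    (h : ∀ t, |t| ≤ 1/8 → 0 ≤ w t) :
    δ * (w (1/8) + w (-1/8) + (1 / (N:ℝ)) * ∑ r ∈ range N, w (tg N r)) ≤ slot δ N w := by
  unfold slot
  have h0 := h 0 (by norm_num)
  have e : δ * (w (1/8) + w (-1/8) + (1 / (N:ℝ)) * ∑ r ∈ range N, w (tg N r))
      = δ * w (1/8) + δ * w (-1/8) + (δ / N) * ∑ r ∈ range N, w (tg N r) := by ring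
  rw [e]; linarith

lemma slot_le {δ : ℝ} (hδ : 0 ≤ δ) {N : ℕ} (hN : 0 < N) {w : ℝ → ℝ} {B0 B : ℝ}
    (h0 : w 0 ≤ B0) (h : ∀ t, |t| ≤ 1/8 → w t ≤ B) : slot δ N w ≤ B0 + 3 * δ * B := by
  unfold slot
  have h1 := mul_le_mul_of_nonneg_left (h (1/8) (by norm_num)) hδ
  have h2 := mul_le_mul_of_nonneg_left (h (-1/8) (by norm_num)) hδ
  have hNr : (0:ℝ) < N := by exact_mod_cast hN
  have h3 : (δ / N) * ∑ r ∈ range N, w (tg N r) ≤ δ * B := by
    have : ∑ r ∈ range N, w (tg N r) ≤ ∑ r ∈ range N, B := by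
      apply Finset.sum_le_sum
      intro r hr
      exact h _ (tg_abs (Finset.mem_range.mp hr))
    rw [Finset.sum_const, Finset.card_range, nsmul_eq_mul] at this
    calc (δ / N) * ∑ r ∈ range N, w (tg N r) ≤ (δ / N) * (N * B) :=
          mul_le_mul_of_nonneg_left this (by positivity)
      _ = δ * B := by field_simp
  linarith

lemma avg_mono {δ : ℝ} (hδ : 0 < δ) {N : ℕ} {w w' : ℝ → ℝ}
    (h : ∀ a, δ/2 ≤ a → a ≤ δ → w a ≤ w' a) : avg δ N w ≤ avg δ N w' := by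
  unfold avg
  apply mul_le_mul_of_nonneg_left _ (by positivity)
  apply Finset.sum_le_sum
  intro j hj
  have := tau_mem hδ (Finset.mem_range.mp hj)
  exact h _ this.1 this.2

lemma avg_const {δ : ℝ} {N : ℕ} (hN : 0 < N) (c : ℝ) : avg δ N (fun _ => c) = c := by
  unfold avg
  have hNr : (0:ℝ) < N := by exact_mod_cast hN
  rw [Finset.sum_const, Finset.card_range, nsmul_eq_mul]
  field_simp

lemma avg_add (δ : ℝ) (N : ℕ) (w w' : ℝ → ℝ) :
    avg δ N (fun a => w a + w' a) = avg δ N w + avg δ N w' := by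
  unfold avg
  rw [Finset.sum_add_distrib]; ring

lemma avg_sub (δ : ℝ) (N : ℕ) (w w' : ℝ → ℝ) :
    avg δ N (fun a => w a - w' a) = avg δ N w - avg δ N w' := by
  unfold avg
  rw [Finset.sum_sub_distrib]; ring

lemma avg_smul (δ : ℝ) (N : ℕ) (c : ℝ) (w : ℝ → ℝ) :
    avg δ N (fun a => c * w a) = c * avg δ N w := by
  unfold avg
  rw [← Finset.mul_sum]; ring

lemma avg_sum {κ : Type*} (δ : ℝ) (N : ℕ) (s : Finset κ) (w : κ → ℝ → ℝ) :
    avg δ N (fun a => ∑ k ∈ s, w k a) = ∑ k ∈ s, avg δ N (w k) := by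
  unfold avg
  rw [Finset.sum_comm, Finset.mul_sum]

lemma avg_slot (δ : ℝ) (N1 N2 : ℕ) (W : ℝ → ℝ → ℝ) :
    avg δ N1 (fun a => slot δ N2 (W a)) = slot δ N2 (fun t => avg δ N1 (fun a => W a t)) := by
  unfold slot
  rw [avg_add, avg_add, avg_add, avg_smul, avg_smul, avg_smul, avg_sum]

lemma Lam_eq (δ : ℝ) (N1 N2 : ℕ) (W : ℝ → ℝ → ℝ) :
    Lam δ N1 N2 W = slot δ N2 (fun t => avg δ N1 (fun a => W a t))
      + slot δ N2 (fun t => avg δ N1 (fun a => W (-a) t)) := by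
  unfold Lam
  rw [avg_add, avg_slot, avg_slot]

lemma avg_single {δ : ℝ} (hδ : 0 < δ) {N : ℕ} {w : ℝ → ℝ}
    (h : ∀ a, δ/2 ≤ a → a ≤ δ → 0 ≤ w a) {j : ℕ} (hj : j < N) :
    w (tau δ N j) ≤ N * avg δ N w := by
  unfold avg
  have hN : (0:ℝ) < N := by exact_mod_cast (by omega : 0 < N)
  have e : (N:ℝ) * (1 / (N:ℝ) * ∑ j ∈ range N, w (tau δ N j)) = ∑ j ∈ range N, w (tau δ N j) := by
    field_simp
  rw [e]
  apply Finset.single_le_sum (f := fun j => w (tau δ N j)) _ (Finset.mem_range.mpr hj)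
  intro r hr
  have := tau_mem hδ (Finset.mem_range.mp hr)
  exact h _ this.1 this.2

/-- remaining potential -/
noncomputable def Phi (δ : ℝ) (N1 N2 : ℕ) (F : (ι → Bool) → ℝ) (H : Finset ι) : ℝ :=
  Lam δ N1 N2 (fun a t => G F H a t)

/-- weighted influence -/
noncomputable def Th (δ : ℝ) (N1 N2 : ℕ) (F : (ι → Bool) → ℝ) (H : Finset ι) (k : ι) : ℝ :=
  Lam δ N1 N2 (fun a t => |a - t| * Ex (pH H a t) (D k F))

lemma w_nonneg {F : (ι → Bool) → ℝ} (hF : MB F) {a t : ℝ} (ha : |a| ≤ 1/8) (ht : |t| ≤ 1/8)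
    (H : Finset ι) (k : ι) : 0 ≤ |a - t| * Ex (pH H a t) (D k F) :=
  mul_nonneg (abs_nonneg _) (Ex_nonneg (pv_of_mid (pH_mid ha ht)) (hF.g_nonneg k))

lemma abs_le_of_tau {δ a : ℝ} (hδ : 0 < δ) (hδ8 : δ ≤ 1/8) (h1 : δ/2 ≤ a) (h2 : a ≤ δ) :
    |a| ≤ 1/8 := by
  rw [abs_of_nonneg (by linarith)]; linarith

lemma Th_nonneg {δ : ℝ} (hδ : 0 < δ) (hδ8 : δ ≤ 1/8) {N1 N2 : ℕ} (hN1 : 0 < N1)
    {F : (ι → Bool) → ℝ} (hF : MB F) (H : Finset ι) (k : ι) : 0 ≤ Th δ N1 N2 F H k := by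
  unfold Th Lam
  rw [← avg_const (δ := δ) hN1 0]
  apply avg_mono hδ
  intro a h1 h2
  have ha := abs_le_of_tau hδ hδ8 h1 h2
  have ha' : |(-a)| ≤ 1/8 := by rwa [abs_neg]
  have s1 := slot_nonneg hδ.le (N := N2) (w := fun t => |a - t| * Ex (pH H a t) (D k F))
    (fun t ht => w_nonneg hF ha ht H k)
  have s2 := slot_nonneg hδ.le (N := N2) (w := fun t => |-a - t| * Ex (pH H (-a) t) (D k F))
    (fun t ht => w_nonneg hF ha' ht H k)
  linarith

lemma Phi_sub {δ : ℝ} (hδ : 0 < δ) (hδ8 : δ ≤ 1/8) {N1 N2 : ℕ}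
    {F : (ι → Bool) → ℝ} (hF : MB F) {H : Finset ι} {k : ι} (hk : k ∉ H) :
    Phi δ N1 N2 F H - Phi δ N1 N2 F (insert k H) = Th δ N1 N2 F H k := by
  unfold Phi Th Lam
  rw [← avg_sub]
  have key : ∀ a : ℝ, |a| ≤ 1/8 → slot δ N2 (fun t => G F H a t)
      - slot δ N2 (fun t => G F (insert k H) a t)
      = slot δ N2 (fun t => |a - t| * Ex (pH H a t) (D k F)) := by
    intro a ha
    rw [← slot_sub]
    apply le_antisymm <;> apply slot_mono hδ.le <;> intro t ht <;>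
      rw [G_insert hF ha ht hk]
  apply le_antisymm <;> apply avg_mono hδ <;> intro a h1 h2
  all_goals
    have ha := abs_le_of_tau hδ hδ8 h1 h2
    have ha' : |(-a)| ≤ 1/8 := by rwa [abs_neg]
    have k1 := key a ha
    have k2 := key (-a) ha'
    linarith

lemma Phi_nonneg {δ : ℝ} (hδ : 0 < δ) {N1 N2 : ℕ} (hN1 : 0 < N1)
    (F : (ι → Bool) → ℝ) (H : Finset ι) : 0 ≤ Phi δ N1 N2 F H := by
  unfold Phi Lam
  rw [← avg_const (δ := δ) hN1 0]
  apply avg_mono hδ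
  intro a _ _
  have s1 := slot_nonneg hδ.le (N := N2) (w := fun t => G F H a t) (fun t _ => abs_nonneg _)
  have s2 := slot_nonneg hδ.le (N := N2) (w := fun t => G F H (-a) t) (fun t _ => abs_nonneg _)
  linarith

lemma Phi_le {δ : ℝ} (hδ : 0 < δ) (hδ8 : δ ≤ 1/8) {N1 N2 : ℕ} (hN1 : 0 < N1) (hN2 : 0 < N2)
    {F : (ι → Bool) → ℝ} (hF : MB F) (H : Finset ι) : Phi δ N1 N2 F H ≤ 3 := by
  unfold Phi Lam
  rw [← avg_const (δ := δ) hN1 3]
  apply avg_mono hδ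
  intro a h1 h2
  have ha := abs_le_of_tau hδ hδ8 h1 h2
  have ha' : |(-a)| ≤ 1/8 := by rwa [abs_neg]
  have s1 := slot_le hδ.le hN2 (w := fun t => G F H a t) (B0 := 1) (B := 1)
    (G_le_one hF ha (by norm_num) H) (fun t ht => G_le_one hF ha ht H)
  have s2 := slot_le hδ.le hN2 (w := fun t => G F H (-a) t) (B0 := 1) (B := 1)
    (G_le_one hF ha' (by norm_num) H) (fun t ht => G_le_one hF ha' ht H)
  linarith

/-- closure -/
lemma closure {δ : ℝ} (hδ : 0 < δ) (hδ8 : δ ≤ 1/8) {N1 N2 : ℕ}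
    {F : (ι → Bool) → ℝ} (hF : MB F) {θ : ℝ} :
    ∀ (c : ℕ) (H : Finset ι), Fintype.card ι - H.card = c →
      ∃ H', H ⊆ H' ∧ (∀ k, k ∉ H' → Th δ N1 N2 F H' k < θ) ∧
        ((H'.card : ℝ) - H.card) * θ ≤ Phi δ N1 N2 F H - Phi δ N1 N2 F H' := by
  intro c
  induction c with
  | zero =>
    intro H hH
    refine ⟨H, subset_rfl, ?_, by simp⟩
    intro k hk
    exfalso
    have h1 : H.card < Fintype.card ι := by
      rw [← Finset.card_univ]
      apply Finset.card_lt_card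
      rw [Finset.ssubset_univ_iff]
      rintro rfl; exact hk (Finset.mem_univ k)
    omega
  | succ c ih =>
    intro H hH
    by_cases hex : ∃ k, k ∉ H ∧ θ ≤ Th δ N1 N2 F H k
    · obtain ⟨k, hk, hθ⟩ := hex
      obtain ⟨H', h1, h2, h3⟩ := ih (insert k H) (by rw [Finset.card_insert_of_notMem hk]; omega)
      refine ⟨H', (Finset.subset_insert k H).trans h1, h2, ?_⟩
      have h4 := Phi_sub hδ hδ8 (N1 := N1) (N2 := N2) hF hk
      rw [Finset.card_insert_of_notMem hk] at h3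
      push_cast at h3
      linarith
    · push Not at hex
      exact ⟨H, subset_rfl, fun k hk => hex k hk, by simp⟩

end Pool.Agent.TH531.Fb
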