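import Pool.Agent.TH531.FbOS3

set_option autoImplicit false
set_option linter.unusedSectionVars false
set_option linter.unnecessarySeqFocus false

open Finset

namespace Pool.Agent.TH531.Fb

variable {ι : Type*} [Fintype ι] [DecidableEq ι]

/-- every relevant light variable has a maximal light face -/
lemma exists_face {F : (ι → Bool) → ℝ} {H : Finset ι} {i : ι} (hi : i ∉ H) {m : ℕ}
    (hdeg : DegLT (m+1) (D i F)) (hne : ∃ x, D i F x ≠ 0) : ∃ l, Face F H i l := by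
  classical
  set P : ℕ → Prop := fun n => ∃ l : List ι, (∀ k ∈ l, k ∉ H) ∧ (∃ x, Dl l (D i F) x ≠ 0) ∧
    l.length = n with hP
  have hP0 : P 0 := ⟨[], by simp, hne, rfl⟩
  have hPm : ∀ n, P n → n ≤ m := by
    rintro n ⟨l, _, ⟨x, hx⟩, hl⟩
    by_contra hc
    push Not at hc
    exact hx (Dl_eq_zero l hdeg (by omega) x)
  obtain ⟨l, h1, h2, h3⟩ := Nat.findGreatest_spec (P := P) (Nat.zero_le m) hP0
  refine ⟨l, hi, h1, h2, ?_⟩
  intro l' hl' hlen x
  by_contra hx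
  have hPl : P l'.length := ⟨l', fun k hk => Finset.mem_compl.mp (hl' k hk), ⟨x, hx⟩, rfl⟩
  have := Nat.le_findGreatest (hPm _ hPl) hPl
  omega

lemma num1 : ∃ c : ℕ, ∀ (j lam : ℕ) (s : ℝ), 0 ≤ s → s ≤ 6 * lam * 2 ^ j →
    ((9:ℝ)/8) ^ lam ≤ 54 * (s + 1) ^ 3 * 2 ^ j → lam ≤ c * (j + 1) := by
  have ht := tendsto_pow_const_div_const_pow_of_one_lt 3 (show (1:ℝ) < 17/16 by norm_num)
  have hev := ht.eventually (gt_mem_nhds (show (0:ℝ) < 1/18522 by norm_num))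
  obtain ⟨l0, hl0⟩ := Filter.eventually_atTop.mp hev
  refine ⟨l0 + 49, ?_⟩
  intro j lam s hs0 hs hle
  by_contra hc
  push Not at hc
  have h1 : l0 ≤ lam := by nlinarith
  have h2 : 49 * j ≤ lam := by nlinarith
  have hlam1 : 1 ≤ lam := by nlinarith
  have hlr : (1:ℝ) ≤ lam := by exact_mod_cast hlam1
  have h3 := hl0 lam h1
  have hpos : (0:ℝ) < (17/16) ^ lam := by positivity
  rw [div_lt_iff₀ hpos] at h3
  have h4 : (16:ℝ) ^ j ≤ (18/17) ^ lam := by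
    calc (16:ℝ) ^ j ≤ ((18/17) ^ 49) ^ j := by
          apply pow_le_pow_left₀ (by norm_num)
          norm_num
      _ = (18/17) ^ (49 * j) := by rw [pow_mul]
      _ ≤ (18/17) ^ lam := pow_le_pow_right₀ (by norm_num) h2
  have h2j : (1:ℝ) ≤ 2 ^ j := one_le_pow₀ (by norm_num)
  have h5 : s + 1 ≤ 7 * (lam * 2 ^ j) := by
    have : (1:ℝ) ≤ lam * 2 ^ j := by nlinarith
    nlinarith
  have h6 : (s + 1) ^ 3 ≤ (7 * (lam * 2 ^ j)) ^ 3 := pow_le_pow_left₀ (by linarith) h5 3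
  have h7 : 54 * (s + 1) ^ 3 * 2 ^ j ≤ 54 * (7 * (lam * 2 ^ j)) ^ 3 * 2 ^ j := by
    apply mul_le_mul_of_nonneg_right _ (by positivity)
    linarith
  have h8 : 54 * (7 * ((lam:ℝ) * 2 ^ j)) ^ 3 * 2 ^ j = 18522 * (lam:ℝ) ^ 3 * 16 ^ j := by
    have : (16:ℝ) ^ j = (2 ^ j) ^ 4 := by rw [← pow_mul, mul_comm, pow_mul]; norm_num
    rw [this]; ring
  have h9 : ((9:ℝ)/8) ^ lam = (17/16) ^ lam * (18/17) ^ lam := by
    rw [← mul_pow]; norm_num
  have h10 : 18522 * (lam:ℝ) ^ 3 < (17/16) ^ lam := by linarith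
  have h11 : 18522 * (lam:ℝ) ^ 3 * 16 ^ j < (17/16) ^ lam * (18/17) ^ lam := by
    apply mul_lt_mul h10 h4 (by positivity) (by positivity)
  rw [h9] at hle
  linarith

lemma num2 (c : ℕ) : ∃ m0 : ℕ, 4 ≤ m0 ∧ ∀ m : ℕ, m0 ≤ m →
    ((8 * m ^ 2) ^ (16 * c) ≤ 2 ^ m) ∧
    (4 * (8:ℝ) ^ c * (m:ℝ) ^ (2 * c + 4) ≤ (3/2) ^ m) := by
  have ht1 := tendsto_pow_const_div_const_pow_of_one_lt (32 * c) (show (1:ℝ) < 2 by norm_num)
  have ht2 := tendsto_pow_const_div_const_pow_of_one_lt (2 * c + 4) (show (1:ℝ) < 3/2 by norm_num)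
  have hev1 := ht1.eventually (gt_mem_nhds (show (0:ℝ) < 1 / 8 ^ (16 * c) by positivity))
  have hev2 := ht2.eventually (gt_mem_nhds (show (0:ℝ) < 1 / (4 * 8 ^ c) by positivity))
  obtain ⟨a1, h1⟩ := Filter.eventually_atTop.mp hev1
  obtain ⟨a2, h2⟩ := Filter.eventually_atTop.mp hev2
  refine ⟨a1 + a2 + 4, by omega, ?_⟩
  intro m hm
  constructor
  · have := h1 m (by omega)
    have hpos : (0:ℝ) < 2 ^ m := by positivity
    rw [div_lt_iff₀ hpos, div_mul_eq_mul_div, one_mul, lt_div_iff₀ (by positivity)] at this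
    have h3 : ((8 * m ^ 2 : ℕ) : ℝ) ^ (16 * c) ≤ 2 ^ m := by
      push_cast
      rw [mul_pow, ← pow_mul]
      have e : 2 * (16 * c) = 32 * c := by ring
      rw [e]
      linarith
    exact_mod_cast h3
  · have := h2 m (by omega)
    have hpos : (0:ℝ) < (3/2) ^ m := by positivity
    rw [div_lt_iff₀ hpos, div_mul_eq_mul_div, one_mul, lt_div_iff₀ (by positivity)] at this
    linarith

/-- parameters and standing assumptions -/
structure Par (F : (ι → Bool) → ℝ) (δ : ℝ) (N1 N2 m : ℕ) : Prop where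
  hF : MB F
  hdeg : DegLT (m+2) F
  hm : 4 ≤ m
  hδ : δ = 1 / (8 * Real.sqrt m)
  hN1 : N1 = m ^ 2
  hN2 : 0 < N2
  hN2n : Fintype.card ι ≤ N2
  hN2b : 2 * (Fintype.card ι : ℝ) ^ 2 * 2 ^ m ≤ N2

namespace Par

variable {F : (ι → Bool) → ℝ} {δ : ℝ} {N1 N2 m : ℕ}

lemma mr (h : Par F δ N1 N2 m) : (4:ℝ) ≤ m := by exact_mod_cast h.hm

lemma sq (h : Par F δ N1 N2 m) : (2:ℝ) ≤ Real.sqrt m := by
  apply Real.le_sqrt_of_sq_le
  have := h.mr; linarith

lemma ss (h : Par F δ N1 N2 m) : Real.sqrt m * Real.sqrt m = m :=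
  Real.mul_self_sqrt (by have := h.mr; linarith)

lemma δpos (h : Par F δ N1 N2 m) : 0 < δ := by
  rw [h.hδ]; have := h.sq; positivity

lemma δ16 (h : Par F δ N1 N2 m) : δ ≤ 1/16 := by
  rw [h.hδ]
  have := h.sq
  apply one_div_le_one_div_of_le (by norm_num) (by linarith)

lemma δm (h : Par F δ N1 N2 m) : 64 * δ ^ 2 * m = 1 := by
  rw [h.hδ]
  have h1 := h.ss
  have h2 := h.sq
  have h3 := h.mr
  have e : (1 / (8 * Real.sqrt m)) ^ 2 = 1 / (64 * m) := by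
    rw [div_pow, mul_pow, one_pow, pow_two (Real.sqrt m), h1]; norm_num
  rw [e]; field_simp

lemma N1pos (h : Par F δ N1 N2 m) : 0 < N1 := by
  rw [h.hN1]; have := h.hm; positivity

lemma hN (h : Par F δ N1 N2 m) : 8 * ((m:ℝ) + 1) ^ 2 * δ ^ 2 ≤ N1 := by
  have h1 := h.δm
  have h3 := h.mr
  rw [h.hN1]
  push_cast
  have h4 : δ ^ 2 = 1 / (64 * m) := by
    rw [eq_div_iff (by positivity)]; linarith
  rw [h4, mul_one_div, div_le_iff₀ (by positivity)]
  nlinarith [mul_pos (show (0:ℝ) < m by linarith) (show (0:ℝ) < m by linarith)]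

lemma hg (h : Par F δ N1 N2 m) (i : ι) : DegLT (m+1) (D i F) := h.hdeg i

lemma hqm (h : Par F δ N1 N2 m) (i : ι) : LD univ m (D i F) := by
  intro l _ hl x
  exact Dl_eq_zero l (h.hg i) (by omega) x

/-- faces are small -/
lemma face_small (h : Par F δ N1 N2 m) {c : ℕ}
    (hc : ∀ (j lam : ℕ) (s : ℝ), 0 ≤ s → s ≤ 6 * lam * 2 ^ j →
      ((9:ℝ)/8) ^ lam ≤ 54 * (s + 1) ^ 3 * 2 ^ j → lam ≤ c * (j + 1))
    {H : Finset ι} {j : ℕ}
    (hcl : ∀ k, k ∉ H → Th δ N1 N2 F H k < (δ/2) * 2 ^ j * (1/2) ^ m) :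
    ∀ i ∈ Hᶜ, LD Hᶜ (c * (j + 1)) (D i F) := by
  intro i hi
  rw [Finset.mem_compl] at hi
  by_cases hne : ∃ x, D i F x ≠ 0
  · obtain ⟨l, hf⟩ := exists_face hi (h.hg i) hne
    have h1 := S_card h.hF hf (h.hg i) h.δpos h.δ16 h.δm.le h.N1pos (K := 2 ^ j) (hcl i hi).le
    have h2 := os_final h.hF hf (h.hg i) h.δpos h.δ16 h.δm.le h.N1pos h.hN2 h.hN2n h.hN2b
      (K := 2 ^ j) (fun k hk => (hcl k hk).le)
    have h3 := hc j l.length _ (Nat.cast_nonneg _) h1 h2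
    intro l' hl' hlen x
    exact hf.max l' hl' (lt_of_le_of_lt h3 hlen) x
  · push Not at hne
    intro l _ _ x
    have : Ind i (Dl l (D i F)) := ind_Dl_of_ind l (ind_D i F)
    by_contra hx
    obtain ⟨z, _, hz⟩ := Dl_exists hx
    exact hz (hne z)

/-- pointwise lightness -/
lemma pointwise (h : Par F δ N1 N2 m) {H : Finset ι} {j : ℕ}
    (hcl : ∀ k, k ∉ H → Th δ N1 N2 F H k < (δ/2) * 2 ^ j * (1/2) ^ m) :
    ∀ s : ℝ, (s = 1 ∨ s = -1) → ∀ r, r < N1 → ∀ i ∈ Hᶜ,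
      Ex (pH H (s * tau δ N1 r) 0) (D i F) ≤ N1 * 2 ^ j * (1/2) ^ m := by
  intro s hs r hr i hi
  rw [Finset.mem_compl] at hi
  have hδ := h.δpos
  have hδ8 : δ ≤ 1/8 := by have := h.δ16; linarith
  have htau := tau_mem hδ hr
  have ha := abs_le_of_tau hδ hδ8 htau.1 htau.2
  have ha' : |(-tau δ N1 r)| ≤ 1/8 := by rwa [abs_neg]
  have hnn : ∀ a, δ/2 ≤ a → a ≤ δ →
      0 ≤ slot δ N2 (fun t => |a - t| * Ex (pH H a t) (D i F))
        + slot δ N2 (fun t => |-a - t| * Ex (pH H (-a) t) (D i F)) := by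
    intro a h1 h2
    have ha := abs_le_of_tau hδ hδ8 h1 h2
    have ha' : |(-a)| ≤ 1/8 := by rwa [abs_neg]
    have s1 := slot_nonneg hδ.le (N := N2) (w := fun t => |a - t| * Ex (pH H a t) (D i F))
      (fun t ht => w_nonneg h.hF ha ht H i)
    have s2 := slot_nonneg hδ.le (N := N2) (w := fun t => |-a - t| * Ex (pH H (-a) t) (D i F))
      (fun t ht => w_nonneg h.hF ha' ht H i)
    linarith
  have hsingle := avg_single hδ (w := fun a => slot δ N2 (fun t => |a - t| * Ex (pH H a t) (D i F))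
        + slot δ N2 (fun t => |-a - t| * Ex (pH H (-a) t) (D i F))) hnn hr
  have hTh : avg δ N1 (fun a => slot δ N2 (fun t => |a - t| * Ex (pH H a t) (D i F))
        + slot δ N2 (fun t => |-a - t| * Ex (pH H (-a) t) (D i F))) = Th δ N1 N2 F H i := rfl
  rw [hTh] at hsingle
  have s1 := slot_ge_zero hδ.le (N := N2)
    (w := fun t => |tau δ N1 r - t| * Ex (pH H (tau δ N1 r) t) (D i F))
    (fun t ht => w_nonneg h.hF ha ht H i)
  have s2 := slot_ge_zero hδ.le (N := N2)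
    (w := fun t => |-tau δ N1 r - t| * Ex (pH H (-tau δ N1 r) t) (D i F))
    (fun t ht => w_nonneg h.hF ha' ht H i)
  have n1 := slot_nonneg hδ.le (N := N2)
    (w := fun t => |tau δ N1 r - t| * Ex (pH H (tau δ N1 r) t) (D i F))
    (fun t ht => w_nonneg h.hF ha ht H i)
  have n2 := slot_nonneg hδ.le (N := N2)
    (w := fun t => |-tau δ N1 r - t| * Ex (pH H (-tau δ N1 r) t) (D i F))
    (fun t ht => w_nonneg h.hF ha' ht H i)
  rw [sub_zero, abs_of_nonneg (by linarith : 0 ≤ tau δ N1 r)] at s1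
  rw [sub_zero, abs_neg, abs_of_nonneg (by linarith : 0 ≤ tau δ N1 r)] at s2
  have hN1r : (0:ℝ) < N1 := by exact_mod_cast h.N1pos
  have hcli := mul_lt_mul_of_pos_left (hcl i hi) hN1r
  have key : ∀ M : ℝ, 0 ≤ M → tau δ N1 r * M ≤ N1 * Th δ N1 N2 F H i →
      M ≤ N1 * 2 ^ j * (1/2) ^ m := by
    intro M hM hle
    have h1 : (δ/2) * M ≤ tau δ N1 r * M := mul_le_mul_of_nonneg_right htau.1 hM
    have h2 : (δ/2) * M ≤ (δ/2) * (N1 * 2 ^ j * (1/2) ^ m) := by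
      have e : (δ/2) * ((N1:ℝ) * 2 ^ j * (1/2) ^ m) = N1 * ((δ/2) * 2 ^ j * (1/2) ^ m) := by ring
      rw [e]; linarith
    exact le_of_mul_le_mul_left h2 (by linarith)
  rcases hs with hs | hs
  · rw [hs, one_mul]
    apply key
    · exact Ex_nonneg (pv_of_mid (pH_mid ha (by norm_num))) (h.hF.g_nonneg i)
    · linarith
  · rw [hs, neg_one_mul]
    apply key
    · exact Ex_nonneg (pv_of_mid (pH_mid ha' (by norm_num))) (h.hF.g_nonneg i)
    · linarith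

/-- relevant variables are heavy at level 1 -/
lemma relevant (h : Par F δ N1 N2 m) {H : Finset ι}
    (hcl : ∀ k, k ∉ H → Th δ N1 N2 F H k < (δ/2) * 2 ^ 0 * (1/2) ^ m) {i : ι}
    (hi : ∃ x, D i F x ≠ 0) : i ∈ H := by
  by_contra hiH
  have hlt := hcl i hiH
  have hδ := h.δpos
  have hδ8 : δ ≤ 1/8 := by have := h.δ16; linarith
  have h1 : avg δ N1 (fun _ => (δ/2) * (1/2) ^ m) ≤ avg δ N1 (fun a =>
      slot δ N2 (fun t => |a - t| * Ex (pH H a t) (D i F))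
        + slot δ N2 (fun t => |-a - t| * Ex (pH H (-a) t) (D i F))) := by
    apply avg_mono hδ
    intro a ha1 ha2
    have ha8 := abs_le_of_tau hδ hδ8 ha1 ha2
    have ha8' : |(-a)| ≤ 1/8 := by rwa [abs_neg]
    have ham : 64 * a ^ 2 * m ≤ 1 := by
      have h2 : a ^ 2 ≤ δ ^ 2 := by nlinarith
      have hm0 : (0:ℝ) ≤ m := Nat.cast_nonneg m
      have h3 := mul_le_mul_of_nonneg_right h2 hm0
      have := h.δm
      linarith
    have hp := pi_cor H ham ha8 (le_refl m) (h.hg i) hi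
    have hnz : nz (D i F) = D i F := by
      funext x
      unfold nz
      rcases h.hF.g01 i x with h' | h' <;> rw [h'] <;> simp
    rw [hnz] at hp
    have s1 := slot_ge_zero hδ.le (N := N2) (w := fun t => |a - t| * Ex (pH H a t) (D i F))
      (fun t ht => w_nonneg h.hF ha8 ht H i)
    have s2 := slot_ge_zero hδ.le (N := N2) (w := fun t => |-a - t| * Ex (pH H (-a) t) (D i F))
      (fun t ht => w_nonneg h.hF ha8' ht H i)
    rw [sub_zero, abs_of_nonneg (by linarith : 0 ≤ a)] at s1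
    rw [sub_zero, abs_neg, abs_of_nonneg (by linarith : 0 ≤ a)] at s2
    have m1 : 0 ≤ Ex (pH H a 0) (D i F) :=
      Ex_nonneg (pv_of_mid (pH_mid ha8 (by norm_num))) (h.hF.g_nonneg i)
    have m2 : 0 ≤ Ex (pH H (-a) 0) (D i F) :=
      Ex_nonneg (pv_of_mid (pH_mid ha8' (by norm_num))) (h.hF.g_nonneg i)
    have q1 := mul_le_mul_of_nonneg_right ha1 m1
    have q2 := mul_le_mul_of_nonneg_right ha1 m2
    have q3 := mul_le_mul_of_nonneg_left hp (show 0 ≤ δ/2 by linarith)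
    linarith
  rw [avg_const h.N1pos] at h1
  have h2 : avg δ N1 (fun a => slot δ N2 (fun t => |a - t| * Ex (pH H a t) (D i F))
        + slot δ N2 (fun t => |-a - t| * Ex (pH H (-a) t) (D i F))) = Th δ N1 N2 F H i := rfl
  rw [h2] at h1
  rw [pow_zero, mul_one] at hlt
  linarith

end Par

end Pool.Agent.TH531.Fb
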