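import Pool.Agent.TH531.FbDeg
import Pool.Agent.TH531.FbIso

set_option autoImplicit false
set_option linter.unusedSectionVars false
set_option linter.unnecessarySeqFocus false

open Finset

namespace Pool.Agent.TH531.Fb

variable {ι : Type*} [Fintype ι] [DecidableEq ι]

/-- monotone Boolean (0/1 valued) -/
structure MB (F : (ι → Bool) → ℝ) : Prop where
  h01 : ∀ x, F x = 0 ∨ F x = 1
  mono : ∀ x y, x ≤ y → F x ≤ F y

lemma upd_mono {x y : ι → Bool} (h : x ≤ y) (k : ι) (b : Bool) :
    Function.update x k b ≤ Function.update y k b := by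
  intro j
  by_cases hj : j = k
  · subst hj; simp
  · rw [Function.update_of_ne hj, Function.update_of_ne hj]; exact h j

lemma upd_ft (x : ι → Bool) (k : ι) :
    Function.update x k false ≤ Function.update x k true := by
  intro j
  by_cases hj : j = k
  · subst hj; simp
  · rw [Function.update_of_ne hj, Function.update_of_ne hj]

lemma MB.g01 {F : (ι → Bool) → ℝ} (hF : MB F) (i : ι) (x : ι → Bool) :
    D i F x = 0 ∨ D i F x = 1 := by
  unfold D
  have h3 := hF.mono _ _ (upd_ft x i)
  rcases hF.h01 (Function.update x i true) with h | h <;>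
    rcases hF.h01 (Function.update x i false) with h' | h'
  · left; rw [h, h']; ring
  · exfalso; rw [h, h'] at h3; linarith
  · right; rw [h, h']; ring
  · left; rw [h, h']; ring

lemma MB.g_nonneg {F : (ι → Bool) → ℝ} (hF : MB F) (i : ι) (x : ι → Bool) :
    0 ≤ D i F x := by
  rcases hF.g01 i x with h | h <;> rw [h]; norm_num

lemma MB.g_le_one {F : (ι → Bool) → ℝ} (hF : MB F) (i : ι) (x : ι → Bool) :
    D i F x ≤ 1 := by
  rcases hF.g01 i x with h | h <;> rw [h]; norm_num

lemma MB.g_one {F : (ι → Bool) → ℝ} (hF : MB F) {i : ι} {x : ι → Bool} (h : D i F x = 1) :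
    F (Function.update x i true) = 1 ∧ F (Function.update x i false) = 0 := by
  unfold D at h
  rcases hF.h01 (Function.update x i true) with h1 | h1 <;>
    rcases hF.h01 (Function.update x i false) with h2 | h2 <;> rw [h1, h2] at h <;>
    first | exact ⟨h1, h2⟩ | (norm_num at h)

lemma MB.eq_zero {F : (ι → Bool) → ℝ} (hF : MB F) {x : ι → Bool} (h : F x ≤ 0) : F x = 0 := by
  rcases hF.h01 x with h1 | h1
  · exact h1
  · linarith

lemma MB.eq_one {F : (ι → Bool) → ℝ} (hF : MB F) {x : ι → Bool} (h : 1 ≤ F x) : F x = 1 := by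
  rcases hF.h01 x with h1 | h1
  · linarith
  · exact h1

lemma MB.nonneg {F : (ι → Bool) → ℝ} (hF : MB F) (x : ι → Bool) : 0 ≤ F x := by
  rcases hF.h01 x with h1 | h1 <;> rw [h1]; norm_num

lemma MB.le_one {F : (ι → Bool) → ℝ} (hF : MB F) (x : ι → Bool) : F x ≤ 1 := by
  rcases hF.h01 x with h1 | h1 <;> rw [h1]; norm_num

/-- light degree at most `ℓ` -/
def LD (L : Finset ι) (ℓ : ℕ) (q : (ι → Bool) → ℝ) : Prop :=
  ∀ l : List ι, (∀ k ∈ l, k ∈ L) → ℓ < l.length → ∀ x, Dl l q x = 0

lemma face_card {L : Finset ι} {ℓ : ℕ} {q : (ι → Bool) → ℝ} (hq : LD L ℓ q) {x : ι → Bool}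
    (hx : q x ≠ 0) (P : Finset ι) (hP : P ⊆ L)
    (h : ∀ z, (∀ k, k ∉ P → z k = x k) → z ≠ x → q z = 0) : P.card ≤ ℓ := by
  by_contra hc
  push Not at hc
  have h1 := hq P.toList (fun k hk => hP (Finset.mem_toList.mp hk))
    (by rwa [Finset.length_toList]) x
  refine face_ne (Finset.nodup_toList P) ?_ hx h1
  intro z hz hzx
  apply h z _ hzx
  intro k hk
  exact hz k (fun hk' => hk (Finset.mem_toList.mp hk'))

/-- the killers with `x k = true` -/
noncomputable def KT (L : Finset ι) (i : ι) (F : (ι → Bool) → ℝ) (x : ι → Bool) : Finset ι :=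
  L.filter (fun k => x k = true ∧ D i F (fl k x) = 0)

/-- the killers with `x k = false` -/
noncomputable def KB (L : Finset ι) (i : ι) (F : (ι → Bool) → ℝ) (x : ι → Bool) : Finset ι :=
  L.filter (fun k => x k = false ∧ D i F (fl k x) = 0)

lemma kt_card {L : Finset ι} {ℓ : ℕ} {F : (ι → Bool) → ℝ} (hF : MB F) {i : ι}
    (hq : LD L ℓ (D i F)) {x : ι → Bool} (hx : D i F x = 1) : (KT L i F x).card ≤ ℓ := by
  apply face_card hq (x := x) (by rw [hx]; norm_num) _ (Finset.filter_subset _ _)
  intro z hz hzx
  obtain ⟨k, hk⟩ := Function.ne_iff.mp hzx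
  have hkP : k ∈ KT L i F x := by
    by_contra hkP
    exact hk (hz k hkP)
  have hk2 := (Finset.mem_filter.mp hkP).2
  have hzk : z k = false := by
    rw [hk2.1] at hk
    simpa using hk
  have hle : z ≤ fl k x := by
    intro j
    by_cases hj : j = k
    · subst hj; rw [hzk]; exact Bool.false_le _
    · unfold fl
      rw [Function.update_of_ne hj]
      by_cases hjP : j ∈ KT L i F x
      · have := (Finset.mem_filter.mp hjP).2.1
        rw [this]; exact Bool.le_true _
      · rw [hz j hjP]
  have hyx : fl k x ≤ x := by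
    intro j
    unfold fl
    by_cases hj : j = k
    · subst hj; rw [hk2.1]; exact Bool.le_true _
    · rw [Function.update_of_ne hj]
  have h0 := (hF.g_one hx).2
  have h1 : F (Function.update (fl k x) i false) = 0 := by
    apply hF.eq_zero
    rw [← h0]
    exact hF.mono _ _ (upd_mono hyx i false)
  have h2 : F (Function.update (fl k x) i true) = 0 := by
    have := hk2.2
    unfold D at this
    rw [h1] at this
    linarith
  have h3 : F (Function.update z i true) = 0 := by
    apply hF.eq_zero
    rw [← h2]
    exact hF.mono _ _ (upd_mono hle i true)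
  have h4 : F (Function.update z i false) = 0 := by
    apply hF.eq_zero
    rw [← h3]
    exact hF.mono _ _ (upd_ft z i)
  unfold D
  rw [h3, h4]; ring

lemma kb_card {L : Finset ι} {ℓ : ℕ} {F : (ι → Bool) → ℝ} (hF : MB F) {i : ι}
    (hq : LD L ℓ (D i F)) {x : ι → Bool} (hx : D i F x = 1) : (KB L i F x).card ≤ ℓ := by
  apply face_card hq (x := x) (by rw [hx]; norm_num) _ (Finset.filter_subset _ _)
  intro z hz hzx
  obtain ⟨k, hk⟩ := Function.ne_iff.mp hzx
  have hkP : k ∈ KB L i F x := by
    by_contra hkP
    exact hk (hz k hkP)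
  have hk2 := (Finset.mem_filter.mp hkP).2
  have hzk : z k = true := by
    rw [hk2.1] at hk
    simpa using hk
  have hle : fl k x ≤ z := by
    intro j
    by_cases hj : j = k
    · subst hj; rw [hzk]; exact Bool.le_true _
    · unfold fl
      rw [Function.update_of_ne hj]
      by_cases hjP : j ∈ KB L i F x
      · have := (Finset.mem_filter.mp hjP).2.1
        rw [this]; exact Bool.false_le _
      · rw [hz j hjP]
  have hyx : x ≤ fl k x := by
    intro j
    unfold fl
    by_cases hj : j = k
    · subst hj; rw [hk2.1]; exact Bool.false_le _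
    · rw [Function.update_of_ne hj]
  have h0 := (hF.g_one hx).1
  have h1 : F (Function.update (fl k x) i true) = 1 := by
    apply hF.eq_one
    rw [← h0]
    exact hF.mono _ _ (upd_mono hyx i true)
  have h2 : F (Function.update (fl k x) i false) = 1 := by
    have := hk2.2
    unfold D at this
    rw [h1] at this
    linarith
  have h3 : F (Function.update z i false) = 1 := by
    apply hF.eq_one
    rw [← h2]
    exact hF.mono _ _ (upd_mono hle i false)
  have h4 : F (Function.update z i true) = 1 := by
    apply hF.eq_one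
    rw [← h3]
    exact hF.mono _ _ (upd_ft z i)
  unfold D
  rw [h3, h4]; ring

/-- indicator of sensitive ones -/
noncomputable def s1 (F : (ι → Bool) → ℝ) (k : ι) (x : ι → Bool) : ℝ :=
  if x k = true ∧ D k F x = 1 then 1 else 0

/-- indicator of sensitive zeros -/
noncomputable def s0 (F : (ι → Bool) → ℝ) (k : ι) (x : ι → Bool) : ℝ :=
  if x k = false ∧ D k F x = 1 then 1 else 0

lemma s1_nonneg (F : (ι → Bool) → ℝ) (k : ι) (x : ι → Bool) : 0 ≤ s1 F k x := by
  unfold s1; split_ifs <;> norm_num

lemma s0_nonneg (F : (ι → Bool) → ℝ) (k : ι) (x : ι → Bool) : 0 ≤ s0 F k x := by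
  unfold s0; split_ifs <;> norm_num

lemma s_add {F : (ι → Bool) → ℝ} (hF : MB F) (k : ι) (x : ι → Bool) :
    s1 F k x + s0 F k x = D k F x := by
  unfold s1 s0
  rcases hF.g01 k x with h | h <;> cases hx : x k <;> simp [h]

lemma fl_update_true {x : ι → Bool} {i k : ι} (hik : i ≠ k) (hi : x i = true) :
    Function.update (fl k x) i true = fl k x := by
  have : (fl k x) i = true := by unfold fl; rw [Function.update_of_ne hik, hi]
  rw [← this, Function.update_eq_self]

lemma fl_update_false {x : ι → Bool} {i k : ι} (hik : i ≠ k) (hi : x i = false) :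
    Function.update (fl k x) i false = fl k x := by
  have : (fl k x) i = false := by unfold fl; rw [Function.update_of_ne hik, hi]
  rw [← this, Function.update_eq_self]

lemma fl_of_true {x : ι → Bool} {k : ι} (h : x k = true) : fl k x = Function.update x k false := by
  unfold fl; rw [h]; rfl

lemma fl_of_false {x : ι → Bool} {k : ι} (h : x k = false) : fl k x = Function.update x k true := by
  unfold fl; rw [h]; rfl

lemma s1_card {L : Finset ι} {ℓ : ℕ} {F : (ι → Bool) → ℝ} (hF : MB F)
    (hq : ∀ i ∈ L, LD L ℓ (D i F)) (x : ι → Bool) : ∑ i ∈ L, s1 F i x ≤ ℓ + 1 := by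
  unfold s1
  rw [Finset.sum_ite, Finset.sum_const_zero, add_zero, Finset.sum_const, nsmul_eq_mul, mul_one]
  set Z := L.filter (fun i => x i = true ∧ D i F x = 1) with hZ
  by_cases hne : Z.Nonempty
  · obtain ⟨i, hi⟩ := hne
    have hi' := Finset.mem_filter.mp hi
    have hsub : Z.erase i ⊆ KT L i F x := by
      intro k hk
      rw [Finset.mem_erase] at hk
      have hk' := Finset.mem_filter.mp hk.2
      refine Finset.mem_filter.mpr ⟨hk'.1, hk'.2.1, ?_⟩
      have hF0 : F (fl k x) = 0 := by
        rw [fl_of_true hk'.2.1]; exact (hF.g_one hk'.2.2).2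
      have h1 : F (Function.update (fl k x) i true) = 0 := by
        rw [fl_update_true hk.1.symm hi'.2.1]; exact hF0
      have h2 : F (Function.update (fl k x) i false) = 0 := by
        apply hF.eq_zero; rw [← h1]; exact hF.mono _ _ (upd_ft _ i)
      unfold D
      rw [h1, h2]; ring
    have h1 := Finset.card_le_card hsub
    have h2 := kt_card hF (hq i hi'.1) hi'.2.2
    rw [Finset.card_erase_of_mem hi] at h1
    have : Z.card ≤ ℓ + 1 := by omega
    exact_mod_cast this
  · rw [Finset.not_nonempty_iff_eq_empty] at hne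
    rw [hne]; simp; positivity

lemma s0_card {L : Finset ι} {ℓ : ℕ} {F : (ι → Bool) → ℝ} (hF : MB F)
    (hq : ∀ i ∈ L, LD L ℓ (D i F)) (x : ι → Bool) : ∑ i ∈ L, s0 F i x ≤ ℓ + 1 := by
  unfold s0
  rw [Finset.sum_ite, Finset.sum_const_zero, add_zero, Finset.sum_const, nsmul_eq_mul, mul_one]
  set Z := L.filter (fun i => x i = false ∧ D i F x = 1) with hZ
  by_cases hne : Z.Nonempty
  · obtain ⟨i, hi⟩ := hne
    have hi' := Finset.mem_filter.mp hi
    have hsub : Z.erase i ⊆ KB L i F x := by
      intro k hk
      rw [Finset.mem_erase] at hk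
      have hk' := Finset.mem_filter.mp hk.2
      refine Finset.mem_filter.mpr ⟨hk'.1, hk'.2.1, ?_⟩
      have hF0 : F (fl k x) = 1 := by
        rw [fl_of_false hk'.2.1]; exact (hF.g_one hk'.2.2).1
      have h1 : F (Function.update (fl k x) i false) = 1 := by
        rw [fl_update_false hk.1.symm hi'.2.1]; exact hF0
      have h2 : F (Function.update (fl k x) i true) = 1 := by
        apply hF.eq_one; rw [← h1]; exact hF.mono _ _ (upd_ft _ i)
      unfold D
      rw [h1, h2]; ring
    have h1 := Finset.card_le_card hsub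
    have h2 := kb_card hF (hq i hi'.1) hi'.2.2
    rw [Finset.card_erase_of_mem hi] at h1
    have : Z.card ≤ ℓ + 1 := by omega
    exact_mod_cast this
  · rw [Finset.not_nonempty_iff_eq_empty] at hne
    rw [hne]; simp; positivity

/-- pairwise inequality -/
lemma pairwise_le {p : ι → ℝ} (hp : ∀ k, 3/8 ≤ p k ∧ p k ≤ 5/8) {F : (ι → Bool) → ℝ}
    (hF : MB F) (i k : ι) :
    Ex p (fun x => D i F x * (1 - D i F (fl k x)))
      ≤ (8/3) * Ex p (fun x => s1 F i x * s1 F k x + s0 F i x * s0 F k x) := by
  have hPV := pv_of_mid hp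
  have hpt : ∀ x, D i F x * (1 - D i F (fl k x))
      ≤ res i true (fun x => s1 F i x * s1 F k x) x
        + res i false (fun x => s0 F i x * s0 F k x) x := by
    intro x
    have hn1 : 0 ≤ res i true (fun x => s1 F i x * s1 F k x) x :=
      mul_nonneg (s1_nonneg _ _ _) (s1_nonneg _ _ _)
    have hn0 : 0 ≤ res i false (fun x => s0 F i x * s0 F k x) x :=
      mul_nonneg (s0_nonneg _ _ _) (s0_nonneg _ _ _)
    rcases hF.g01 i x with h | h
    · rw [h]; linarith
    · rcases hF.g01 i (fl k x) with h' | h'
      · have hik : i ≠ k := by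
          rintro rfl
          have : D i F (fl i x) = D i F x := ind_D i F x _
          rw [this, h] at h'
          norm_num at h'
        rw [h, h']
        obtain ⟨hx1, hx0⟩ := hF.g_one h
        cases hxk : x k
        · -- bottom
          rw [fl_of_false hxk] at h'
          have hcomm : ∀ b b', Function.update (Function.update x k b) i b'
              = Function.update (Function.update x i b') k b := fun b b' =>
            Function.update_comm hik.symm _ _ _
          have hup : x ≤ Function.update x k true := by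
            intro j; by_cases hj : j = k
            · subst hj; rw [hxk]; exact Bool.false_le _
            · rw [Function.update_of_ne hj]
          have e1 : F (Function.update (Function.update x k true) i true) = 1 := by
            apply hF.eq_one; rw [← hx1]; exact hF.mono _ _ (upd_mono hup i true)
          have e0 : F (Function.update (Function.update x k true) i false) = 1 := by
            unfold D at h'; rw [e1] at h'; linarith
          have hs : s0 F i (Function.update x i false) = 1 := by
            unfold s0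
            rw [if_pos]
            refine ⟨by simp, ?_⟩
            rw [ind_D i F x false]; exact h
          have hs' : s0 F k (Function.update x i false) = 1 := by
            unfold s0
            rw [if_pos]
            refine ⟨by rw [Function.update_of_ne hik.symm, hxk], ?_⟩
            unfold D
            rw [← hcomm true false, e0, ← hcomm false false]
            have : Function.update x k false = x := by rw [← hxk, Function.update_eq_self]
            rw [this, hx0]; ring
          have : res i false (fun x => s0 F i x * s0 F k x) x = 1 := by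
            show s0 F i (Function.update x i false) * s0 F k (Function.update x i false) = 1
            rw [hs, hs']; ring
          rw [this]; linarith
        · rw [fl_of_true hxk] at h'
          have hcomm : ∀ b b', Function.update (Function.update x k b) i b'
              = Function.update (Function.update x i b') k b := fun b b' =>
            Function.update_comm hik.symm _ _ _
          have hup : Function.update x k false ≤ x := by
            intro j; by_cases hj : j = k
            · subst hj; rw [hxk]; exact Bool.le_true _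
            · rw [Function.update_of_ne hj]
          have e1 : F (Function.update (Function.update x k false) i false) = 0 := by
            apply hF.eq_zero; rw [← hx0]; exact hF.mono _ _ (upd_mono hup i false)
          have e0 : F (Function.update (Function.update x k false) i true) = 0 := by
            unfold D at h'; rw [e1] at h'; linarith
          have hs : s1 F i (Function.update x i true) = 1 := by
            unfold s1
            rw [if_pos]
            refine ⟨by simp, ?_⟩
            rw [ind_D i F x true]; exact h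
          have hs' : s1 F k (Function.update x i true) = 1 := by
            unfold s1
            rw [if_pos]
            refine ⟨by rw [Function.update_of_ne hik.symm, hxk], ?_⟩
            unfold D
            rw [← hcomm false true, e0, ← hcomm true true]
            have : Function.update x k true = x := by rw [← hxk, Function.update_eq_self]
            rw [this, hx1]; ring
          have : res i true (fun x => s1 F i x * s1 F k x) x = 1 := by
            show s1 F i (Function.update x i true) * s1 F k (Function.update x i true) = 1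
            rw [hs, hs']; ring
          rw [this]; linarith
      · rw [h']; linarith
  have h1 := Ex_mono hPV hpt
  rw [Ex_add] at h1
  have hA := Ex_res_sum_le hp i (φ := fun x => s1 F i x * s1 F k x)
    (fun x => mul_nonneg (s1_nonneg _ _ _) (s1_nonneg _ _ _))
  have hB := Ex_res_sum_le hp i (φ := fun x => s0 F i x * s0 F k x)
    (fun x => mul_nonneg (s0_nonneg _ _ _) (s0_nonneg _ _ _))
  have hA0 : 0 ≤ Ex p (res i false (fun x => s1 F i x * s1 F k x)) :=
    Ex_nonneg hPV (fun x => mul_nonneg (s1_nonneg _ _ _) (s1_nonneg _ _ _))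
  have hB0 : 0 ≤ Ex p (res i true (fun x => s0 F i x * s0 F k x)) :=
    Ex_nonneg hPV (fun x => mul_nonneg (s0_nonneg _ _ _) (s0_nonneg _ _ _))
  rw [Ex_add]
  linarith

lemma sum_pair_le {p : ι → ℝ} (hp : ∀ k, 3/8 ≤ p k ∧ p k ≤ 5/8) {F : (ι → Bool) → ℝ}
    (hF : MB F) (A B : Finset ι) :
    ∑ i ∈ A, ∑ k ∈ B, Ex p (fun x => D i F x * (1 - D i F (fl k x)))
      ≤ (8/3) * Ex p (fun x => (∑ i ∈ A, s1 F i x) * (∑ k ∈ B, s1 F k x)
        + (∑ i ∈ A, s0 F i x) * (∑ k ∈ B, s0 F k x)) := by
  have h1 : ∑ i ∈ A, ∑ k ∈ B, Ex p (fun x => D i F x * (1 - D i F (fl k x)))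
      ≤ ∑ i ∈ A, ∑ k ∈ B, (8/3) * Ex p (fun x => s1 F i x * s1 F k x + s0 F i x * s0 F k x) := by
    apply Finset.sum_le_sum; intro i _
    apply Finset.sum_le_sum; intro k _
    exact pairwise_le hp hF i k
  refine le_trans h1 (le_of_eq ?_)
  have h2 : (fun x => (∑ i ∈ A, s1 F i x) * (∑ k ∈ B, s1 F k x)
        + (∑ i ∈ A, s0 F i x) * (∑ k ∈ B, s0 F k x))
      = fun x => ∑ i ∈ A, ∑ k ∈ B, (s1 F i x * s1 F k x + s0 F i x * s0 F k x) := by
    funext x
    rw [Finset.sum_mul_sum, Finset.sum_mul_sum, ← Finset.sum_add_distrib]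
    apply Finset.sum_congr rfl
    intro i _
    rw [← Finset.sum_add_distrib]
  rw [h2, Ex_sum, Finset.mul_sum]
  apply Finset.sum_congr rfl
  intro i _
  rw [Ex_sum, Finset.mul_sum]

/-- charging -/
lemma charge {p : ι → ℝ} (hp : ∀ k, 3/8 ≤ p k ∧ p k ≤ 5/8) {F : (ι → Bool) → ℝ}
    (hF : MB F) {L : Finset ι} {ℓ : ℕ} (hq : ∀ i ∈ L, LD L ℓ (D i F)) (H : Finset ι) :
    ∑ i ∈ L, ∑ k ∈ H, Ex p (fun x => D i F x * (1 - D i F (fl k x)))
      ≤ (8/3) * (ℓ + 1) * ∑ k ∈ H, Ex p (D k F) := by
  have hPV := pv_of_mid hp
  refine le_trans (sum_pair_le hp hF L H) ?_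
  rw [mul_assoc]
  apply mul_le_mul_of_nonneg_left _ (by norm_num : (0:ℝ) ≤ 8/3)
  rw [← Ex_sum, ← Ex_smul]
  apply Ex_mono hPV
  intro x
  have a1 := s1_card hF hq x
  have a0 := s0_card hF hq x
  have b1 : 0 ≤ ∑ k ∈ H, s1 F k x := Finset.sum_nonneg (fun k _ => s1_nonneg _ _ _)
  have b0 : 0 ≤ ∑ k ∈ H, s0 F k x := Finset.sum_nonneg (fun k _ => s0_nonneg _ _ _)
  have e : ∑ k ∈ H, D k F x = ∑ k ∈ H, s1 F k x + ∑ k ∈ H, s0 F k x := by
    rw [← Finset.sum_add_distrib]
    apply Finset.sum_congr rfl
    intro k _
    exact (s_add hF k x).symm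
  rw [e]
  have c1 := mul_le_mul_of_nonneg_right a1 b1
  have c0 := mul_le_mul_of_nonneg_right a0 b0
  linarith

lemma light_kill {p : ι → ℝ} (hp : PV p) {F : (ι → Bool) → ℝ}
    (hF : MB F) {L : Finset ι} {ℓ : ℕ} {i : ι} (hq : LD L ℓ (D i F)) :
    ∑ k ∈ L, Ex p (fun x => D i F x * (1 - D i F (fl k x))) ≤ 2 * ℓ * Ex p (D i F) := by
  rw [← Ex_sum, ← Ex_smul]
  apply Ex_mono hp
  intro x
  rcases hF.g01 i x with h | h
  · rw [h]; simp
  · rw [h]
    have h1 := kt_card hF hq h
    have h2 := kb_card hF hq h
    have e : ∑ k ∈ L, 1 * (1 - D i F (fl k x)) = ((KT L i F x).card : ℝ) + (KB L i F x).card := by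
      have e1 : ((KT L i F x).card : ℝ) = ∑ k ∈ L, (if x k = true ∧ D i F (fl k x) = 0 then (1:ℝ) else 0) := by
        unfold KT
        rw [Finset.card_filter]; push_cast; rfl
      have e2 : ((KB L i F x).card : ℝ) = ∑ k ∈ L, (if x k = false ∧ D i F (fl k x) = 0 then (1:ℝ) else 0) := by
        unfold KB
        rw [Finset.card_filter]; push_cast; rfl
      rw [e1, e2, ← Finset.sum_add_distrib]
      apply Finset.sum_congr rfl
      intro k _
      rcases hF.g01 i (fl k x) with h' | h' <;> rw [h'] <;> cases x k <;> simp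
    rw [e]
    have h1' : ((KT L i F x).card : ℝ) ≤ ℓ := by exact_mod_cast h1
    have h2' : ((KB L i F x).card : ℝ) ≤ ℓ := by exact_mod_cast h2
    linarith

/-- isoperimetry + light killers: heavy killers are many -/
lemma heavy_kill {p : ι → ℝ} (hp : ∀ k, 3/8 ≤ p k ∧ p k ≤ 5/8) {F : (ι → Bool) → ℝ}
    (hF : MB F) {H : Finset ι} {ℓ : ℕ} {i : ι} (hq : LD Hᶜ ℓ (D i F)) :
    Real.negMulLog (Ex p (D i F)) ≤ 2 * ℓ * Ex p (D i F)
      + ∑ k ∈ H, Ex p (fun x => D i F x * (1 - D i F (fl k x))) := by
  have h1 := iso hp (hF.g01 i)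
  have h2 := light_kill (pv_of_mid hp) hF hq
  have h3 : ∑ k, Ex p (fun x => D i F x * (1 - D i F (fl k x)))
      = ∑ k ∈ H, Ex p (fun x => D i F x * (1 - D i F (fl k x)))
      + ∑ k ∈ Hᶜ, Ex p (fun x => D i F x * (1 - D i F (fl k x))) :=
    (Finset.sum_add_sum_compl H _).symm
  linarith

lemma Ex_absD_le {p : ι → ℝ} (hp : ∀ k, 3/8 ≤ p k ∧ p k ≤ 5/8) {F : (ι → Bool) → ℝ}
    (hF : MB F) (i k : ι) :
    Ex p (fun x => |D k (D i F) x|) ≤ (8/3) * Ex p (fun x => D i F x * (1 - D i F (fl k x))) := by
  have hPV := pv_of_mid hp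
  rw [Ex_split k p (fun x => D i F x * (1 - D i F (fl k x)))]
  have e0 : res k false (fun x => D i F x * (1 - D i F (fl k x)))
      = fun x => res k false (D i F) x * (1 - res k true (D i F) x) := by
    funext x; unfold res fl; simp
  have e1 : res k true (fun x => D i F x * (1 - D i F (fl k x)))
      = fun x => res k true (D i F) x * (1 - res k false (D i F) x) := by
    funext x; unfold res fl; simp
  rw [e0, e1]
  have hpt : ∀ x, |D k (D i F) x| ≤ res k false (D i F) x * (1 - res k true (D i F) x)
      + res k true (D i F) x * (1 - res k false (D i F) x) := by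
    intro x
    have : D k (D i F) x = res k true (D i F) x - res k false (D i F) x := rfl
    rw [this]
    have h0 : res k false (D i F) x = 0 ∨ res k false (D i F) x = 1 := hF.g01 i _
    have h1 : res k true (D i F) x = 0 ∨ res k true (D i F) x = 1 := hF.g01 i _
    rcases h0 with h | h <;> rcases h1 with h' | h' <;> rw [h, h'] <;> norm_num
  have h := Ex_mono hPV hpt
  rw [Ex_add] at h
  have n0 : 0 ≤ Ex p (fun x => res k false (D i F) x * (1 - res k true (D i F) x)) := by
    apply Ex_nonneg hPV
    intro x
    exact mul_nonneg (hF.g_nonneg i _) (by have := hF.g_le_one i (Function.update x k true); unfold res; linarith)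
  have n1 : 0 ≤ Ex p (fun x => res k true (D i F) x * (1 - res k false (D i F) x)) := by
    apply Ex_nonneg hPV
    intro x
    exact mul_nonneg (hF.g_nonneg i _) (by have := hF.g_le_one i (Function.update x k false); unfold res; linarith)
  have := hp k
  nlinarith

/-- second derivative bound -/
lemma second_le {p : ι → ℝ} (hp : ∀ k, 3/8 ≤ p k ∧ p k ≤ 5/8) {F : (ι → Bool) → ℝ}
    (hF : MB F) {m : ℕ} (hq : ∀ i, LD univ m (D i F)) :
    ∑ i, ∑ k, Ex p (fun x => |D k (D i F) x|) ≤ 16 * (m + 1) ^ 2 := by
  have hPV := pv_of_mid hp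
  have h1 : ∑ i, ∑ k, Ex p (fun x => |D k (D i F) x|)
      ≤ ∑ i, ∑ k, (8/3) * Ex p (fun x => D i F x * (1 - D i F (fl k x))) := by
    apply Finset.sum_le_sum; intro i _
    apply Finset.sum_le_sum; intro k _
    exact Ex_absD_le hp hF i k
  refine le_trans h1 ?_
  simp_rw [← Finset.mul_sum]
  have h2 := sum_pair_le hp hF univ univ
  have h3 : Ex p (fun x => (∑ i, s1 F i x) * (∑ k, s1 F k x) + (∑ i, s0 F i x) * (∑ k, s0 F k x))
      ≤ 2 * (m + 1) ^ 2 := by
    have : Ex p (fun x => (∑ i, s1 F i x) * (∑ k, s1 F k x) + (∑ i, s0 F i x) * (∑ k, s0 F k x))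
      ≤ Ex p (fun _ => 2 * ((m:ℝ) + 1) ^ 2) := by
      apply Ex_mono hPV
      intro x
      have a1 := s1_card hF (fun i _ => hq i) x
      have a0 := s0_card hF (fun i _ => hq i) x
      have b1 : 0 ≤ ∑ k, s1 F k x := Finset.sum_nonneg (fun k _ => s1_nonneg _ _ _)
      have b0 : 0 ≤ ∑ k, s0 F k x := Finset.sum_nonneg (fun k _ => s0_nonneg _ _ _)
      nlinarith
    rwa [Ex_const] at this
  have hm : (0:ℝ) ≤ (m+1)^2 := by positivity
  nlinarith

end Pool.Agent.TH531.Fb
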