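import Pool.Agent.TH531.FbStage

set_option autoImplicit false
set_option linter.unusedSectionVars false
set_option linter.unnecessarySeqFocus false

open Finset

namespace Pool.Agent.TH531.Fb

variable {ι : Type*} [Fintype ι] [DecidableEq ι]

/-- data of a maximal light face -/
structure Face (F : (ι → Bool) → ℝ) (H : Finset ι) (i : ι) (l : List ι) : Prop where
  hi : i ∉ H
  light : ∀ k ∈ l, k ∉ H
  ne : ∃ x, Dl l (D i F) x ≠ 0
  max : LD Hᶜ l.length (D i F)

/-- the light variables relevant for `D i F` -/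
noncomputable def SS (F : (ι → Bool) → ℝ) (H : Finset ι) (i : ι) : Finset ι := by
  classical exact Hᶜ.filter (fun k => ∃ x, D k (D i F) x ≠ 0)

lemma mem_SS {F : (ι → Bool) → ℝ} {H : Finset ι} {i k : ι} :
    k ∈ SS F H i ↔ k ∉ H ∧ ∃ x, D k (D i F) x ≠ 0 := by
  classical
  unfold SS
  rw [Finset.mem_filter, Finset.mem_compl]

namespace Face

variable {F : (ι → Bool) → ℝ} {H : Finset ι} {i : ι} {l : List ι}

lemma nodup (hf : Face F H i l) : l.Nodup := by
  obtain ⟨x, hx⟩ := hf.ne
  exact nodup_of_Dl hx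

lemma card (hf : Face F H i l) : l.toFinset.card = l.length :=
  List.toFinset_card_of_nodup hf.nodup

lemma i_notMem (hf : Face F H i l) : i ∉ l.toFinset := by
  intro h
  obtain ⟨x, hx⟩ := hf.ne
  exact hx (Dl_of_ind_mem (List.mem_toFinset.mp h) (ind_D i F) x)

lemma sub (hf : Face F H i l) : l.toFinset ⊆ SS F H i := by
  intro k hk
  rw [List.mem_toFinset] at hk
  rw [mem_SS]
  refine ⟨hf.light k hk, ?_⟩
  by_contra hc
  push Not at hc
  obtain ⟨x, hx⟩ := hf.ne
  exact hx (Dl_of_ind_mem hk (ind_of_D hc) x)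

lemma q_ind (hf : Face F H i l) {k : ι} (hk : k ∉ H) : Ind k (Dl l (D i F)) := by
  apply ind_of_D
  intro x
  have := hf.max (k :: l) (by
    intro j hj
    rcases List.mem_cons.mp hj with h | h
    · subst h; exact Finset.mem_compl.mpr hk
    · exact Finset.mem_compl.mpr (hf.light j h)) (by simp) x
  exact this

end Face

lemma i_notMem_SS (F : (ι → Bool) → ℝ) (H : Finset ι) (i : ι) : i ∉ SS F H i := by
  rw [mem_SS]
  rintro ⟨_, x, hx⟩
  exact hx (D_of_ind (ind_D i F) x)

/-- the type event -/
def Ev (F : (ι → Bool) → ℝ) (i : ι) (l : List ι) (x : ι → Bool) : Prop :=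
  ∃ z, (∀ k, k ∉ l.toFinset → z k = x k) ∧ D i F z ≠ 0 ∧
    l.length < 2 * (l.toFinset.filter (fun k => z k = true)).card

open Classical in
/-- its indicator -/
noncomputable def E1 (F : (ι → Bool) → ℝ) (i : ι) (l : List ι) (x : ι → Bool) : ℝ :=
  if Ev F i l x then 1 else 0

lemma E1_nonneg (F : (ι → Bool) → ℝ) (i : ι) (l : List ι) (x : ι → Bool) : 0 ≤ E1 F i l x := by
  unfold E1; split_ifs <;> norm_num

lemma E1_le_one (F : (ι → Bool) → ℝ) (i : ι) (l : List ι) (x : ι → Bool) : E1 F i l x ≤ 1 := by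
  unfold E1; split_ifs <;> norm_num

lemma E1_ind_mem {F : (ι → Bool) → ℝ} {i : ι} {l : List ι} {k : ι} (hk : k ∈ l.toFinset) :
    Ind k (E1 F i l) := by
  intro x b
  have : Ev F i l (Function.update x k b) ↔ Ev F i l x := by
    constructor
    · rintro ⟨z, hz, h1, h2⟩
      refine ⟨z, fun j hj => ?_, h1, h2⟩
      have : j ≠ k := by rintro rfl; exact hj hk
      rw [hz j hj, Function.update_of_ne this]
    · rintro ⟨z, hz, h1, h2⟩
      refine ⟨z, fun j hj => ?_, h1, h2⟩
      have : j ≠ k := by rintro rfl; exact hj hk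
      rw [hz j hj, Function.update_of_ne this]
  unfold E1
  by_cases h : Ev F i l x
  · rw [if_pos h, if_pos (this.mpr h)]
  · rw [if_neg h, if_neg (fun h' => h (this.mp h'))]

lemma Ev_upd {F : (ι → Bool) → ℝ} {i : ι} {l : List ι} {k : ι} (hk : k ∉ l.toFinset)
    (hind : Ind k (D i F)) (x : ι → Bool) (b : Bool) (h : Ev F i l x) :
    Ev F i l (Function.update x k b) := by
  obtain ⟨z, hz, h1, h2⟩ := h
  refine ⟨Function.update z k b, ?_, ?_, ?_⟩
  · intro j hj
    by_cases hjk : j = k
    · subst hjk; simp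
    · rw [Function.update_of_ne hjk, Function.update_of_ne hjk]; exact hz j hj
  · rw [hind]; exact h1
  · have : (l.toFinset.filter (fun j => Function.update z k b j = true))
        = l.toFinset.filter (fun j => z j = true) := by
      apply Finset.filter_congr
      intro j hj
      have : j ≠ k := by rintro rfl; exact hk hj
      rw [Function.update_of_ne this]
    rw [this]; exact h2

lemma E1_ind_notMem {F : (ι → Bool) → ℝ} {i : ι} {l : List ι} {k : ι} (hk : k ∉ l.toFinset)
    (hind : Ind k (D i F)) : Ind k (E1 F i l) := by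
  intro x b
  have : Ev F i l (Function.update x k b) ↔ Ev F i l x := by
    constructor
    · intro h
      have := Ev_upd hk hind _ (x k) h
      rwa [Function.update_idem, Function.update_eq_self] at this
    · intro h; exact Ev_upd hk hind _ b h
  unfold E1
  by_cases h : Ev F i l x
  · rw [if_pos h, if_pos (this.mpr h)]
  · rw [if_neg h, if_neg (fun h' => h (this.mp h'))]

/-- the lower bound constant -/
noncomputable def kap (lam : ℕ) : ℝ := (3/8) * (9/16) ^ lam

lemma kap_pos (lam : ℕ) : 0 < kap lam := by unfold kap; positivity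

lemma kap_le (lam : ℕ) : kap lam ≤ 3/8 := by
  unfold kap
  have : ((9:ℝ)/16) ^ lam ≤ 1 := pow_le_one₀ (by norm_num) (by norm_num)
  linarith

lemma kap_half {lam c : ℕ} (hc : 2 * c ≤ lam) : kap lam ≤ (3/8) ^ (c + 1) := by
  unfold kap
  rw [pow_succ, mul_comm]
  apply mul_le_mul_of_nonneg_right _ (by norm_num)
  calc ((9:ℝ)/16) ^ lam ≤ (9/16) ^ (2 * c) := by
        apply pow_le_pow_of_le_one (by norm_num) (by norm_num) hc
    _ = (81/256) ^ c := by rw [pow_mul]; norm_num
    _ ≤ (3/8) ^ c := pow_le_pow_left₀ (by norm_num) (by norm_num) c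

lemma kap_full {lam c : ℕ} (hc : c ≤ lam) : kap lam ≤ (5/8) ^ (c + 1) := by
  unfold kap
  rw [pow_succ, mul_comm]
  apply mul_le_mul _ (by norm_num) (by norm_num) (by positivity)
  calc ((9:ℝ)/16) ^ lam ≤ (9/16) ^ c := by
        apply pow_le_pow_of_le_one (by norm_num) (by norm_num) hc
    _ ≤ (5/8) ^ c := pow_le_pow_left₀ (by norm_num) (by norm_num) c

section bounds

variable {F : (ι → Bool) → ℝ} {H : Finset ι} {i : ι} {l : List ι}

/-- basic lower bounds for `e` and `1-e` at a point with a witness -/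
lemma e_bounds (hF : MB F) (hf : Face F H i l) {p : ι → ℝ} (hp : PV p) {b : ℝ}
    (hb : ∀ k ∈ insert i l.toFinset, p k = b) {x z : ι → Bool}
    (hz : ∀ k, k ∉ l.toFinset → z k = x k) (hg : D i F z ≠ 0) :
    b ^ ((l.toFinset.filter (fun k => z k = true)).card + 1) ≤ cE p (insert i l.toFinset) F x ∧
    (1 - b) ^ (l.length - (l.toFinset.filter (fun k => z k = true)).card + 1)
      ≤ 1 - cE p (insert i l.toFinset) F x := by
  have hi := hf.i_notMem
  have hg1 : D i F z = 1 := by
    rcases hF.g01 i z with h | h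
    · exact absurd h hg
    · exact h
  obtain ⟨h1, h0⟩ := hF.g_one hg1
  have hfilt : ∀ b' : Bool, ∀ c : Bool, l.toFinset.filter (fun k => Function.update z i b' k = c)
      = l.toFinset.filter (fun k => z k = c) := by
    intro b' c
    apply Finset.filter_congr
    intro j hj
    have : j ≠ i := by rintro rfl; exact hi hj
    rw [Function.update_of_ne this]
  constructor
  · have := lb_one hp hF (insert i l.toFinset) hb x (Function.update z i true) (by
      intro k hk
      rw [Finset.mem_insert, not_or] at hk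
      rw [Function.update_of_ne hk.1]; exact hz k hk.2) h1
    rw [Finset.filter_insert, if_pos (by simp), hfilt, Finset.card_insert_of_notMem] at this
    · exact this
    · intro h; exact hi (Finset.mem_filter.mp h).1
  · have := lb_zero hp hF (insert i l.toFinset) hb x (Function.update z i false) (by
      intro k hk
      rw [Finset.mem_insert, not_or] at hk
      rw [Function.update_of_ne hk.1]; exact hz k hk.2) h0
    rw [Finset.filter_insert, if_pos (by simp), hfilt, Finset.card_insert_of_notMem] at this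
    · have hc : (l.toFinset.filter (fun k => z k = false)).card
          = l.length - (l.toFinset.filter (fun k => z k = true)).card := by
        have h2 := Finset.card_filter_add_card_filter_not (s := l.toFinset) (fun k => z k = true)
        rw [hf.card] at h2
        have h3 : (l.toFinset.filter (fun k => ¬ z k = true))
            = l.toFinset.filter (fun k => z k = false) := by
          apply Finset.filter_congr; intro j _; simp
        rw [h3] at h2
        omega
      rw [hc] at this
      exact this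
    · intro h; exact hi (Finset.mem_filter.mp h).1

lemma exists_wit (hf : Face F H i l) {x : ι → Bool} (hq : Dl l (D i F) x ≠ 0) :
    ∃ z, (∀ k, k ∉ l.toFinset → z k = x k) ∧ D i F z ≠ 0 := by
  obtain ⟨z, hz, hg⟩ := Dl_exists hq
  exact ⟨z, fun k hk => hz k (fun h => hk (List.mem_toFinset.mpr h)), hg⟩

lemma cnt_le (hf : Face F H i l) (z : ι → Bool) :
    (l.toFinset.filter (fun k => z k = true)).card ≤ l.length := by
  rw [← hf.card]; exact Finset.card_filter_le _ _

lemma L1 (hF : MB F) (hf : Face F H i l) {p : ι → ℝ} (hp : PV p) {b : ℝ}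
    (hb : ∀ k ∈ insert i l.toFinset, p k = b) (hb1 : b ≤ 5/8) {x : ι → Bool}
    (hE : Ev F i l x) : kap l.length ≤ 1 - cE p (insert i l.toFinset) F x := by
  obtain ⟨z, hz, hg, hc⟩ := hE
  refine le_trans ?_ (e_bounds hF hf hp hb hz hg).2
  have h1 := cnt_le hf z
  refine le_trans (kap_half (c := l.length - (l.toFinset.filter (fun k => z k = true)).card)
    (by omega)) ?_
  exact pow_le_pow_left₀ (by norm_num) (by linarith) _

lemma L2 (hF : MB F) (hf : Face F H i l) {p : ι → ℝ} (hp : PV p) {b : ℝ}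
    (hb : ∀ k ∈ insert i l.toFinset, p k = b) (hb1 : 3/8 ≤ b) {x : ι → Bool}
    (hE : ¬ Ev F i l x) (hq : Dl l (D i F) x ≠ 0) :
    kap l.length ≤ cE p (insert i l.toFinset) F x := by
  obtain ⟨z, hz, hg⟩ := exists_wit hf hq
  have hc : ¬ l.length < 2 * (l.toFinset.filter (fun k => z k = true)).card :=
    fun hc => hE ⟨z, hz, hg, hc⟩
  refine le_trans ?_ (e_bounds hF hf hp hb hz hg).1
  refine le_trans (kap_half (c := (l.toFinset.filter (fun k => z k = true)).card)
    (by omega)) ?_
  exact pow_le_pow_left₀ (by norm_num) hb1 _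

lemma L3 (hF : MB F) (hf : Face F H i l) {p : ι → ℝ} (hp : PV p)
    (hb : ∀ k ∈ insert i l.toFinset, p k = 5/8) {x : ι → Bool}
    (hq : Dl l (D i F) x ≠ 0) :
    kap l.length ≤ cE p (insert i l.toFinset) F x := by
  obtain ⟨z, hz, hg⟩ := exists_wit hf hq
  exact le_trans (kap_full (cnt_le hf z)) (e_bounds hF hf hp hb hz hg).1

lemma L4 (hF : MB F) (hf : Face F H i l) {p : ι → ℝ} (hp : PV p)
    (hb : ∀ k ∈ insert i l.toFinset, p k = 3/8) {x : ι → Bool}
    (hq : Dl l (D i F) x ≠ 0) :
    kap l.length ≤ 1 - cE p (insert i l.toFinset) F x := by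
  obtain ⟨z, hz, hg⟩ := exists_wit hf hq
  have := (e_bounds hF hf hp hb hz hg).2
  refine le_trans ?_ this
  have e : (1 - 3/8 : ℝ) = 5/8 := by norm_num
  rw [e]
  exact kap_full (by omega)

end bounds

/-- variance of the conditional expectation -/
noncomputable def VV (F : (ι → Bool) → ℝ) (p : ι → ℝ) (Q : Finset ι) (x : ι → Bool) : ℝ :=
  cE p Q F x * (1 - cE p Q F x)

lemma VV_nonneg {F : (ι → Bool) → ℝ} (hF : MB F) {p : ι → ℝ} (hp : PV p) (Q : Finset ι)
    (x : ι → Bool) : 0 ≤ VV F p Q x :=
  mul_nonneg (cE_nonneg hp Q hF.nonneg x) (by linarith [cE_le_one hp Q hF.le_one x])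

lemma var_lb {e κ : ℝ} (hκ : 0 < κ) (hκ1 : κ ≤ 3/8) (h1 : κ ≤ e) (h2 : κ ≤ 1 - e) :
    κ / 2 ≤ e * (1 - e) := by
  nlinarith

lemma flip_alg {e0 e1 κ : ℝ} (hκ : 0 < κ) (hκ1 : κ ≤ 3/8) (h01 : e0 ≤ e1)
    (h0n : 0 ≤ e0) (h1n : e1 ≤ 1)
    (h : (κ ≤ 1 - e1 ∧ κ ≤ e0) ∨ (κ ≤ 1 - e0 ∧ κ ≤ e1)) :
    1 ≤ (4/κ) * (e0 * (1 - e0) + e1 * (1 - e1)) + 2 * (e1 - e0) := by
  have hV0 : 0 ≤ e0 * (1 - e0) := mul_nonneg h0n (by linarith)
  have hV1 : 0 ≤ e1 * (1 - e1) := mul_nonneg (by linarith) (by linarith)
  have key : κ / 4 ≤ e0 * (1 - e0) + e1 * (1 - e1) →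
      1 ≤ (4/κ) * (e0 * (1 - e0) + e1 * (1 - e1)) + 2 * (e1 - e0) := by
    intro hk
    have : (4/κ) * (κ/4) ≤ (4/κ) * (e0 * (1 - e0) + e1 * (1 - e1)) :=
      mul_le_mul_of_nonneg_left hk (by positivity)
    have e : (4/κ) * (κ/4) = 1 := by field_simp
    linarith
  rcases h with ⟨h1, h2⟩ | ⟨h1, h2⟩
  · apply key
    have := var_lb hκ hκ1 h2 (by linarith)
    linarith
  · by_cases hc0 : 1/4 ≤ e0
    · apply key
      have : κ / 4 ≤ e0 * (1 - e0) := by
        by_cases h12 : e0 ≤ 1/2
        · nlinarith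
        · nlinarith
      linarith
    · by_cases hc1 : e1 ≤ 3/4
      · apply key
        have : κ / 4 ≤ e1 * (1 - e1) := by
          by_cases h12 : e1 ≤ 1/2
          · nlinarith
          · nlinarith
        linarith
      · have : 0 ≤ (4/κ) * (e0 * (1 - e0) + e1 * (1 - e1)) :=
          mul_nonneg (by positivity) (by linarith)
        linarith

section flips

variable {F : (ι → Bool) → ℝ} {H : Finset ι} {i : ι} {l : List ι}

/-- pointwise flip bound -/
lemma flip_pt (hF : MB F) (hf : Face F H i l) {a t : ℝ} (ha : |a| ≤ 1/8) (ht : |t| ≤ 1/8)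
    {k : ι} (hk : k ∈ SS F H i) (hkl : k ∉ l.toFinset) (x : ι → Bool) :
    nz (Dl l (D i F)) x * |D k (E1 F i l) x|
      ≤ (4 / kap l.length) * (res k false (VV F (pH H a t) (insert i l.toFinset)) x
        + res k true (VV F (pH H a t) (insert i l.toFinset)) x)
        + 2 * D k (cE (pH H a t) (insert i l.toFinset) F) x := by
  have hmid := pH_mid (H := H) ha ht
  have hPV := pv_of_mid hmid
  set p := pH H a t with hp
  set Q := insert i l.toFinset with hQ
  have hki : k ≠ i := by
    rintro rfl; exact i_notMem_SS F H k hk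
  have hkQ : k ∉ Q := by
    rw [hQ, Finset.mem_insert, not_or]; exact ⟨hki, hkl⟩
  have hkH : k ∉ H := (mem_SS.mp hk).1
  have hbQ : ∀ j ∈ insert i l.toFinset, p j = 1/2 + t := by
    intro j hj
    have : j ∉ H := by
      rcases Finset.mem_insert.mp hj with h | h
      · rw [h]; exact hf.hi
      · exact hf.light j (List.mem_toFinset.mp h)
    rw [hp]; unfold pH; rw [if_neg this]
  rw [abs_le] at ht
  have hV0 : 0 ≤ res k false (VV F p Q) x := VV_nonneg hF hPV Q _
  have hV1 : 0 ≤ res k true (VV F p Q) x := VV_nonneg hF hPV Q _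
  have hκ := kap_pos l.length
  have hmono : cE p Q F (Function.update x k false) ≤ cE p Q F (Function.update x k true) := by
    have h1 : D k (cE p Q F) x = cE p Q (D k F) x := by rw [D_cE hkQ]
    have h2 : 0 ≤ cE p Q (D k F) x := cE_nonneg hPV Q (hF.g_nonneg k) x
    rw [← h1] at h2
    have h3 : D k (cE p Q F) x = cE p Q F (Function.update x k true)
      - cE p Q F (Function.update x k false) := rfl
    linarith
  have hDe : 0 ≤ D k (cE p Q F) x := by unfold D; linarith
  have hRHS : 0 ≤ (4 / kap l.length) * (res k false (VV F p Q) x + res k true (VV F p Q) x)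
        + 2 * D k (cE p Q F) x := by positivity
  unfold nz
  split_ifs with hq
  · rw [one_mul]
    have hqb : ∀ b, Dl l (D i F) (Function.update x k b) ≠ 0 := by
      intro b; rw [hf.q_ind hkH]; exact hq
    by_cases hE1 : Ev F i l (Function.update x k true)
    · by_cases hE0 : Ev F i l (Function.update x k false)
      · have : D k (E1 F i l) x = 0 := by
          unfold D E1; rw [if_pos hE1, if_pos hE0]; ring
        rw [this, abs_zero]; exact hRHS
      · have : D k (E1 F i l) x = 1 := by
          unfold D E1; rw [if_pos hE1, if_neg hE0]; ring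
        rw [this, abs_one]
        apply flip_alg hκ (kap_le _) hmono (cE_nonneg hPV Q hF.nonneg _)
          (cE_le_one hPV Q hF.le_one _)
        left
        exact ⟨L1 hF hf hPV hbQ (by linarith) hE1, L2 hF hf hPV hbQ (by linarith) hE0 (hqb _)⟩
    · by_cases hE0 : Ev F i l (Function.update x k false)
      · have : D k (E1 F i l) x = -1 := by
          unfold D E1; rw [if_neg hE1, if_pos hE0]; ring
        rw [this, abs_neg, abs_one]
        apply flip_alg hκ (kap_le _) hmono (cE_nonneg hPV Q hF.nonneg _)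
          (cE_le_one hPV Q hF.le_one _)
        right
        exact ⟨L1 hF hf hPV hbQ (by linarith) hE0, L2 hF hf hPV hbQ (by linarith) hE1 (hqb _)⟩
      · have : D k (E1 F i l) x = 0 := by
          unfold D E1; rw [if_neg hE1, if_neg hE0]; ring
        rw [this, abs_zero]; exact hRHS
  · rw [zero_mul]; exact hRHS

/-- flip bound in expectation -/
lemma flip_ex (hF : MB F) (hf : Face F H i l) {a t : ℝ} (ha : |a| ≤ 1/8) (ht : |t| ≤ 1/8)
    {k : ι} (hk : k ∈ SS F H i) :
    Ex (pH H a t) (fun x => nz (Dl l (D i F)) x * |D k (E1 F i l) x|)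
      ≤ (5 / kap l.length) * ∑ j ∈ insert i (SS F H i), Ex (pH H a t) (D j F) := by
  have hmid := pH_mid (H := H) ha ht
  have hPV := pv_of_mid hmid
  have hκ := kap_pos l.length
  have hκ1 := kap_le l.length
  have hM : ∀ j, 0 ≤ Ex (pH H a t) (D j F) := fun j => Ex_nonneg hPV (hF.g_nonneg j)
  have hsum0 : 0 ≤ ∑ j ∈ insert i (SS F H i), Ex (pH H a t) (D j F) :=
    Finset.sum_nonneg (fun j _ => hM j)
  by_cases hkl : k ∈ l.toFinset
  · have : (fun x => nz (Dl l (D i F)) x * |D k (E1 F i l) x|) = fun _ => 0 := by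
      funext x
      rw [D_of_ind (E1_ind_mem hkl), abs_zero, mul_zero]
    rw [this, Ex_const]
    positivity
  · have hki : k ≠ i := by
      rintro rfl; exact i_notMem_SS F H k hk
    have hkQ : k ∉ insert i l.toFinset := by
      rw [Finset.mem_insert, not_or]; exact ⟨hki, hkl⟩
    have h1 := Ex_mono hPV (flip_pt hF hf ha ht hk hkl)
    rw [Ex_add, Ex_smul, Ex_add, Ex_smul] at h1
    have h2 := Ex_res_sum_le hmid k (φ := VV F (pH H a t) (insert i l.toFinset))
      (VV_nonneg hF hPV _)
    have h3 : Ex (pH H a t) (VV F (pH H a t) (insert i l.toFinset))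
        ≤ (1/4) * ∑ j ∈ insert i l.toFinset, Ex (pH H a t) (D j F) := poincare hPV hF _
    have h4 : Ex (pH H a t) (D k (cE (pH H a t) (insert i l.toFinset) F))
        = Ex (pH H a t) (D k F) := by
      rw [D_cE hkQ, Ex_cE]
    rw [h4] at h1
    have h5 : ∑ j ∈ insert i l.toFinset, Ex (pH H a t) (D j F)
        ≤ ∑ j ∈ insert i (SS F H i), Ex (pH H a t) (D j F) := by
      apply Finset.sum_le_sum_of_subset_of_nonneg
      · exact Finset.insert_subset_insert i hf.sub
      · intro j _ _; exact hM j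
    have h6 : Ex (pH H a t) (D k F) ≤ ∑ j ∈ insert i (SS F H i), Ex (pH H a t) (D j F) := by
      apply Finset.single_le_sum (f := fun j => Ex (pH H a t) (D j F)) (fun j _ => hM j)
      exact Finset.mem_insert_of_mem hk
    set Sg := ∑ j ∈ insert i (SS F H i), Ex (pH H a t) (D j F) with hSg
    have h7 : (4 / kap l.length) * (Ex (pH H a t) (res k false (VV F (pH H a t) (insert i l.toFinset)))
        + Ex (pH H a t) (res k true (VV F (pH H a t) (insert i l.toFinset))))
        ≤ (4 / kap l.length) * ((8/3) * ((1/4) * Sg)) := by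
      apply mul_le_mul_of_nonneg_left _ (by positivity)
      linarith
    have h8 : 2 * Sg ≤ (2 / kap l.length) * Sg := by
      apply mul_le_mul_of_nonneg_right _ hsum0
      rw [le_div_iff₀ hκ]; linarith
    have e : (4 / kap l.length) * ((8/3) * ((1/4) * Sg)) + (2 / kap l.length) * Sg
        = ((14/3) / kap l.length) * Sg := by ring
    have h9 : ((14/3) / kap l.length) * Sg ≤ (5 / kap l.length) * Sg := by
      apply mul_le_mul_of_nonneg_right _ hsum0
      apply div_le_div_of_nonneg_right _ hκ.le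
      norm_num
    linarith

end flips

end Pool.Agent.TH531.Fb
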