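import Pool.Agent.TH531.FbOS

set_option autoImplicit false
set_option linter.unusedSectionVars false
set_option linter.unnecessarySeqFocus false

open Finset

namespace Pool.Agent.TH531.Fb

variable {ι : Type*} [Fintype ι] [DecidableEq ι]

lemma count_near (N : ℕ) {h d c t0 : ℝ} (hh : 0 < h) (hd : 0 < d) :
    (((range N).filter (fun r : ℕ => |c - (t0 + r * h)| < d)).card : ℝ) ≤ 2 * d / h + 1 := by
  set s := (range N).filter (fun r : ℕ => |c - (t0 + r * h)| < d) with hs
  by_cases hne : s.Nonempty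
  · set j0 := s.min' hne with hj0
    have hj0s : j0 ∈ s := Finset.min'_mem s hne
    have hsub : s ⊆ Finset.Ico j0 (j0 + ⌈2 * d / h⌉₊) := by
      intro j hj
      have h1 : j0 ≤ j := Finset.min'_le s j hj
      have a1 := (Finset.mem_filter.mp hj).2
      have a0 := (Finset.mem_filter.mp hj0s).2
      rw [abs_lt] at a1 a0
      have h2 : ((j:ℝ) - j0) * h < 2 * d := by nlinarith [a1.1, a1.2, a0.1, a0.2]
      have h3 : (j:ℝ) - j0 < 2 * d / h := by rw [lt_div_iff₀ hh]; exact h2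
      rw [Finset.mem_Ico]
      refine ⟨h1, ?_⟩
      have h4 : (j:ℝ) - j0 < ⌈2 * d / h⌉₊ := lt_of_lt_of_le h3 (Nat.le_ceil _)
      have h5 : (j:ℝ) < ((j0 + ⌈2 * d / h⌉₊ : ℕ) : ℝ) := by push_cast; linarith
      exact_mod_cast h5
    have h6 := Finset.card_le_card hsub
    rw [Nat.card_Ico, Nat.add_sub_cancel_left] at h6
    have h7 : (s.card : ℝ) ≤ ⌈2 * d / h⌉₊ := by exact_mod_cast h6
    have h8 := Nat.ceil_lt_add_one (show (0:ℝ) ≤ 2 * d / h by positivity)
    linarith
  · rw [Finset.not_nonempty_iff_eq_empty] at hne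
    rw [hne]; simp; positivity

section osa

variable {F : (ι → Bool) → ℝ} {H : Finset ι} {i : ι} {l : List ι}

lemma nz_const (hf : Face F H i l) (a t : ℝ) :
    Ex (pH H a t) (nz (Dl l (D i F))) = Ex (pH H a 0) (nz (Dl l (D i F))) := by
  apply Ex_congr_p
  intro k hk
  apply nz_ind
  apply hf.q_ind
  intro hkH
  apply hk
  unfold pH
  rw [if_pos hkH, if_pos hkH]

lemma bQ (hf : Face F H i l) (a t : ℝ) : ∀ j ∈ insert i l.toFinset, pH H a t j = 1/2 + t := by
  intro j hj
  have : j ∉ H := by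
    rcases Finset.mem_insert.mp hj with h | h
    · rw [h]; exact hf.hi
    · exact hf.light j (List.mem_toFinset.mp h)
  unfold pH; rw [if_neg this]

lemma sum_Q_le (hF : MB F) (hf : Face F H i l) {p : ι → ℝ} (hp : PV p) :
    ∑ j ∈ insert i l.toFinset, Ex p (D j F) ≤ ∑ j ∈ insert i (SS F H i), Ex p (D j F) := by
  apply Finset.sum_le_sum_of_subset_of_nonneg
  · exact Finset.insert_subset_insert i hf.sub
  · intro j _ _; exact Ex_nonneg hp (hF.g_nonneg j)

lemma os_top (hF : MB F) (hf : Face F H i l) {a : ℝ} (ha : |a| ≤ 1/8) :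
    Ex (pH H a (1/8)) (fun x => nz (Dl l (D i F)) x * E1 F i l x)
      ≤ (1 / (2 * kap l.length)) * ∑ j ∈ insert i (SS F H i), Ex (pH H a (1/8)) (D j F) := by
  have hPV := pv_of_mid (pH_mid (H := H) ha (show |(1/8:ℝ)| ≤ 1/8 by norm_num))
  have hκ := kap_pos l.length
  have hb := bQ hf a (1/8)
  have hb' : ∀ j ∈ insert i l.toFinset, pH H a (1/8) j = 5/8 := by
    intro j hj; rw [hb j hj]; norm_num
  have hpt : ∀ x, nz (Dl l (D i F)) x * E1 F i l x
      ≤ (2 / kap l.length) * (cE (pH H a (1/8)) (insert i l.toFinset) F x *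
        (1 - cE (pH H a (1/8)) (insert i l.toFinset) F x)) := by
    intro x
    have hV := VV_nonneg hF hPV (insert i l.toFinset) x
    unfold VV at hV
    have hR := mul_nonneg (show (0:ℝ) ≤ 2 / kap l.length by positivity) hV
    unfold nz E1
    split_ifs with hq hE
    · have h1 := L1 hF hf hPV hb' (le_refl _) hE
      have h3 := L3 hF hf hPV hb' hq
      have h4 := var_lb hκ (kap_le _) h3 h1
      have : (2 / kap l.length) * (kap l.length / 2) ≤ (2 / kap l.length) *
        (cE (pH H a (1/8)) (insert i l.toFinset) F x *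
        (1 - cE (pH H a (1/8)) (insert i l.toFinset) F x)) :=
        mul_le_mul_of_nonneg_left h4 (by positivity)
      have e : (2 / kap l.length) * (kap l.length / 2) = 1 := by field_simp
      linarith
    all_goals simpa using hR
  have h1 := Ex_mono hPV hpt
  rw [Ex_smul] at h1
  have h2 := poincare hPV hF (insert i l.toFinset)
  have h3 := sum_Q_le hF hf hPV
  refine le_trans h1 ?_
  calc (2 / kap l.length) * Ex (pH H a (1/8)) (fun x =>
        cE (pH H a (1/8)) (insert i l.toFinset) F x *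
        (1 - cE (pH H a (1/8)) (insert i l.toFinset) F x))
      ≤ (2 / kap l.length) * ((1/4) * ∑ j ∈ insert i (SS F H i), Ex (pH H a (1/8)) (D j F)) := by
        apply mul_le_mul_of_nonneg_left _ (by positivity); linarith
    _ = _ := by field_simp; ring

lemma os_bot (hF : MB F) (hf : Face F H i l) {a : ℝ} (ha : |a| ≤ 1/8) :
    Ex (pH H a (-1/8)) (fun x => nz (Dl l (D i F)) x * (1 - E1 F i l x))
      ≤ (1 / (2 * kap l.length)) * ∑ j ∈ insert i (SS F H i), Ex (pH H a (-1/8)) (D j F) := by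
  have hPV := pv_of_mid (pH_mid (H := H) ha (show |(-1/8:ℝ)| ≤ 1/8 by
    rw [abs_le]; constructor <;> norm_num))
  have hκ := kap_pos l.length
  have hb := bQ hf a (-1/8)
  have hb' : ∀ j ∈ insert i l.toFinset, pH H a (-1/8) j = 3/8 := by
    intro j hj; rw [hb j hj]; norm_num
  have hpt : ∀ x, nz (Dl l (D i F)) x * (1 - E1 F i l x)
      ≤ (2 / kap l.length) * (cE (pH H a (-1/8)) (insert i l.toFinset) F x *
        (1 - cE (pH H a (-1/8)) (insert i l.toFinset) F x)) := by
    intro x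
    have hV := VV_nonneg hF hPV (insert i l.toFinset) x
    unfold VV at hV
    have hR := mul_nonneg (show (0:ℝ) ≤ 2 / kap l.length by positivity) hV
    unfold nz E1
    split_ifs with hq hE hE
    · simpa using hR
    · have h1 := L2 hF hf hPV hb' (le_refl _) hE hq
      have h3 := L4 hF hf hPV hb' hq
      have h4 := var_lb hκ (kap_le _) h1 h3
      have : (2 / kap l.length) * (kap l.length / 2) ≤ (2 / kap l.length) *
        (cE (pH H a (-1/8)) (insert i l.toFinset) F x *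
        (1 - cE (pH H a (-1/8)) (insert i l.toFinset) F x)) :=
        mul_le_mul_of_nonneg_left h4 (by positivity)
      have e : (2 / kap l.length) * (kap l.length / 2) = 1 := by field_simp
      linarith
    all_goals simpa using hR
  have h1 := Ex_mono hPV hpt
  rw [Ex_smul] at h1
  have h2 := poincare hPV hF (insert i l.toFinset)
  have h3 := sum_Q_le hF hf hPV
  refine le_trans h1 ?_
  calc (2 / kap l.length) * Ex (pH H a (-1/8)) (fun x =>
        cE (pH H a (-1/8)) (insert i l.toFinset) F x *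
        (1 - cE (pH H a (-1/8)) (insert i l.toFinset) F x))
      ≤ (2 / kap l.length) * ((1/4) * ∑ j ∈ insert i (SS F H i), Ex (pH H a (-1/8)) (D j F)) := by
        apply mul_le_mul_of_nonneg_left _ (by positivity); linarith
    _ = _ := by field_simp; ring

lemma D_phi (hf : Face F H i l) {k : ι} (hk : k ∉ H) (x : ι → Bool) :
    D k (fun x => nz (Dl l (D i F)) x * E1 F i l x) x
      = nz (Dl l (D i F)) x * D k (E1 F i l) x := by
  have h := nz_ind (hf.q_ind hk)
  show nz (Dl l (D i F)) (Function.update x k true) * E1 F i l (Function.update x k true)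
    - nz (Dl l (D i F)) (Function.update x k false) * E1 F i l (Function.update x k false)
    = nz (Dl l (D i F)) x * (E1 F i l (Function.update x k true)
      - E1 F i l (Function.update x k false))
  rw [h, h]; ring

lemma D_phi_notMem (hf : Face F H i l) {k : ι} (hk : k ∉ H) (hkS : k ∉ SS F H i)
    (x : ι → Bool) : D k (fun x => nz (Dl l (D i F)) x * E1 F i l x) x = 0 := by
  rw [D_phi hf hk]
  have hind : Ind k (D i F) := by
    apply ind_of_D
    intro y
    by_contra hc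
    exact hkS (mem_SS.mpr ⟨hk, y, hc⟩)
  have hkl : k ∉ l.toFinset := fun h => hkS (hf.sub h)
  rw [D_of_ind (E1_ind_notMem hkl hind), mul_zero]

/-- total flip rate -/
noncomputable def FR (F : (ι → Bool) → ℝ) (H : Finset ι) (i : ι) (l : List ι) (a t : ℝ) : ℝ :=
  ∑ k ∈ SS F H i, Ex (pH H a t) (fun x => nz (Dl l (D i F)) x * |D k (E1 F i l) x|)

lemma os_path (hf : Face F H i l) {a : ℝ} (ha : |a| ≤ 1/8) {N2 : ℕ}
    (hN2 : 0 < N2) :
    Ex (pH H a (-1/8)) (fun x => nz (Dl l (D i F)) x * E1 F i l x)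
      ≤ Ex (pH H a (1/8)) (fun x => nz (Dl l (D i F)) x * E1 F i l x)
        + (1 / (4 * N2)) * ∑ r ∈ range N2, FR F H i l a (tg N2 r)
        + (Fintype.card ι) ^ 2 / (4 * N2) := by
  have hNr : (0:ℝ) < N2 := by exact_mod_cast hN2
  set φ : (ι → Bool) → ℝ := fun x => nz (Dl l (D i F)) x * E1 F i l x with hφ
  set a' : ι → ℝ := fun k => if k ∈ H then 1/2 + a else 1/2 with ha'
  set b : ι → ℝ := fun k => if k ∈ H then 0 else 1 with hb
  have hPP : ∀ t, PP a' b t = pH H a t := by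
    intro t; funext k
    unfold PP pH
    rw [ha', hb]
    dsimp only
    split_ifs <;> ring
  have hmid : ∀ t ∈ Set.Icc (-1/8:ℝ) (1/8), ∀ k, 3/8 ≤ PP a' b t k ∧ PP a' b t k ≤ 5/8 := by
    intro t ht
    rw [hPP]
    apply pH_mid ha
    rw [abs_le]; constructor <;> linarith [ht.1, ht.2]
  have hb1 : ∀ k, |b k| ≤ 1 := by
    intro k; rw [hb]; dsimp only; split_ifs <;> simp
  have hφ0 : ∀ x, 0 ≤ φ x := fun x => mul_nonneg (nz_nonneg _ _) (E1_nonneg _ _ _ _)
  have hφ1 : ∀ x, φ x ≤ 1 := fun x => by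
    have := mul_le_mul (nz_le_one (Dl l (D i F)) x) (E1_le_one F i l x) (E1_nonneg _ _ _ _)
      (by norm_num)
    simpa using this
  have hR := path_riemann a' b φ (lo := -1/8) (hi := 1/8)
    (C := 4 * (Fintype.card ι : ℝ) ^ 2) (by norm_num) hb1 (by
      intro t ht
      exact trivial_second (pv_of_mid (hmid t ht)) hφ0 hφ1) hN2
  rw [hPP, hPP] at hR
  set S := ∑ j ∈ range N2, ∑ k, b k * Ex (PP a' b (-1/8 + j * ((1/8 - (-1/8)) / N2))) (D k φ)
    with hS
  have hSb : -S ≤ ∑ r ∈ range N2, FR F H i l a (tg N2 r) := by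
    rw [hS, ← Finset.sum_neg_distrib]
    apply Finset.sum_le_sum
    intro r hr
    have e0 : (-1/8:ℝ) + r * ((1/8 - (-1/8)) / N2) = tg N2 r := rfl
    rw [e0, hPP]
    have hPV := pv_of_mid (pH_mid (H := H) ha (tg_abs (Finset.mem_range.mp hr)))
    have hz : ∀ k, k ∉ SS F H i → b k * Ex (pH H a (tg N2 r)) (D k φ) = 0 := by
      intro k hk
      by_cases hkH : k ∈ H
      · rw [hb]; dsimp only; rw [if_pos hkH, zero_mul]
      · have : D k φ = fun _ => 0 := by
          funext x; exact D_phi_notMem hf hkH hk x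
        rw [this, Ex_const, mul_zero]
    have e1 : ∑ k, b k * Ex (pH H a (tg N2 r)) (D k φ)
        = ∑ k ∈ SS F H i, b k * Ex (pH H a (tg N2 r)) (D k φ) := by
      symm
      apply Finset.sum_subset (Finset.subset_univ _)
      intro k _ hk
      exact hz k hk
    rw [e1, ← Finset.sum_neg_distrib]
    unfold FR
    apply Finset.sum_le_sum
    intro k hk
    have hkH : k ∉ H := (mem_SS.mp hk).1
    rw [hb]; dsimp only; rw [if_neg hkH, one_mul]
    have e2 : D k φ = fun x => nz (Dl l (D i F)) x * D k (E1 F i l) x := by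
      funext x; exact D_phi hf hkH x
    rw [e2]
    have e3 : -Ex (pH H a (tg N2 r)) (fun x => nz (Dl l (D i F)) x * D k (E1 F i l) x)
        = Ex (pH H a (tg N2 r)) (fun x => (-1) * (nz (Dl l (D i F)) x * D k (E1 F i l) x)) := by
      rw [Ex_smul]; ring
    rw [e3]
    apply Ex_mono hPV
    intro x
    have h1 := neg_le_abs (D k (E1 F i l) x)
    have h2 := mul_le_mul_of_nonneg_left h1 (nz_nonneg (Dl l (D i F)) x)
    linarith
  have h1 := (abs_le.mp hR).1
  have h2 : (1/8 - -1/8 : ℝ) / N2 * -S ≤ (1/8 - -1/8) / N2 * ∑ r ∈ range N2, FR F H i l a (tg N2 r) :=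
    mul_le_mul_of_nonneg_left hSb (by positivity)
  have e4 : (1/8 - -1/8 : ℝ) / N2 = 1 / (4 * N2) := by field_simp; norm_num
  have e5 : 4 * (Fintype.card ι : ℝ) ^ 2 * (1/8 - -1/8) ^ 2 / N2
      = (Fintype.card ι) ^ 2 / (4 * N2) := by field_simp; norm_num; ring
  rw [e5, e4] at h1
  rw [e4] at h2
  linarith

lemma FR_le_pi {a t : ℝ} (ha : |a| ≤ 1/8) (ht : |t| ≤ 1/8) (hf : Face F H i l) :
    FR F H i l a t ≤ (SS F H i).card * Ex (pH H a 0) (nz (Dl l (D i F))) := by
  unfold FR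
  rw [← nsmul_eq_mul, ← Finset.sum_const]
  apply Finset.sum_le_sum
  intro k _
  rw [← nz_const hf a t]
  apply Ex_mono (pv_of_mid (pH_mid ha ht))
  intro x
  have : |D k (E1 F i l) x| ≤ 1 := by
    unfold D
    rw [abs_le]
    constructor
    · linarith [E1_nonneg F i l (Function.update x k true), E1_le_one F i l (Function.update x k false)]
    · linarith [E1_nonneg F i l (Function.update x k false), E1_le_one F i l (Function.update x k true)]
  have := mul_le_mul_of_nonneg_left this (nz_nonneg (Dl l (D i F)) x)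
  linarith

lemma FR_le_Sg {a t : ℝ} (hF : MB F) (ha : |a| ≤ 1/8) (ht : |t| ≤ 1/8) (hf : Face F H i l) :
    FR F H i l a t ≤ (SS F H i).card * ((5 / kap l.length) *
      ∑ j ∈ insert i (SS F H i), Ex (pH H a t) (D j F)) := by
  unfold FR
  rw [← nsmul_eq_mul, ← Finset.sum_const]
  apply Finset.sum_le_sum
  intro k hk
  exact flip_ex hF hf ha ht hk

/-- total influence of the relevant light variables -/
noncomputable def Sgf (F : (ι → Bool) → ℝ) (H : Finset ι) (i : ι) (a t : ℝ) : ℝ :=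
  ∑ j ∈ insert i (SS F H i), Ex (pH H a t) (D j F)

lemma Sgf_nonneg (hF : MB F) {a t : ℝ} (ha : |a| ≤ 1/8) (ht : |t| ≤ 1/8) :
    0 ≤ Sgf F H i a t :=
  Finset.sum_nonneg (fun j _ => Ex_nonneg (pv_of_mid (pH_mid ha ht)) (hF.g_nonneg j))

lemma FR_bound (hF : MB F) (hf : Face F H i l) {a t π κ s d : ℝ} (ha : |a| ≤ 1/8) (ht : |t| ≤ 1/8)
    (hπ : π = Ex (pH H a 0) (nz (Dl l (D i F)))) (hκ : κ = kap l.length)
    (hs : s = ((SS F H i).card : ℝ)) (hd : d = 1 / (8 * (s + 1))) :
    FR F H i l a t ≤ s * π * (if |a - t| < d then 1 else 0)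
        + (40 * s * (s + 1) / κ) * (|a - t| * Sgf F H i a t) := by
  have hκ0 : 0 < κ := by rw [hκ]; exact kap_pos _
  have hs0 : 0 ≤ s := by rw [hs]; exact Nat.cast_nonneg _
  have hSgr := Sgf_nonneg (H := H) (i := i) hF ha ht
  split_ifs with hnear
  · have h1 := FR_le_pi ha ht hf
    rw [← hπ, ← hs] at h1
    have h2 : 0 ≤ (40 * s * (s + 1) / κ) * (|a - t| * Sgf F H i a t) := by positivity
    linarith
  · have h1 := FR_le_Sg hF ha ht hf
    rw [← hκ, ← hs] at h1
    push Not at hnear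
    have h2 : 1 ≤ 8 * (s + 1) * |a - t| := by
      have h4 : d * (8 * (s+1)) = 1 := by rw [hd]; field_simp
      have h3 : d * (8 * (s+1)) ≤ |a - t| * (8 * (s+1)) :=
        mul_le_mul_of_nonneg_right hnear (by positivity)
      linarith
    have h3 : s * ((5 / κ) * Sgf F H i a t) * 1
        ≤ s * ((5 / κ) * Sgf F H i a t) * (8 * (s + 1) * |a - t|) :=
      mul_le_mul_of_nonneg_left h2 (by positivity)
    have e : s * ((5 / κ) * Sgf F H i a t) * (8 * (s + 1) * |a - t|)
        = (40 * s * (s + 1) / κ) * (|a - t| * Sgf F H i a t) := by ring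
    have h1' : FR F H i l a t ≤ s * ((5 / κ) * Sgf F H i a t) := h1
    linarith

lemma near_alg {s π N c : ℝ} (hs : 0 ≤ s) (hsN : s ≤ N) (hπ : 0 ≤ π) (hN : 0 < N)
    (hc : c ≤ N / (s + 1) + 1) : (1 / (4 * N)) * (s * π * c) ≤ π / 2 := by
  have h1 : s * π * c ≤ s * π * (N / (s + 1) + 1) := mul_le_mul_of_nonneg_left hc (by positivity)
  have h2 : s * π * (N / (s + 1) + 1) ≤ 2 * N * π := by
    have h3 : s * (N / (s + 1)) ≤ N := by
      rw [mul_div_assoc', div_le_iff₀ (by linarith)]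
      nlinarith
    have h4 : s * (N / (s + 1)) * π ≤ N * π := mul_le_mul_of_nonneg_right h3 hπ
    have h5 : s * π ≤ N * π := mul_le_mul_of_nonneg_right hsN hπ
    linarith
  calc (1 / (4 * N)) * (s * π * c) ≤ (1 / (4 * N)) * (2 * N * π) :=
        mul_le_mul_of_nonneg_left (le_trans h1 h2) (by positivity)
    _ = π / 2 := by field_simp; norm_num

lemma os_a1 (hF : MB F) (hf : Face F H i l) {a : ℝ} (ha : |a| ≤ 1/8) {N2 : ℕ}
    (hN2 : 0 < N2) (hN2n : Fintype.card ι ≤ N2) {π κ s : ℝ}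
    (hπ : π = Ex (pH H a 0) (nz (Dl l (D i F)))) (hκ : κ = kap l.length)
    (hs : s = ((SS F H i).card : ℝ)) :
    π ≤ (1 / κ) * (Sgf F H i a (1/8) + Sgf F H i a (-1/8)) + (20 * s * (s + 1) / κ) *
      ((1 / (N2:ℝ)) * ∑ r ∈ range N2, |a - tg N2 r| * Sgf F H i a (tg N2 r))
      + (Fintype.card ι : ℝ) ^ 2 / (2 * N2) := by
  have hNr : (0:ℝ) < N2 := by exact_mod_cast hN2
  have hκ0 : 0 < κ := by rw [hκ]; exact kap_pos _
  have hs0 : 0 ≤ s := by rw [hs]; exact Nat.cast_nonneg _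
  have hsn : s ≤ N2 := by
    have h1 : (SS F H i).card ≤ Fintype.card ι := Finset.card_le_univ _
    rw [hs]; exact_mod_cast le_trans h1 hN2n
  have hπ0 : 0 ≤ π := by
    rw [hπ]; exact Ex_nonneg (pv_of_mid (pH_mid ha (by norm_num))) (nz_nonneg _)
  have htop := os_top hF hf ha
  have hbot := os_bot hF hf ha
  have hpath := os_path hf ha hN2
  rw [← hκ] at htop hbot
  have hsplit : π = Ex (pH H a (-1/8)) (fun x => nz (Dl l (D i F)) x * (1 - E1 F i l x))
      + Ex (pH H a (-1/8)) (fun x => nz (Dl l (D i F)) x * E1 F i l x) := by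
    rw [← Ex_add, hπ, ← nz_const hf a (-1/8)]
    congr 1; funext x; ring
  have eS1 : ∑ j ∈ insert i (SS F H i), Ex (pH H a (1/8)) (D j F) = Sgf F H i a (1/8) := rfl
  have eS2 : ∑ j ∈ insert i (SS F H i), Ex (pH H a (-1/8)) (D j F) = Sgf F H i a (-1/8) := rfl
  rw [eS1] at htop
  rw [eS2] at hbot
  generalize Ex (pH H a (-1/8)) (fun x => nz (Dl l (D i F)) x * (1 - E1 F i l x)) = Y1 at *
  generalize Ex (pH H a (-1/8)) (fun x => nz (Dl l (D i F)) x * E1 F i l x) = Y2 at *
  generalize Ex (pH H a (1/8)) (fun x => nz (Dl l (D i F)) x * E1 F i l x) = Y3 at *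
  obtain ⟨d1, hd1⟩ : ∃ d1, d1 = 1 / (8 * (s + 1)) := ⟨_, rfl⟩
  have hd1pos : 0 < d1 := by rw [hd1]; positivity
  have hsumFR : ∑ r ∈ range N2, FR F H i l a (tg N2 r)
      ≤ ∑ r ∈ range N2, (s * π * (if |a - tg N2 r| < d1 then 1 else 0)
        + (40 * s * (s + 1) / κ) * (|a - tg N2 r| * Sgf F H i a (tg N2 r))) :=
    Finset.sum_le_sum (fun r hr => FR_bound hF hf ha (tg_abs (Finset.mem_range.mp hr)) hπ hκ hs hd1)
  rw [Finset.sum_add_distrib, ← Finset.mul_sum, ← Finset.mul_sum] at hsumFR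
  have hcount : ∑ r ∈ range N2, (if |a - tg N2 r| < d1 then (1:ℝ) else 0) ≤ N2 / (s + 1) + 1 := by
    have h1 := count_near N2 (h := (1/8 - (-1/8)) / N2) (d := d1) (c := a) (t0 := -1/8)
      (by positivity) hd1pos
    rw [Finset.card_filter] at h1
    push_cast at h1
    have e : 2 * d1 / ((1/8 - (-1/8)) / N2) = N2 / (s + 1) := by
      rw [hd1]; field_simp; norm_num
    rw [e] at h1
    exact h1
  have hnearb := near_alg hs0 hsn hπ0 hNr hcount
  generalize ∑ r ∈ range N2, (if |a - tg N2 r| < d1 then (1:ℝ) else 0) = cnt at *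
  generalize ∑ r ∈ range N2, |a - tg N2 r| * Sgf F H i a (tg N2 r) = T at *
  generalize ∑ r ∈ range N2, FR F H i l a (tg N2 r) = FT at *
  generalize Sgf F H i a (1/8) = S1 at *
  generalize Sgf F H i a (-1/8) = S2 at *
  generalize hn2 : (Fintype.card ι : ℝ) ^ 2 = n2 at *
  generalize (N2 : ℝ) = N at *
  clear hcount hd1 hd1pos hF hf ha hN2 hN2n hπ hκ hs hn2
  have hFRtot : (1 / (4 * N)) * FT ≤ π / 2 + (10 * s * (s + 1) / κ) * ((1 / N) * T) := by
    have h1 := mul_le_mul_of_nonneg_left hsumFR (show (0:ℝ) ≤ 1 / (4 * N) by positivity)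
    rw [mul_add] at h1
    have e : (1 / (4 * N)) * ((40 * s * (s + 1) / κ) * T)
        = (10 * s * (s + 1) / κ) * ((1 / N) * T) := by field_simp; ring
    linarith
  have e1 : (1 / (2 * κ)) * S1 + (1 / (2 * κ)) * S2
      = (1/2) * ((1 / κ) * (S1 + S2)) := by field_simp
  have e2 : n2 / (4 * N) = (1/2) * (n2 / (2 * N)) := by
    field_simp; norm_num
  have e3 : (20 * s * (s + 1) / κ) * ((1 / N) * T)
      = 2 * ((10 * s * (s + 1) / κ) * ((1 / N) * T)) := by ring
  linarith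

lemma os_alg2 {π κ s S1 S2 A B C e δ Ws : ℝ} (hκ : 0 < κ) (hs : 0 ≤ s) (hδ : 0 < δ)
    (hA : 0 ≤ A) (hB : 0 ≤ B) (hC : 0 ≤ C)
    (h1 : S1 ≤ 16 * A) (h2 : S2 ≤ 16 * B)
    (hmain : π ≤ (1 / κ) * (S1 + S2) + (20 * s * (s + 1) / κ) * C + e)
    (hslot : δ * (A + B + C) ≤ Ws) :
    δ * π ≤ (20 * (s + 1) ^ 2 / κ) * Ws + δ * e := by
  have h3 : (1 / κ) * (S1 + S2) ≤ (20 * (s + 1) ^ 2 / κ) * (A + B) := by
    have h3a : (1 / κ) * (S1 + S2) ≤ (1/κ) * (16 * (A + B)) :=
      mul_le_mul_of_nonneg_left (by linarith) (by positivity)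
    have e1 : (1/κ) * (16 * (A + B)) = (16 / κ) * (A + B) := by ring
    have h4 : (16 / κ) * (A + B) ≤ (20 * (s + 1) ^ 2 / κ) * (A + B) := by
      apply mul_le_mul_of_nonneg_right _ (by linarith)
      apply div_le_div_of_nonneg_right _ hκ.le
      nlinarith
    linarith
  have h5 : (20 * s * (s + 1) / κ) * C ≤ (20 * (s + 1) ^ 2 / κ) * C := by
    apply mul_le_mul_of_nonneg_right _ hC
    apply div_le_div_of_nonneg_right _ hκ.le
    nlinarith
  have h6 : π ≤ (20 * (s + 1) ^ 2 / κ) * (A + B + C) + e := by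
    linarith
  have h7 := mul_le_mul_of_nonneg_left h6 hδ.le
  have h8 := mul_le_mul_of_nonneg_left hslot (show 0 ≤ 20 * (s + 1) ^ 2 / κ by positivity)
  have e9 : δ * ((20 * (s + 1) ^ 2 / κ) * (A + B + C) + e)
      = (20 * (s + 1) ^ 2 / κ) * (δ * (A + B + C)) + δ * e := by
    ring
  linarith

/-- the main inequality for one heavy bias -/
lemma os_a (hF : MB F) (hf : Face F H i l) {a δ : ℝ} (hδ : 0 < δ) (ha : |a| ≤ 1/16) {N2 : ℕ}
    (hN2 : 0 < N2) (hN2n : Fintype.card ι ≤ N2) :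
    δ * Ex (pH H a 0) (nz (Dl l (D i F)))
      ≤ (20 * (((SS F H i).card : ℝ) + 1) ^ 2 / kap l.length) *
        ∑ k ∈ insert i (SS F H i), slot δ N2 (fun t => |a - t| * Ex (pH H a t) (D k F))
        + δ * ((Fintype.card ι : ℝ) ^ 2 / (2 * N2)) := by
  have ha8 : |a| ≤ 1/8 := by linarith
  have hNr : (0:ℝ) < N2 := by exact_mod_cast hN2
  have hm8 : |(-1/8:ℝ)| ≤ 1/8 := by rw [abs_le]; constructor <;> norm_num
  have hp8 : |(1/8:ℝ)| ≤ 1/8 := by norm_num
  have hmain := os_a1 hF hf ha8 hN2 hN2n rfl rfl rfl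
  have hW : ∀ k t, |t| ≤ 1/8 → 0 ≤ |a - t| * Ex (pH H a t) (D k F) :=
    fun k t ht => w_nonneg hF ha8 ht H k
  have hend : ∀ t, (t = 1/8 ∨ t = -1/8) →
      Sgf F H i a t ≤ 16 * ∑ k ∈ insert i (SS F H i), |a - t| * Ex (pH H a t) (D k F) := by
    intro t ht
    have h1 : 1/16 ≤ |a - t| := by
      rw [abs_le] at ha
      rcases ht with h | h
      · rw [h, abs_of_nonpos (by linarith)]; linarith
      · rw [h, abs_of_nonneg (by linarith)]; linarith
    have htt : |t| ≤ 1/8 := by rcases ht with h | h <;> rw [h] <;> assumption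
    rw [← Finset.mul_sum]
    have h0 := Sgf_nonneg (H := H) (i := i) hF ha8 htt
    have e : ∑ k ∈ insert i (SS F H i), Ex (pH H a t) (D k F) = Sgf F H i a t := rfl
    rw [e]
    have h9 := mul_le_mul_of_nonneg_right h1 h0
    linarith
  have hTsum : (1 / (N2:ℝ)) * ∑ r ∈ range N2, |a - tg N2 r| * Sgf F H i a (tg N2 r)
      = ∑ k ∈ insert i (SS F H i), (1 / (N2:ℝ)) *
      ∑ r ∈ range N2, |a - tg N2 r| * Ex (pH H a (tg N2 r)) (D k F) := by
    rw [← Finset.mul_sum, Finset.sum_comm]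
    congr 1
    apply Finset.sum_congr rfl
    intro r _
    unfold Sgf
    rw [Finset.mul_sum]
  have hslot : δ * (∑ k ∈ insert i (SS F H i), (|a - 1/8| * Ex (pH H a (1/8)) (D k F)
        + |a - -1/8| * Ex (pH H a (-1/8)) (D k F)
        + (1 / (N2:ℝ)) * ∑ r ∈ range N2, |a - tg N2 r| * Ex (pH H a (tg N2 r)) (D k F)))
      ≤ ∑ k ∈ insert i (SS F H i), slot δ N2 (fun t => |a - t| * Ex (pH H a t) (D k F)) := by
    rw [Finset.mul_sum]
    apply Finset.sum_le_sum
    intro k _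
    exact slot_ge hδ.le (hW k)
  rw [Finset.sum_add_distrib, Finset.sum_add_distrib, ← hTsum] at hslot
  have hT0 : 0 ≤ (1 / (N2:ℝ)) * ∑ r ∈ range N2, |a - tg N2 r| * Sgf F H i a (tg N2 r) := by
    apply mul_nonneg (by positivity)
    exact Finset.sum_nonneg (fun r hr =>
      mul_nonneg (abs_nonneg _) (Sgf_nonneg hF ha8 (tg_abs (Finset.mem_range.mp hr))))
  exact os_alg2 (kap_pos _) (Nat.cast_nonneg _) hδ
    (Finset.sum_nonneg (fun k _ => hW k _ hp8)) (Finset.sum_nonneg (fun k _ => hW k _ hm8)) hT0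
    (hend (1/8) (Or.inl rfl)) (hend (-1/8) (Or.inr rfl)) hmain hslot

end osa

end Pool.Agent.TH531.Fb
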