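import Pool.Agent.TH531.FbOS2

set_option autoImplicit false
set_option linter.unusedSectionVars false
set_option linter.unnecessarySeqFocus false

open Finset

namespace Pool.Agent.TH531.Fb

variable {ι : Type*} [Fintype ι] [DecidableEq ι]

lemma pi_num {a : ℝ} {m k : ℕ} (ham : 64 * a ^ 2 * m ≤ 1) (hk : k ≤ m) :
    ((1:ℝ)/4) ^ k ≤ 4 * (1 / (4 + 128 * a ^ 2)) ^ k := by
  have h1 : (1 + 32 * a ^ 2) ^ k ≤ 4 := by
    have h2 : 1 + 32 * a ^ 2 ≤ Real.exp (32 * a ^ 2) := by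
      have := Real.add_one_le_exp (32 * a ^ 2); linarith
    have h3 : (1 + 32 * a ^ 2) ^ k ≤ (Real.exp (32 * a ^ 2)) ^ k :=
      pow_le_pow_left₀ (by positivity) h2 k
    rw [← Real.exp_nat_mul] at h3
    have hkm : (k:ℝ) ≤ m := by exact_mod_cast hk
    have h4 : (k:ℝ) * (32 * a ^ 2) ≤ 1 := by
      have : (k:ℝ) * (32 * a ^ 2) ≤ m * (32 * a ^ 2) :=
        mul_le_mul_of_nonneg_right hkm (by positivity)
      nlinarith
    have h5 : Real.exp ((k:ℝ) * (32 * a ^ 2)) ≤ Real.exp 1 := Real.exp_le_exp.mpr h4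
    have h6 := Real.exp_one_lt_d9
    linarith
  have e : (1 / (4 + 128 * a ^ 2)) = (1/4) * (1 / (1 + 32 * a ^ 2)) := by
    field_simp; ring
  rw [e, mul_pow]
  have h7 : (1:ℝ) ≤ 4 * (1 / (1 + 32 * a ^ 2)) ^ k := by
    rw [one_div, inv_pow, ← div_eq_mul_inv, le_div_iff₀ (by positivity)]
    linarith
  have h8 : (0:ℝ) ≤ (1/4) ^ k := by positivity
  nlinarith

lemma pH_neg (H : Finset ι) (a : ℝ) : (fun i => 1 - pH H a 0 i) = pH H (-a) 0 := by
  funext k; unfold pH; split_ifs <;> ring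

lemma pi_cor (H : Finset ι) {a : ℝ} {m k : ℕ} (ham : 64 * a ^ 2 * m ≤ 1) (ha8 : |a| ≤ 1/8)
    (hk : k ≤ m) {q : (ι → Bool) → ℝ} (hdeg : DegLT (k+1) q) (hne : ∃ x, q x ≠ 0) :
    ((1:ℝ)/2) ^ k ≤ Ex (pH H a 0) (nz q) + Ex (pH H (-a) 0) (nz q) := by
  have hmid := pH_mid (H := H) ha8 (show |(0:ℝ)| ≤ 1/8 by norm_num)
  have hPV := pv_of_mid hmid
  have ha64 : a ^ 2 ≤ 1/64 := by
    have := sq_le_sq' (by linarith [(abs_le.mp ha8).1] : -(1/8) ≤ a) (abs_le.mp ha8).2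
    norm_num at this ⊢; linarith
  have hPI := PI (T := a) ha64 (p := pH H a 0) (by
    intro j; unfold pH; split_ifs
    · ring_nf; exact le_refl _
    · have : (1/2 + 0 - 1/2 : ℝ) ^ 2 = 0 := by norm_num
      rw [this]; positivity) hPV univ k q (fun i hi => absurd (mem_univ i) hi) hdeg hne
  rw [pH_neg] at hPI
  have hnum := pi_num ham hk
  have hX : 0 ≤ Ex (pH H a 0) (nz q) := Ex_nonneg hPV (nz_nonneg _)
  have ha8' : |(-a)| ≤ 1/8 := by rwa [abs_neg]
  have hY : 0 ≤ Ex (pH H (-a) 0) (nz q) :=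
    Ex_nonneg (pv_of_mid (pH_mid ha8' (by norm_num))) (nz_nonneg _)
  generalize Ex (pH H a 0) (nz q) = X at *
  generalize Ex (pH H (-a) 0) (nz q) = Y at *
  apply le_of_sq_le_sq _ (by linarith)
  have e : (((1:ℝ)/2) ^ k) ^ 2 = (1/4) ^ k := by
    rw [← pow_mul, mul_comm, pow_mul]; norm_num
  rw [e]
  nlinarith [sq_nonneg (X - Y)]

section

variable {F : (ι → Bool) → ℝ} {H : Finset ι} {i : ι} {l : List ι}

lemma Face.len_le (hf : Face F H i l) {m : ℕ} (hdeg : DegLT (m+1) (D i F)) : l.length ≤ m := by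
  by_contra hc
  push Not at hc
  obtain ⟨x, hx⟩ := hf.ne
  exact hx (Dl_eq_zero l hdeg (by omega) x)

lemma nz_le_abs (hF : MB F) (i k : ι) (x : ι → Bool) :
    nz (D k (D i F)) x ≤ |D k (D i F) x| := by
  unfold nz
  split_ifs with h
  · have : D k (D i F) x = res k true (D i F) x - res k false (D i F) x := rfl
    rw [this] at h ⊢
    have h0 : res k false (D i F) x = 0 ∨ res k false (D i F) x = 1 := hF.g01 i _
    have h1 : res k true (D i F) x = 0 ∨ res k true (D i F) x = 1 := hF.g01 i _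
    rcases h0 with h0 | h0 <;> rcases h1 with h1 | h1
    · exfalso; apply h; rw [h0, h1]; ring
    · rw [h0, h1]; norm_num
    · rw [h0, h1]; norm_num
    · exfalso; apply h; rw [h0, h1]; ring
  · exact abs_nonneg _

/-- bound for the number of relevant light variables, one heavy bias -/
lemma S_card_a (hF : MB F) (hf : Face F H i l) {m : ℕ} (hdeg : DegLT (m+1) (D i F))
    {a : ℝ} (ham : 64 * a ^ 2 * m ≤ 1) (ha8 : |a| ≤ 1/8) :
    ((SS F H i).card : ℝ) * (1/2) ^ m ≤ (16/3) * l.length *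
      (Ex (pH H a 0) (D i F) + Ex (pH H (-a) 0) (D i F)) := by
  have ha8' : |(-a)| ≤ 1/8 := by rwa [abs_neg]
  have key : ∀ b : ℝ, |b| ≤ 1/8 → ∑ k ∈ SS F H i, Ex (pH H b 0) (nz (D k (D i F)))
      ≤ (16/3) * l.length * Ex (pH H b 0) (D i F) := by
    intro b hb
    have hmid := pH_mid (H := H) hb (show |(0:ℝ)| ≤ 1/8 by norm_num)
    have hPV := pv_of_mid hmid
    have h1 : ∑ k ∈ SS F H i, Ex (pH H b 0) (nz (D k (D i F)))
        ≤ ∑ k ∈ SS F H i, (8/3) * Ex (pH H b 0) (fun x => D i F x * (1 - D i F (fl k x))) := by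
      apply Finset.sum_le_sum
      intro k _
      exact le_trans (Ex_mono hPV (nz_le_abs hF i k)) (Ex_absD_le hmid hF i k)
    have h2 : ∑ k ∈ SS F H i, Ex (pH H b 0) (fun x => D i F x * (1 - D i F (fl k x)))
        ≤ ∑ k ∈ Hᶜ, Ex (pH H b 0) (fun x => D i F x * (1 - D i F (fl k x))) := by
      apply Finset.sum_le_sum_of_subset_of_nonneg
      · intro k hk; exact Finset.mem_compl.mpr (mem_SS.mp hk).1
      · intro k _ _
        apply Ex_nonneg hPV
        intro x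
        exact mul_nonneg (hF.g_nonneg i x) (by linarith [hF.g_le_one i (fl k x)])
    have h3 := light_kill hPV hF hf.max
    rw [← Finset.mul_sum] at h1
    linarith
  have h1 : ((SS F H i).card : ℝ) * (1/2) ^ m ≤ ∑ k ∈ SS F H i,
      (Ex (pH H a 0) (nz (D k (D i F))) + Ex (pH H (-a) 0) (nz (D k (D i F)))) := by
    rw [← nsmul_eq_mul, ← Finset.sum_const]
    apply Finset.sum_le_sum
    intro k hk
    exact pi_cor H ham ha8 (le_refl m) (DegLT_succ (hdeg k)) (mem_SS.mp hk).2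
  rw [Finset.sum_add_distrib] at h1
  have k1 := key a ha8
  have k2 := key (-a) ha8'
  linarith

/-- bound for the number of relevant light variables -/
lemma S_card (hF : MB F) (hf : Face F H i l) {m N1 N2 : ℕ} (hdeg : DegLT (m+1) (D i F))
    {δ K : ℝ} (hδ : 0 < δ) (hδ16 : δ ≤ 1/16) (hδm : 64 * δ ^ 2 * m ≤ 1) (hN1 : 0 < N1)
    (hcl : Th δ N1 N2 F H i ≤ (δ/2) * K * (1/2) ^ m) :
    ((SS F H i).card : ℝ) ≤ 6 * l.length * K := by
  have hδ8 : δ ≤ 1/8 := by linarith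
  have hlen : (0:ℝ) ≤ l.length := Nat.cast_nonneg _
  have h1 : avg δ N1 (fun _ => ((SS F H i).card : ℝ) * (1/2) ^ m)
      ≤ avg δ N1 (fun a => ((16/3) * l.length * (2/δ)) *
        (slot δ N2 (fun t => |a - t| * Ex (pH H a t) (D i F))
          + slot δ N2 (fun t => |-a - t| * Ex (pH H (-a) t) (D i F)))) := by
    apply avg_mono hδ
    intro a ha1 ha2
    have ha8 := abs_le_of_tau hδ hδ8 ha1 ha2
    have ha8' : |(-a)| ≤ 1/8 := by rwa [abs_neg]
    have ham : 64 * a ^ 2 * m ≤ 1 := by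
      have : a ^ 2 ≤ δ ^ 2 := by nlinarith
      have hm0 : (0:ℝ) ≤ m := Nat.cast_nonneg m
      have h3 := mul_le_mul_of_nonneg_right this hm0
      linarith
    refine le_trans (S_card_a hF hf hdeg ham ha8) ?_
    have s1 := slot_ge_zero hδ.le (N := N2) (w := fun t => |a - t| * Ex (pH H a t) (D i F))
      (fun t ht => w_nonneg hF ha8 ht H i)
    have s2 := slot_ge_zero hδ.le (N := N2) (w := fun t => |-a - t| * Ex (pH H (-a) t) (D i F))
      (fun t ht => w_nonneg hF ha8' ht H i)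
    rw [sub_zero, abs_of_nonneg (by linarith : 0 ≤ a)] at s1
    rw [sub_zero, abs_neg, abs_of_nonneg (by linarith : 0 ≤ a)] at s2
    have m1 : 0 ≤ Ex (pH H a 0) (D i F) :=
      Ex_nonneg (pv_of_mid (pH_mid ha8 (by norm_num))) (hF.g_nonneg i)
    have m2 : 0 ≤ Ex (pH H (-a) 0) (D i F) :=
      Ex_nonneg (pv_of_mid (pH_mid ha8' (by norm_num))) (hF.g_nonneg i)
    generalize slot δ N2 (fun t => |a - t| * Ex (pH H a t) (D i F)) = A at *
    generalize slot δ N2 (fun t => |-a - t| * Ex (pH H (-a) t) (D i F)) = B at *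
    generalize Ex (pH H a 0) (D i F) = M1 at *
    generalize Ex (pH H (-a) 0) (D i F) = M2 at *
    have q1 : (δ/2) * M1 ≤ A := le_trans (mul_le_mul_of_nonneg_right ha1 m1) s1
    have q2 : (δ/2) * M2 ≤ B := le_trans (mul_le_mul_of_nonneg_right ha1 m2) s2
    have e : (16/3) * (l.length:ℝ) * (M1 + M2)
        = ((16/3) * (l.length:ℝ) * (2/δ)) * ((δ/2) * M1 + (δ/2) * M2) := by field_simp
    rw [e]
    apply mul_le_mul_of_nonneg_left _ (by positivity)
    linarith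
  rw [avg_const hN1, avg_smul] at h1
  have h2 : avg δ N1 (fun a => slot δ N2 (fun t => |a - t| * Ex (pH H a t) (D i F))
          + slot δ N2 (fun t => |-a - t| * Ex (pH H (-a) t) (D i F))) = Th δ N1 N2 F H i := rfl
  rw [h2] at h1
  have h3 : ((16/3) * (l.length:ℝ) * (2/δ)) * Th δ N1 N2 F H i
      ≤ ((16/3) * l.length * (2/δ)) * ((δ/2) * K * (1/2) ^ m) :=
    mul_le_mul_of_nonneg_left hcl (by positivity)
  have e : ((16/3) * (l.length:ℝ) * (2/δ)) * ((δ/2) * K * (1/2) ^ m)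
      = ((16/3) * l.length * K) * (1/2) ^ m := by field_simp
  have hp : (0:ℝ) < (1/2) ^ m := by positivity
  have h4 : ((SS F H i).card : ℝ) * (1/2) ^ m ≤ ((16/3) * l.length * K) * (1/2) ^ m := by linarith
  have h5 := le_of_mul_le_mul_right h4 hp
  have hs0 : (0:ℝ) ≤ (SS F H i).card := Nat.cast_nonneg _
  have h6 : 0 ≤ (l.length:ℝ) * K := by
    by_contra hc
    push Not at hc
    nlinarith
  nlinarith

/-- large light faces are impossible -/
theorem os_final (hF : MB F) (hf : Face F H i l) {m N1 N2 : ℕ} (hdeg : DegLT (m+1) (D i F))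
    {δ K : ℝ} (hδ : 0 < δ) (hδ16 : δ ≤ 1/16) (hδm : 64 * δ ^ 2 * m ≤ 1) (hN1 : 0 < N1)
    (hN2 : 0 < N2) (hN2n : Fintype.card ι ≤ N2)
    (hN2b : 2 * (Fintype.card ι : ℝ) ^ 2 * 2 ^ m ≤ N2)
    (hcl : ∀ k, k ∉ H → Th δ N1 N2 F H k ≤ (δ/2) * K * (1/2) ^ m) :
    ((9:ℝ)/8) ^ l.length ≤ 54 * (((SS F H i).card : ℝ) + 1) ^ 3 * K := by
  have hδ8 : δ ≤ 1/8 := by linarith
  have hlen := hf.len_le hdeg
  have hNr : (0:ℝ) < N2 := by exact_mod_cast hN2
  have hκ := kap_pos l.length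
  obtain ⟨s, hs⟩ : ∃ s : ℝ, s = ((SS F H i).card : ℝ) := ⟨_, rfl⟩
  have hs0 : 0 ≤ s := by rw [hs]; exact Nat.cast_nonneg _
  rw [← hs]
  have hqdeg : DegLT ((m - l.length) + 1) (Dl l (D i F)) := by
    apply DegLT_Dl
    have e : m - l.length + 1 + l.length = m + 1 := by omega
    rw [e]; exact hdeg
  have h1 : avg δ N1 (fun _ => δ * (1/2) ^ (m - l.length))
      ≤ avg δ N1 (fun a => (20 * (s + 1) ^ 2 / kap l.length) *
        ∑ k ∈ insert i (SS F H i), (slot δ N2 (fun t => |a - t| * Ex (pH H a t) (D k F))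
          + slot δ N2 (fun t => |-a - t| * Ex (pH H (-a) t) (D k F)))
          + δ * ((Fintype.card ι : ℝ) ^ 2 / N2)) := by
    apply avg_mono hδ
    intro a ha1 ha2
    have ha8 := abs_le_of_tau hδ hδ8 ha1 ha2
    have ha16 : |a| ≤ 1/16 := by rw [abs_of_nonneg (by linarith)]; linarith
    have ha16' : |(-a)| ≤ 1/16 := by rwa [abs_neg]
    have ham : 64 * a ^ 2 * m ≤ 1 := by
      have : a ^ 2 ≤ δ ^ 2 := by nlinarith
      have hm0 : (0:ℝ) ≤ m := Nat.cast_nonneg m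
      have h3 := mul_le_mul_of_nonneg_right this hm0
      linarith
    have hp := pi_cor H ham ha8 (Nat.sub_le m l.length) hqdeg hf.ne
    have o1 := os_a hF hf hδ ha16 hN2 hN2n
    have o2 := os_a hF hf hδ ha16' hN2 hN2n
    rw [← hs] at o1 o2
    rw [Finset.sum_add_distrib, mul_add]
    have h4 := mul_le_mul_of_nonneg_left hp hδ.le
    rw [mul_add] at h4
    have e : δ * ((Fintype.card ι : ℝ) ^ 2 / N2) = δ * ((Fintype.card ι : ℝ) ^ 2 / (2 * N2))
        + δ * ((Fintype.card ι : ℝ) ^ 2 / (2 * N2)) := by field_simp; ring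
    rw [e]
    linarith
  rw [avg_const hN1, avg_add, avg_const hN1, avg_smul, avg_sum] at h1
  have h2 : ∑ k ∈ insert i (SS F H i), avg δ N1 (fun a =>
        slot δ N2 (fun t => |a - t| * Ex (pH H a t) (D k F))
          + slot δ N2 (fun t => |-a - t| * Ex (pH H (-a) t) (D k F)))
      ≤ (s + 1) * ((δ/2) * K * (1/2) ^ m) := by
    have h3 : ∀ k ∈ insert i (SS F H i), avg δ N1 (fun a =>
        slot δ N2 (fun t => |a - t| * Ex (pH H a t) (D k F))
          + slot δ N2 (fun t => |-a - t| * Ex (pH H (-a) t) (D k F)))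
          ≤ (δ/2) * K * (1/2) ^ m := by
      intro k hk
      have hkH : k ∉ H := by
        rcases Finset.mem_insert.mp hk with h | h
        · rw [h]; exact hf.hi
        · exact (mem_SS.mp h).1
      exact hcl k hkH
    have h4 := Finset.sum_le_sum h3
    rw [Finset.sum_const, Finset.card_insert_of_notMem (i_notMem_SS F H i), nsmul_eq_mul] at h4
    push_cast at h4
    rw [← hs] at h4
    exact h4
  have h3 := mul_le_mul_of_nonneg_left h2
    (show 0 ≤ 20 * (s + 1) ^ 2 / kap l.length by positivity)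
  have h5 : (Fintype.card ι : ℝ) ^ 2 / N2 ≤ (1/2) * (1/2) ^ m := by
    rw [div_le_iff₀ hNr]
    have h2m : (0:ℝ) < 2 ^ m := by positivity
    have e : ((1:ℝ)/2) * (1/2) ^ m * (2 * (Fintype.card ι : ℝ) ^ 2 * 2 ^ m)
        = (Fintype.card ι : ℝ) ^ 2 := by
      have : ((1:ℝ)/2) ^ m * 2 ^ m = 1 := by rw [← mul_pow]; norm_num
      linear_combination (Fintype.card ι : ℝ) ^ 2 * this
    have h6 : ((1:ℝ)/2) * (1/2) ^ m * (2 * (Fintype.card ι : ℝ) ^ 2 * 2 ^ m)
        ≤ (1/2) * (1/2) ^ m * N2 := mul_le_mul_of_nonneg_left hN2b (by positivity)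
    linarith
  have e1 : ((1:ℝ)/2) ^ (m - l.length) = 2 ^ l.length * (1/2) ^ m := by
    have h7 : ((1:ℝ)/2) ^ m = (1/2) ^ (m - l.length) * (1/2) ^ l.length := by
      rw [← pow_add]; congr 1; omega
    rw [h7]
    have : (2:ℝ) ^ l.length * (1/2) ^ l.length = 1 := by rw [← mul_pow]; norm_num
    linear_combination (-((1:ℝ)/2) ^ (m - l.length)) * this
  have h2l : (1:ℝ) ≤ 2 ^ l.length := one_le_pow₀ (by norm_num)
  have hp : (0:ℝ) < (1/2) ^ m := by positivity
  have hkap : kap l.length * 2 ^ l.length = (3/8) * (9/8) ^ l.length := by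
    unfold kap
    rw [mul_assoc, ← mul_pow]; norm_num
  rw [e1] at h1
  generalize (Fintype.card ι : ℝ) ^ 2 / N2 = er at *
  generalize kap l.length = κ at *
  generalize (2:ℝ) ^ l.length = P at *
  generalize ((9:ℝ)/8) ^ l.length = R at *
  generalize ((1:ℝ)/2) ^ m = Z at *
  have h8 : δ * (P * Z) ≤ (20 * (s + 1) ^ 2 / κ) * ((s + 1) * ((δ/2) * K * Z)) + δ * ((1/2) * Z) := by
    have := mul_le_mul_of_nonneg_left h5 hδ.le
    linarith
  have h9 : P * Z ≤ (20 * (s + 1) ^ 2 / κ) * ((s + 1) * ((1/2) * K * Z)) + (1/2) * Z := by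
    have e2 : (20 * (s + 1) ^ 2 / κ) * ((s + 1) * ((δ/2) * K * Z)) + δ * ((1/2) * Z)
        = δ * ((20 * (s + 1) ^ 2 / κ) * ((s + 1) * ((1/2) * K * Z)) + (1/2) * Z) := by ring
    rw [e2] at h8
    exact le_of_mul_le_mul_left h8 hδ
  have h10 : P ≤ (20 * (s + 1) ^ 2 / κ) * ((s + 1) * ((1/2) * K)) + 1/2 := by
    have e3 : (20 * (s + 1) ^ 2 / κ) * ((s + 1) * ((1/2) * K * Z)) + (1/2) * Z
        = ((20 * (s + 1) ^ 2 / κ) * ((s + 1) * ((1/2) * K)) + 1/2) * Z := by ring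
    rw [e3] at h9
    exact le_of_mul_le_mul_right h9 hp
  have h11 : P ≤ 20 * (s + 1) ^ 3 * K / κ := by
    have e4 : (20 * (s + 1) ^ 2 / κ) * ((s + 1) * ((1/2) * K)) = (1/2) * (20 * (s + 1) ^ 3 * K / κ) := by
      ring
    rw [e4] at h10
    linarith
  rw [le_div_iff₀ hκ] at h11
  have h12 : (3/8) * R ≤ 20 * (s + 1) ^ 3 * K := by linarith
  have h13 : 0 ≤ (s + 1) ^ 3 * K := by
    by_contra hc
    push Not at hc
    have : 0 ≤ P * κ := by positivity
    nlinarith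
  nlinarith

end

end Pool.Agent.TH531.Fb
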