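import Pool.Agent.TH531.FbMono

set_option autoImplicit false
set_option linter.unusedSectionVars false
set_option linter.unnecessarySeqFocus false

open Finset

namespace Pool.Agent.TH531.Fb

variable {ι : Type*} [Fintype ι] [DecidableEq ι]

/-- affine path of bias vectors -/
def PP (a b : ι → ℝ) (t : ℝ) : ι → ℝ := fun k => a k + t * b k

lemma hasDerivAt_wt (a b : ι → ℝ) (x : ι → Bool) (t : ℝ) :
    HasDerivAt (fun t => wt (PP a b t) x)
      (∑ k, wt' k (PP a b t) x * (if x k then b k else - b k)) t := by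
  unfold wt wt'
  have h := HasDerivAt.fun_finsetProd (u := (univ : Finset ι))
    (f := fun k t => if x k then PP a b t k else 1 - PP a b t k)
    (f' := fun k => if x k then b k else - b k) (x := t) (fun k _ => by
      unfold PP
      cases x k
      · simp only [Bool.false_eq_true, if_false]
        have h1 : HasDerivAt (fun t : ℝ => 1 - (a k + t * b k)) (-(b k)) t := by
          have := ((hasDerivAt_id t).mul_const (b k)).const_add (a k)
          have h2 := this.const_sub 1
          simpa using h2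
        exact h1
      · simp only [if_true]
        have := ((hasDerivAt_id t).mul_const (b k)).const_add (a k)
        simpa using this)
  simpa [smul_eq_mul] using h

lemma sum_wt'_D (k : ι) (p : ι → ℝ) (c : ℝ) (φ : (ι → Bool) → ℝ) :
    ∑ x, wt' k p x * (if x k then c else - c) * φ x = c * Ex p (D k φ) := by
  rw [Ex_ind k p (ind_D k φ), sum_half k]
  have : ∀ x : ι → Bool, (wt' k p x * (if x k then c else - c) * φ x
      + wt' k p (fl k x) * (if (fl k x) k then c else - c) * φ (fl k x))
      = c * (wt' k p x * D k φ x) := by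
    intro x
    rw [wt'_fl]
    have hflk : (fl k x) k = !x k := by unfold fl; simp
    rw [hflk]
    cases hx : x k
    · have h1 : φ x = φ (Function.update x k false) := by rw [← hx, Function.update_eq_self]
      rw [fl_of_false hx, h1]
      unfold D
      simp
      ring
    · have h1 : φ x = φ (Function.update x k true) := by rw [← hx, Function.update_eq_self]
      rw [fl_of_true hx, h1]
      unfold D
      simp
      ring
  simp_rw [this]
  rw [← Finset.mul_sum]
  ring

lemma hasDerivAt_Ex (a b : ι → ℝ) (φ : (ι → Bool) → ℝ) (t : ℝ) :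
    HasDerivAt (fun t => Ex (PP a b t) φ) (∑ k, b k * Ex (PP a b t) (D k φ)) t := by
  have h1 : HasDerivAt (fun t => Ex (PP a b t) φ)
      (∑ x, (∑ k, wt' k (PP a b t) x * (if x k then b k else - b k)) * φ x) t := by
    unfold Ex
    apply HasDerivAt.fun_sum
    intro x _
    exact (hasDerivAt_wt a b x t).mul_const (φ x)
  convert h1 using 1
  simp_rw [← sum_wt'_D, Finset.sum_mul]
  rw [Finset.sum_comm]

lemma step_lemma {u v w : ℝ → ℝ} {lo hi C : ℝ}
    (hu : ∀ t ∈ Set.Icc lo hi, HasDerivAt u (v t) t)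
    (hv : ∀ t ∈ Set.Icc lo hi, HasDerivAt v (w t) t)
    (hw : ∀ t ∈ Set.Icc lo hi, |w t| ≤ C) {x h : ℝ} (hx : lo ≤ x) (hh : 0 ≤ h)
    (hxh : x + h ≤ hi) : |u (x + h) - u x - h * v x| ≤ C * h ^ 2 := by
  have hC : 0 ≤ C := le_trans (abs_nonneg _) (hw x ⟨hx, by linarith⟩)
  have hvb : ∀ y ∈ Set.Icc x (x+h), |v y - v x| ≤ C * h := by
    intro y hy
    have hconv : Convex ℝ (Set.Icc lo hi) := convex_Icc lo hi
    have := hconv.norm_image_sub_le_of_norm_hasDerivWithin_le (f := v) (f' := w) (C := C)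
      (fun t ht => (hv t ht).hasDerivWithinAt) (fun t ht => by
        rw [Real.norm_eq_abs]; exact hw t ht) (x := x) (y := y)
      ⟨hx, by linarith⟩ ⟨by linarith [hy.1], by linarith [hy.2]⟩
    rw [Real.norm_eq_abs, Real.norm_eq_abs] at this
    refine le_trans this ?_
    apply mul_le_mul_of_nonneg_left _ hC
    rw [abs_of_nonneg (by linarith [hy.1])]
    linarith [hy.2]
  have hconv : Convex ℝ (Set.Icc x (x+h)) := convex_Icc _ _
  have := hconv.norm_image_sub_le_of_norm_hasDerivWithin_le (f := fun t => u t - t * v x)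
    (f' := fun t => v t - v x) (C := C * h)
    (fun t ht => by
      have h1 := hu t ⟨by linarith [ht.1], by linarith [ht.2]⟩
      have h2 : HasDerivAt (fun t : ℝ => t * v x) (v x) t := by
        simpa using (hasDerivAt_id t).mul_const (v x)
      exact (h1.sub h2).hasDerivWithinAt)
    (fun t ht => by rw [Real.norm_eq_abs]; exact hvb t ht)
    (x := x) (y := x + h) ⟨le_refl _, by linarith⟩ ⟨by linarith, le_refl _⟩
  rw [Real.norm_eq_abs, Real.norm_eq_abs] at this
  have e : (u (x + h) - (x + h) * v x) - (u x - x * v x) = u (x+h) - u x - h * v x := by ring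
  rw [e] at this
  have e2 : x + h - x = h := by ring
  rw [e2, abs_of_nonneg hh] at this
  calc _ ≤ _ := this
    _ = C * h ^ 2 := by ring

lemma riemann {u v w : ℝ → ℝ} {lo hi C : ℝ} (hlh : lo ≤ hi)
    (hu : ∀ t ∈ Set.Icc lo hi, HasDerivAt u (v t) t)
    (hv : ∀ t ∈ Set.Icc lo hi, HasDerivAt v (w t) t)
    (hw : ∀ t ∈ Set.Icc lo hi, |w t| ≤ C) {N : ℕ} (hN : 0 < N) :
    |u hi - u lo - ((hi - lo) / N) * ∑ j ∈ range N, v (lo + j * ((hi - lo) / N))|
      ≤ C * (hi - lo) ^ 2 / N := by
  have hNr : (0:ℝ) < N := by exact_mod_cast hN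
  set h := (hi - lo) / N with hh
  have hh0 : 0 ≤ h := div_nonneg (by linarith) hNr.le
  have hNh : N * h = hi - lo := by rw [hh]; field_simp
  have htel : u hi - u lo = ∑ j ∈ range N, (u (lo + (j+1 : ℕ) * h) - u (lo + j * h)) := by
    rw [Finset.sum_range_sub (fun j : ℕ => u (lo + j * h))]
    simp only [Nat.cast_zero, zero_mul, add_zero]
    rw [hNh]
    congr 2; ring
  rw [htel, Finset.mul_sum, ← Finset.sum_sub_distrib]
  have hterm : ∀ j ∈ range N, |u (lo + (j+1 : ℕ) * h) - u (lo + j * h) - h * v (lo + j * h)|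
      ≤ C * h ^ 2 := by
    intro j hj
    rw [Finset.mem_range] at hj
    have hj1 : ((j:ℝ) + 1) ≤ N := by exact_mod_cast hj
    have e : lo + ((j+1 : ℕ) : ℝ) * h = (lo + j * h) + h := by push_cast; ring
    rw [e]
    apply step_lemma hu hv hw
    · have : 0 ≤ (j:ℝ) * h := by positivity
      linarith
    · exact hh0
    · have : ((j:ℝ) + 1) * h ≤ N * h := mul_le_mul_of_nonneg_right hj1 hh0
      rw [hNh] at this
      linarith
  calc |∑ j ∈ range N, (u (lo + (j+1 : ℕ) * h) - u (lo + j * h) - h * v (lo + j * h))|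
      ≤ ∑ j ∈ range N, |u (lo + (j+1 : ℕ) * h) - u (lo + j * h) - h * v (lo + j * h)| :=
        Finset.abs_sum_le_sum_abs _ _
    _ ≤ ∑ j ∈ range N, C * h ^ 2 := Finset.sum_le_sum hterm
    _ = C * (hi - lo) ^ 2 / N := by
        rw [Finset.sum_const, Finset.card_range, nsmul_eq_mul, hh]
        field_simp

lemma path_riemann (a b : ι → ℝ) (φ : (ι → Bool) → ℝ) {lo hi C : ℝ} (hlh : lo ≤ hi)
    (hb : ∀ k, |b k| ≤ 1)
    (hC : ∀ t ∈ Set.Icc lo hi, ∑ k, ∑ l, |Ex (PP a b t) (D l (D k φ))| ≤ C)
    {N : ℕ} (hN : 0 < N) :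
    |Ex (PP a b hi) φ - Ex (PP a b lo) φ - ((hi - lo) / N) *
      ∑ j ∈ range N, ∑ k, b k * Ex (PP a b (lo + j * ((hi - lo) / N))) (D k φ)|
      ≤ C * (hi - lo) ^ 2 / N := by
  apply riemann (u := fun t => Ex (PP a b t) φ)
    (v := fun t => ∑ k, b k * Ex (PP a b t) (D k φ))
    (w := fun t => ∑ k, b k * ∑ l, b l * Ex (PP a b t) (D l (D k φ))) hlh
  · intro t _; exact hasDerivAt_Ex a b φ t
  · intro t _
    apply HasDerivAt.fun_sum
    intro k _
    exact (hasDerivAt_Ex a b (D k φ) t).const_mul (b k)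
  · intro t ht
    refine le_trans ?_ (hC t ht)
    refine le_trans (Finset.abs_sum_le_sum_abs _ _) ?_
    apply Finset.sum_le_sum
    intro k _
    rw [abs_mul]
    have h1 : |∑ l, b l * Ex (PP a b t) (D l (D k φ))| ≤ ∑ l, |Ex (PP a b t) (D l (D k φ))| := by
      refine le_trans (Finset.abs_sum_le_sum_abs _ _) ?_
      apply Finset.sum_le_sum
      intro l _
      rw [abs_mul]
      have := mul_le_mul_of_nonneg_right (hb l) (abs_nonneg (Ex (PP a b t) (D l (D k φ))))
      linarith
    have h2 := mul_le_mul_of_nonneg_right (hb k) (abs_nonneg (∑ l, b l * Ex (PP a b t) (D l (D k φ))))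
    linarith
  · exact hN

lemma trivial_second {p : ι → ℝ} (hp : PV p) {φ : (ι → Bool) → ℝ} (h0 : ∀ x, 0 ≤ φ x)
    (h1 : ∀ x, φ x ≤ 1) :
    ∑ k, ∑ l, |Ex p (D l (D k φ))| ≤ 4 * (Fintype.card ι) ^ 2 := by
  have : ∀ k l : ι, |Ex p (D l (D k φ))| ≤ 4 := by
    intro k l
    refine le_trans (Ex_abs_le hp _) ?_
    have := Ex_mono hp (φ := fun x => |D l (D k φ) x|) (ψ := fun _ => 4) (by
      intro x
      unfold D
      rw [abs_le]
      constructor
      · linarith [h0 (Function.update (Function.update x l true) k true),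
          h1 (Function.update (Function.update x l true) k false),
          h1 (Function.update (Function.update x l false) k true),
          h0 (Function.update (Function.update x l false) k false)]
      · linarith [h1 (Function.update (Function.update x l true) k true),
          h0 (Function.update (Function.update x l true) k false),
          h0 (Function.update (Function.update x l false) k true),
          h1 (Function.update (Function.update x l false) k false)])
    rwa [Ex_const] at this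
  calc ∑ k : ι, ∑ l : ι, |Ex p (D l (D k φ))| ≤ ∑ k : ι, ∑ l : ι, (4:ℝ) := by
        apply Finset.sum_le_sum; intro k _
        apply Finset.sum_le_sum; intro l _
        exact this k l
    _ = 4 * (Fintype.card ι) ^ 2 := by
        simp [Finset.sum_const, Finset.card_univ]; ring

/-- two-level bias vectors -/
noncomputable def pH (H : Finset ι) (a t : ℝ) : ι → ℝ := fun k => if k ∈ H then 1/2 + a else 1/2 + t

lemma pH_insert {H : Finset ι} {k : ι} (a t : ℝ) :
    pH (insert k H) a t = Function.update (pH H a t) k (1/2 + a) := by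
  funext j
  unfold pH
  by_cases hj : j = k
  · subst hj; simp
  · rw [Function.update_of_ne hj]; simp [Finset.mem_insert, hj]

lemma pH_mid {H : Finset ι} {a t : ℝ} (ha : |a| ≤ 1/8) (ht : |t| ≤ 1/8) :
    ∀ k, 3/8 ≤ pH H a t k ∧ pH H a t k ≤ 5/8 := by
  intro k
  rw [abs_le] at ha ht
  unfold pH
  split_ifs <;> constructor <;> linarith [ha.1, ha.2, ht.1, ht.2]

lemma pH_self (H : Finset ι) (a : ℝ) : pH H a a = fun _ => 1/2 + a := by
  funext k; unfold pH; split_ifs <;> rfl

lemma Ex_pH_insert {H : Finset ι} {k : ι} (hk : k ∉ H) (a t : ℝ) (φ : (ι → Bool) → ℝ) :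
    Ex (pH (insert k H) a t) φ - Ex (pH H a t) φ = (a - t) * Ex (pH H a t) (D k φ) := by
  rw [pH_insert, Ex_update]
  have : pH H a t k = 1/2 + t := by unfold pH; rw [if_neg hk]
  rw [this]; ring

/-- remaining potential term -/
noncomputable def G (F : (ι → Bool) → ℝ) (H : Finset ι) (a t : ℝ) : ℝ :=
  |Ex (pH H a a) F - Ex (pH H a t) F|

lemma pH_mono_aux {F : (ι → Bool) → ℝ} (hF : MB F) {a t : ℝ} (ha : |a| ≤ 1/8) (ht : |t| ≤ 1/8)
    (hat : t ≤ a) (H W : Finset ι) (hd : Disjoint W H) :
    Ex (pH H a t) F ≤ Ex (pH (W ∪ H) a t) F := by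
  induction W using Finset.induction_on with
  | empty => simp
  | insert w W hw ih =>
    rw [Finset.disjoint_insert_left] at hd
    have h1 := ih hd.2
    have hwn : w ∉ W ∪ H := by
      rw [Finset.mem_union, not_or]; exact ⟨hw, hd.1⟩
    rw [Finset.insert_union]
    have h2 := Ex_pH_insert hwn a t F
    have h3 : 0 ≤ Ex (pH (W ∪ H) a t) (D w F) :=
      Ex_nonneg (pv_of_mid (pH_mid ha ht)) (hF.g_nonneg w)
    have h4 : 0 ≤ (a - t) * Ex (pH (W ∪ H) a t) (D w F) := mul_nonneg (by linarith) h3
    linarith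

lemma pH_anti_aux {F : (ι → Bool) → ℝ} (hF : MB F) {a t : ℝ} (ha : |a| ≤ 1/8) (ht : |t| ≤ 1/8)
    (hat : a ≤ t) (H W : Finset ι) (hd : Disjoint W H) :
    Ex (pH (W ∪ H) a t) F ≤ Ex (pH H a t) F := by
  induction W using Finset.induction_on with
  | empty => simp
  | insert w W hw ih =>
    rw [Finset.disjoint_insert_left] at hd
    have h1 := ih hd.2
    have hwn : w ∉ W ∪ H := by
      rw [Finset.mem_union, not_or]; exact ⟨hw, hd.1⟩
    rw [Finset.insert_union]
    have h2 := Ex_pH_insert hwn a t F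
    have h3 : 0 ≤ Ex (pH (W ∪ H) a t) (D w F) :=
      Ex_nonneg (pv_of_mid (pH_mid ha ht)) (hF.g_nonneg w)
    have h4 : (a - t) * Ex (pH (W ∪ H) a t) (D w F) ≤ 0 :=
      mul_nonpos_of_nonpos_of_nonneg (by linarith) h3
    linarith

lemma pH_univ (a t : ℝ) : pH (univ : Finset ι) a t = fun _ => 1/2 + a := by
  funext k; unfold pH; simp

lemma compl_union_self' (H : Finset ι) : Hᶜ ∪ H = univ := by
  ext k; simp [em', or_comm, em]

/-- the potential decreases exactly by the weighted influence -/
lemma G_insert {F : (ι → Bool) → ℝ} (hF : MB F) {a t : ℝ} (ha : |a| ≤ 1/8) (ht : |t| ≤ 1/8)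
    {H : Finset ι} {k : ι} (hk : k ∉ H) :
    G F H a t - G F (insert k H) a t = |a - t| * Ex (pH H a t) (D k F) := by
  unfold G
  rw [pH_self, pH_self]
  have hins := Ex_pH_insert hk a t F
  have huniv : ∀ K : Finset ι, Ex (pH (Kᶜ ∪ K) a t) F = Ex (fun _ => 1/2 + a) F := by
    intro K; rw [compl_union_self', pH_univ]
  rcases le_total t a with h | h
  · have h1 := pH_mono_aux hF ha ht h H Hᶜ disjoint_compl_left
    have h2 := pH_mono_aux hF ha ht h (insert k H) (insert k H)ᶜ disjoint_compl_left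
    rw [huniv] at h1 h2
    rw [abs_of_nonneg (by linarith), abs_of_nonneg (by linarith), abs_of_nonneg (by linarith)]
    linarith
  · have h1 := pH_anti_aux hF ha ht h H Hᶜ disjoint_compl_left
    have h2 := pH_anti_aux hF ha ht h (insert k H) (insert k H)ᶜ disjoint_compl_left
    rw [huniv] at h1 h2
    rw [abs_of_nonpos (by linarith), abs_of_nonpos (by linarith), abs_of_nonpos (by linarith)]
    linarith

lemma G_le_one {F : (ι → Bool) → ℝ} (hF : MB F) {a t : ℝ} (ha : |a| ≤ 1/8) (ht : |t| ≤ 1/8)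
    (H : Finset ι) : G F H a t ≤ 1 := by
  unfold G
  have h1 := pv_of_mid (pH_mid (H := H) ha ha)
  have h2 := pv_of_mid (pH_mid (H := H) ha ht)
  rw [abs_le]
  have a1 := Ex_le_one h1 hF.le_one
  have a0 := Ex_nonneg h1 hF.nonneg
  have b1 := Ex_le_one h2 hF.le_one
  have b0 := Ex_nonneg h2 hF.nonneg
  constructor <;> linarith

end Pool.Agent.TH531.Fb
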