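import Pool.Agent.TH531.FbLam
import Pool.Agent.TH531.FbCE

set_option autoImplicit false
set_option linter.unusedSectionVars false
set_option linter.unnecessarySeqFocus false

open Finset

namespace Pool.Agent.TH531.Fb

variable {ι : Type*} [Fintype ι] [DecidableEq ι]

lemma light_le_heavy {p : ι → ℝ} (hp : ∀ k, 3/8 ≤ p k ∧ p k ≤ 5/8) {F : (ι → Bool) → ℝ}
    (hF : MB F) {H : Finset ι} {ℓ m : ℕ} (hm : 0 < m)
    (hq : ∀ i ∈ Hᶜ, LD Hᶜ ℓ (D i F))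
    (hsmall : ∀ i ∈ Hᶜ, Ex p (D i F) ≤ Real.exp (-((m:ℝ)/4))) (hℓ : 2 * (ℓ:ℝ) ≤ m/8) :
    ∑ i ∈ Hᶜ, Ex p (D i F) ≤ (22 * (ℓ + 1) / m) * ∑ k ∈ H, Ex p (D k F) := by
  have hPV := pv_of_mid hp
  have hmr : (0:ℝ) < m := by exact_mod_cast hm
  have h1 : ∀ i ∈ Hᶜ, (m/8 : ℝ) * Ex p (D i F)
      ≤ ∑ k ∈ H, Ex p (fun x => D i F x * (1 - D i F (fl k x))) := by
    intro i hi
    have hk := heavy_kill hp hF (hq i hi)
    have hM0 : 0 ≤ Ex p (D i F) := Ex_nonneg hPV (hF.g_nonneg i)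
    have hlog : (m/4 : ℝ) * Ex p (D i F) ≤ Real.negMulLog (Ex p (D i F)) := by
      rcases eq_or_lt_of_le hM0 with h | h
      · rw [← h]; simp
      · have := Real.log_le_log h (hsmall i hi)
        rw [Real.log_exp] at this
        unfold Real.negMulLog
        nlinarith
    have : 2 * (ℓ:ℝ) * Ex p (D i F) ≤ (m/8) * Ex p (D i F) := mul_le_mul_of_nonneg_right hℓ hM0
    linarith
  have h2 : (m/8 : ℝ) * ∑ i ∈ Hᶜ, Ex p (D i F)
      ≤ ∑ i ∈ Hᶜ, ∑ k ∈ H, Ex p (fun x => D i F x * (1 - D i F (fl k x))) := by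
    rw [Finset.mul_sum]; exact Finset.sum_le_sum h1
  have h3 := charge hp hF hq H
  set I := ∑ k ∈ H, Ex p (D k F) with hI
  have hI0 : 0 ≤ I := Finset.sum_nonneg (fun k _ => Ex_nonneg hPV (hF.g_nonneg k))
  have h4 : (m/8 : ℝ) * ∑ i ∈ Hᶜ, Ex p (D i F) ≤ (8/3) * (ℓ + 1) * I := le_trans h2 h3
  have hl0 : (0:ℝ) ≤ ((ℓ:ℝ) + 1) * I := by positivity
  rw [div_mul_eq_mul_div, le_div_iff₀ hmr]
  nlinarith

lemma tau_avg {δ : ℝ} (hδ : 0 < δ) (hδ8 : δ ≤ 1/8) {N1 m : ℕ} (hN1 : 0 < N1)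
    (hN : 8 * ((m:ℝ) + 1) ^ 2 * δ ^ 2 ≤ N1) {F : (ι → Bool) → ℝ} (hF : MB F)
    (hq : ∀ i, LD univ m (D i F)) (H : Finset ι) {s t θ : ℝ} (hs : s = 1 ∨ s = -1)
    (ht : |t| ≤ 1/8) (hθ0 : 0 ≤ θ) (hθ1 : θ ≤ 1) :
    avg δ N1 (fun τ => ∑ k ∈ H, Ex (pH H (s * τ) (t + θ * (s * τ - t))) (D k F)) ≤ 3 / δ := by
  have hs2 : s * s = 1 := by rcases hs with h | h <;> rw [h] <;> ring
  have hsabs : |s| = 1 := by rcases hs with h | h <;> rw [h] <;> simp
  set a : ι → ℝ := fun k => if k ∈ H then 1/2 else 1/2 + (1 - θ) * t with ha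
  set b : ι → ℝ := fun k => if k ∈ H then s else θ * s with hb
  have hPP : ∀ τ, PP a b τ = pH H (s * τ) (t + θ * (s * τ - t)) := by
    intro τ; funext k
    unfold PP pH
    rw [ha, hb]
    dsimp only
    split_ifs <;> ring
  have hmid : ∀ τ ∈ Set.Icc (δ/2) δ, ∀ k, 3/8 ≤ PP a b τ k ∧ PP a b τ k ≤ 5/8 := by
    intro τ hτ
    rw [hPP]
    have h1 : |s * τ| ≤ 1/8 := by
      rw [abs_mul, hsabs, one_mul]
      exact abs_le_of_tau hδ hδ8 hτ.1 hτ.2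
    apply pH_mid h1
    rw [abs_le] at h1 ht ⊢
    constructor <;> nlinarith [h1.1, h1.2, ht.1, ht.2]
  have hb1 : ∀ k, |b k| ≤ 1 := by
    intro k
    rw [hb]; dsimp only
    split_ifs
    · rw [hsabs]
    · rw [abs_mul, hsabs, mul_one, abs_of_nonneg hθ0]; exact hθ1
  have hR := path_riemann a b F (lo := δ/2) (hi := δ) (C := 16 * ((m:ℝ) + 1) ^ 2)
    (by linarith) hb1 (by
      intro τ hτ
      have h2 := second_le (hmid τ hτ) hF hq
      refine le_trans ?_ h2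
      apply Finset.sum_le_sum; intro i _
      apply Finset.sum_le_sum; intro k _
      exact Ex_abs_le (pv_of_mid (hmid τ hτ)) _) hN1
  have hNr : (0:ℝ) < N1 := by exact_mod_cast hN1
  set X := Ex (PP a b δ) F - Ex (PP a b (δ/2)) F with hX
  have hXabs : |X| ≤ 1 := by
    have m1 := pv_of_mid (hmid δ ⟨by linarith, le_refl _⟩)
    have m2 := pv_of_mid (hmid (δ/2) ⟨le_refl _, by linarith⟩)
    have a1 := Ex_le_one m1 hF.le_one
    have a0 := Ex_nonneg m1 hF.nonneg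
    have b1 := Ex_le_one m2 hF.le_one
    have b0 := Ex_nonneg m2 hF.nonneg
    rw [abs_le, hX]
    constructor <;> linarith
  set S := ∑ j ∈ range N1, ∑ k, b k * Ex (PP a b (δ/2 + j * ((δ - δ/2) / N1))) (D k F) with hS
  have herr : 16 * ((m:ℝ) + 1) ^ 2 * (δ - δ/2) ^ 2 / N1 ≤ 1/2 := by
    rw [div_le_iff₀ hNr]
    nlinarith
  have hR2 : |X - (δ - δ/2) / N1 * S| ≤ 1/2 := le_trans hR herr
  have hsS : s * ((δ - δ/2) / N1 * S) ≤ 3/2 := by
    have e1 : s * ((δ - δ/2) / N1 * S) = s * X - s * (X - (δ - δ/2) / N1 * S) := by ring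
    have e2 : s * X ≤ 1 := by
      have := le_abs_self (s * X); rw [abs_mul, hsabs, one_mul] at this; linarith
    have e3 : -(s * (X - (δ - δ/2) / N1 * S)) ≤ 1/2 := by
      have := neg_le_abs (s * (X - (δ - δ/2) / N1 * S)); rw [abs_mul, hsabs, one_mul] at this
      linarith
    rw [e1]; linarith
  have hI : ∑ j ∈ range N1, ∑ k ∈ H, Ex (pH H (s * tau δ N1 j)
      (t + θ * (s * tau δ N1 j - t))) (D k F) ≤ s * S := by
    rw [hS, Finset.mul_sum]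
    apply Finset.sum_le_sum
    intro j hj
    have htau := tau_mem hδ (Finset.mem_range.mp hj)
    have hmj := hmid (tau δ N1 j) ⟨htau.1, htau.2⟩
    have e0 : δ/2 + (j:ℝ) * ((δ - δ/2) / N1) = tau δ N1 j := rfl
    rw [e0, ← hPP]
    have e : s * ∑ k, b k * Ex (PP a b (tau δ N1 j)) (D k F)
        = ∑ k ∈ H, Ex (PP a b (tau δ N1 j)) (D k F)
          + θ * ∑ k ∈ Hᶜ, Ex (PP a b (tau δ N1 j)) (D k F) := by
      rw [← Finset.sum_add_sum_compl H, mul_add, Finset.mul_sum, Finset.mul_sum, Finset.mul_sum]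
      congr 1
      · apply Finset.sum_congr rfl
        intro k hk
        rw [hb]; dsimp only; rw [if_pos hk]
        rw [← mul_assoc, hs2, one_mul]
      · apply Finset.sum_congr rfl
        intro k hk
        rw [hb]; dsimp only; rw [if_neg (Finset.mem_compl.mp hk)]
        linear_combination θ * Ex (PP a b (tau δ N1 j)) (D k F) * hs2
    rw [e]
    have : 0 ≤ θ * ∑ k ∈ Hᶜ, Ex (PP a b (tau δ N1 j)) (D k F) :=
      mul_nonneg hθ0 (Finset.sum_nonneg (fun k _ => Ex_nonneg (pv_of_mid hmj) (hF.g_nonneg k)))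
    linarith
  unfold avg
  calc (1 / (N1:ℝ)) * ∑ j ∈ range N1, ∑ k ∈ H, Ex (pH H (s * tau δ N1 j)
      (t + θ * (s * tau δ N1 j - t))) (D k F)
      ≤ (1 / (N1:ℝ)) * (s * S) := mul_le_mul_of_nonneg_left hI (by positivity)
    _ = (2/δ) * (s * ((δ - δ/2) / N1 * S)) := by field_simp; ring
    _ ≤ (2/δ) * (3/2) := mul_le_mul_of_nonneg_left hsS (by positivity)
    _ = 3/δ := by ring

/-- the grid of the interpolation parameter -/
noncomputable def th (N : ℕ) (r : ℕ) : ℝ := 0 + r * ((1 - 0) / N)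

lemma th_mem {N r : ℕ} (hr : r < N) : 0 ≤ th N r ∧ th N r ≤ 1 := by
  have hN : (0:ℝ) < N := by exact_mod_cast (by omega : 0 < N)
  have hj' : (r:ℝ) ≤ N := by exact_mod_cast hr.le
  unfold th
  have h1 : (r:ℝ) * ((1 - 0) / N) ≤ 1 := by
    rw [mul_div_assoc', div_le_iff₀ hN]; linarith
  have h0 : 0 ≤ (r:ℝ) * ((1 - 0) / N) := by
    apply mul_nonneg (Nat.cast_nonneg r)
    apply div_nonneg (by norm_num) hN.le
  constructor <;> linarith

lemma interp_abs {a t θ : ℝ} (ha : |a| ≤ 1/8) (ht : |t| ≤ 1/8) (h0 : 0 ≤ θ) (h1 : θ ≤ 1) :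
    |t + θ * (a - t)| ≤ 1/8 := by
  rw [abs_le] at ha ht ⊢
  constructor <;> nlinarith [ha.1, ha.2, ht.1, ht.2]

lemma theta_path {F : (ι → Bool) → ℝ} (hF : MB F) (H : Finset ι) {a t : ℝ} (ha : |a| ≤ 1/8)
    (ht : |t| ≤ 1/8) {N3 : ℕ} (hN3 : 0 < N3) :
    G F H a t ≤ |a - t| * ((1 / (N3:ℝ)) * ∑ r ∈ range N3, ∑ i ∈ Hᶜ,
      Ex (pH H a (t + th N3 r * (a - t))) (D i F)) + 4 * (Fintype.card ι) ^ 2 / N3 := by
  set b : ι → ℝ := fun k => if k ∈ H then 0 else a - t with hb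
  have hPP : ∀ θ, PP (pH H a t) b θ = pH H a (t + θ * (a - t)) := by
    intro θ; funext k
    unfold PP pH
    rw [hb]
    dsimp only
    split_ifs <;> ring
  have hmid : ∀ θ ∈ Set.Icc (0:ℝ) 1, ∀ k, 3/8 ≤ PP (pH H a t) b θ k ∧ PP (pH H a t) b θ k ≤ 5/8 := by
    intro θ hθ
    rw [hPP]
    exact pH_mid ha (interp_abs ha ht hθ.1 hθ.2)
  have hat : |a - t| ≤ 1/4 := by
    rw [abs_le] at ha ht ⊢
    constructor <;> linarith [ha.1, ha.2, ht.1, ht.2]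
  have hb1 : ∀ k, |b k| ≤ 1 := by
    intro k
    rw [hb]; dsimp only
    split_ifs
    · simp
    · linarith
  have hR := path_riemann (pH H a t) b F (lo := 0) (hi := 1)
    (C := 4 * (Fintype.card ι : ℝ) ^ 2) (by norm_num) hb1 (by
      intro θ hθ
      exact trivial_second (pv_of_mid (hmid θ hθ)) hF.nonneg hF.le_one) hN3
  have e1 : PP (pH H a t) b 1 = pH H a a := by
    rw [hPP]; congr 1; ring
  have e0 : PP (pH H a t) b 0 = pH H a t := by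
    rw [hPP]; congr 1; ring
  rw [e1, e0] at hR
  have hNr : (0:ℝ) < N3 := by exact_mod_cast hN3
  have eS : ∑ j ∈ range N3, ∑ k, b k * Ex (PP (pH H a t) b (0 + j * ((1 - 0) / N3))) (D k F)
      = (a - t) * ∑ r ∈ range N3, ∑ i ∈ Hᶜ, Ex (pH H a (t + th N3 r * (a - t))) (D i F) := by
    rw [Finset.mul_sum]
    apply Finset.sum_congr rfl
    intro j _
    have e2 : (0:ℝ) + j * ((1 - 0) / N3) = th N3 j := rfl
    rw [e2, hPP, ← Finset.sum_add_sum_compl H, Finset.mul_sum]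
    have z : ∑ k ∈ H, b k * Ex (pH H a (t + th N3 j * (a - t))) (D k F) = 0 := by
      apply Finset.sum_eq_zero
      intro k hk
      rw [hb]; dsimp only; rw [if_pos hk, zero_mul]
    rw [z, zero_add]
    apply Finset.sum_congr rfl
    intro k hk
    rw [hb]; dsimp only; rw [if_neg (Finset.mem_compl.mp hk)]
  rw [eS] at hR
  set S := ∑ r ∈ range N3, ∑ i ∈ Hᶜ, Ex (pH H a (t + th N3 r * (a - t))) (D i F) with hS
  have hS0 : 0 ≤ S := by
    apply Finset.sum_nonneg; intro r hr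
    apply Finset.sum_nonneg; intro i _
    have hth := th_mem (Finset.mem_range.mp hr)
    exact Ex_nonneg (pv_of_mid (pH_mid ha (interp_abs ha ht hth.1 hth.2))) (hF.g_nonneg i)
  unfold G
  have h3 : |Ex (pH H a a) F - Ex (pH H a t) F| ≤ |(1 - 0) / (N3:ℝ) * ((a - t) * S)|
      + 4 * (Fintype.card ι : ℝ) ^ 2 * (1 - 0) ^ 2 / N3 := by
    have := abs_sub_abs_le_abs_sub (Ex (pH H a a) F - Ex (pH H a t) F)
      ((1 - 0) / (N3:ℝ) * ((a - t) * S))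
    linarith
  refine le_trans h3 (le_of_eq ?_)
  have : |(1 - 0) / (N3:ℝ) * ((a - t) * S)| = |a - t| * ((1 / (N3:ℝ)) * S) := by
    rw [abs_mul, abs_mul, abs_of_nonneg hS0, abs_of_nonneg (by positivity)]
    ring
  rw [this]
  ring

lemma avg_mono_grid {δ : ℝ} {N : ℕ} {w w' : ℝ → ℝ}
    (h : ∀ j, j < N → w (tau δ N j) ≤ w' (tau δ N j)) : avg δ N w ≤ avg δ N w' := by
  unfold avg
  apply mul_le_mul_of_nonneg_left _ (by positivity)
  apply Finset.sum_le_sum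
  intro j hj
  exact h j (Finset.mem_range.mp hj)

/-- one slot of the stage lemma -/
lemma stage_slot {δ : ℝ} (hδ : 0 < δ) (hδ8 : δ ≤ 1/8) {N1 m ℓ : ℕ} (hN1 : 0 < N1)
    (hN : 8 * ((m:ℝ) + 1) ^ 2 * δ ^ 2 ≤ N1) (hm : 0 < m) {F : (ι → Bool) → ℝ} (hF : MB F)
    (hqm : ∀ i, LD univ m (D i F)) (H : Finset ι) (hq : ∀ i ∈ Hᶜ, LD Hᶜ ℓ (D i F))
    (hℓ : 2 * (ℓ:ℝ) ≤ m/8) {η : ℝ} (hη : 2 ^ ℓ * η ≤ Real.exp (-((m:ℝ)/4)))
    {s t B : ℝ} (hs : s = 1 ∨ s = -1)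
    (hsm : ∀ j, j < N1 → ∀ i ∈ Hᶜ, Ex (pH H (s * tau δ N1 j) 0) (D i F) ≤ η)
    (ht : |t| ≤ 1/8) (hB : ∀ τ, δ/2 ≤ τ → τ ≤ δ → |s * τ - t| ≤ B) :
    avg δ N1 (fun τ => G F H (s * τ) t) ≤ B * (66 * (ℓ + 1) / (m * δ)) + 1 / m := by
  have hmr : (0:ℝ) < m := by exact_mod_cast hm
  have hsabs : |s| = 1 := by rcases hs with h | h <;> rw [h] <;> simp
  have hB0 : 0 ≤ B := le_trans (abs_nonneg _) (hB δ (by linarith) (le_refl _))
  set n := Fintype.card ι with hn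
  set N3 := 4 * n ^ 2 * m + 1 with hN3def
  have hN3 : 0 < N3 := by rw [hN3def]; omega
  have hN3r : (0:ℝ) < N3 := by exact_mod_cast hN3
  have herr : 4 * (n:ℝ) ^ 2 / N3 ≤ 1 / m := by
    rw [div_le_div_iff₀ hN3r hmr, hN3def]
    push_cast
    linarith
  have h1 : avg δ N1 (fun τ => G F H (s * τ) t) ≤ avg δ N1 (fun τ => B * ((1 / (N3:ℝ)) *
      ∑ r ∈ range N3, ∑ i ∈ Hᶜ, Ex (pH H (s * τ) (t + th N3 r * (s * τ - t))) (D i F)) + 1 / m) := by
    apply avg_mono hδ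
    intro τ h1 h2
    have ha : |s * τ| ≤ 1/8 := by
      rw [abs_mul, hsabs, one_mul]; exact abs_le_of_tau hδ hδ8 h1 h2
    refine le_trans (theta_path hF H ha ht hN3) ?_
    rw [← hn]
    apply add_le_add _ herr
    apply mul_le_mul_of_nonneg_right (hB τ h1 h2)
    apply mul_nonneg (by positivity)
    apply Finset.sum_nonneg; intro r hr
    apply Finset.sum_nonneg; intro i _
    have hth := th_mem (Finset.mem_range.mp hr)
    exact Ex_nonneg (pv_of_mid (pH_mid ha (interp_abs ha ht hth.1 hth.2))) (hF.g_nonneg i)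
  refine le_trans h1 ?_
  rw [avg_add, avg_const hN1, avg_smul, avg_smul, avg_sum]
  apply add_le_add _ (le_refl _)
  apply mul_le_mul_of_nonneg_left _ hB0
  have h2 : ∀ r ∈ range N3, avg δ N1 (fun τ => ∑ i ∈ Hᶜ,
      Ex (pH H (s * τ) (t + th N3 r * (s * τ - t))) (D i F)) ≤ (22 * (ℓ + 1) / m) * (3 / δ) := by
    intro r hr
    have hth := th_mem (Finset.mem_range.mp hr)
    have h3 : avg δ N1 (fun τ => ∑ i ∈ Hᶜ,
      Ex (pH H (s * τ) (t + th N3 r * (s * τ - t))) (D i F))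
      ≤ avg δ N1 (fun τ => (22 * (ℓ + 1) / m) * ∑ k ∈ H,
      Ex (pH H (s * τ) (t + th N3 r * (s * τ - t))) (D k F)) := by
      apply avg_mono_grid
      intro j hj
      have htau := tau_mem hδ hj
      have ha : |s * tau δ N1 j| ≤ 1/8 := by
        rw [abs_mul, hsabs, one_mul]; exact abs_le_of_tau hδ hδ8 htau.1 htau.2
      have hint := interp_abs ha ht hth.1 hth.2
      apply light_le_heavy (pH_mid ha hint) hF hm hq _ hℓ
      intro i hi
      refine le_trans ?_ hη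
      refine le_trans (light_change (p' := pH H (s * tau δ N1 j) 0)
        (pv_of_mid (pH_mid ha hint)) (pv_of_mid (pH_mid ha (by norm_num))) Hᶜ ?_ ?_
        (hF.g01 i) (hq i hi)) ?_
      · intro k hk
        unfold pH
        rw [if_neg (Finset.mem_compl.mp hk)]; ring
      · intro k hk
        have hkH : k ∈ H := by by_contra hc; exact hk (Finset.mem_compl.mpr hc)
        unfold pH
        rw [if_pos hkH, if_pos hkH]
      · exact mul_le_mul_of_nonneg_left (hsm j hj i hi) (by positivity)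
    refine le_trans h3 ?_
    rw [avg_smul]
    apply mul_le_mul_of_nonneg_left _ (by positivity)
    exact tau_avg hδ hδ8 hN1 hN hF hqm H hs ht hth.1 hth.2
  have h4 := Finset.sum_le_sum h2
  rw [Finset.sum_const, Finset.card_range, nsmul_eq_mul] at h4
  calc (1 / (N3:ℝ)) * ∑ r ∈ range N3, avg δ N1 (fun τ => ∑ i ∈ Hᶜ,
      Ex (pH H (s * τ) (t + th N3 r * (s * τ - t))) (D i F))
      ≤ (1 / (N3:ℝ)) * (N3 * ((22 * (ℓ + 1) / m) * (3 / δ))) :=
        mul_le_mul_of_nonneg_left h4 (by positivity)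
    _ = 66 * (ℓ + 1) / (m * δ) := by field_simp; ring

/-- the stage lemma -/
theorem stage {δ : ℝ} (hδ : 0 < δ) (hδ8 : δ ≤ 1/8) {N1 N2 m ℓ : ℕ} (hN1 : 0 < N1)
    (hN2 : 0 < N2)
    (hN : 8 * ((m:ℝ) + 1) ^ 2 * δ ^ 2 ≤ N1) (hm : 0 < m) {F : (ι → Bool) → ℝ} (hF : MB F)
    (hqm : ∀ i, LD univ m (D i F)) (H : Finset ι) (hq : ∀ i ∈ Hᶜ, LD Hᶜ ℓ (D i F))
    (hℓ : 2 * (ℓ:ℝ) ≤ m/8) {η : ℝ} (hη : 2 ^ ℓ * η ≤ Real.exp (-((m:ℝ)/4)))
    (hsm : ∀ s : ℝ, (s = 1 ∨ s = -1) → ∀ j, j < N1 → ∀ i ∈ Hᶜ,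
      Ex (pH H (s * tau δ N1 j) 0) (D i F) ≤ η) :
    Phi δ N1 N2 F H ≤ 240 * (ℓ + 1) / m := by
  have hmr : (0:ℝ) < m := by exact_mod_cast hm
  have key : ∀ s : ℝ, (s = 1 ∨ s = -1) →
      slot δ N2 (fun t => avg δ N1 (fun a => G F H (s * a) t)) ≤ 120 * (ℓ + 1) / m := by
    intro s hs
    have hsabs : |s| = 1 := by rcases hs with h | h <;> rw [h] <;> simp
    have h0 : avg δ N1 (fun a => G F H (s * a) 0) ≤ δ * (66 * (ℓ + 1) / (m * δ)) + 1 / m := by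
      apply stage_slot hδ hδ8 hN1 hN hm hF hqm H hq hℓ hη hs (hsm s hs) (by norm_num)
      intro τ h1 h2
      rw [sub_zero, abs_mul, hsabs, one_mul, abs_of_nonneg (by linarith)]
      exact h2
    have h1 : ∀ t, |t| ≤ 1/8 → avg δ N1 (fun a => G F H (s * a) t)
        ≤ (1/4) * (66 * (ℓ + 1) / (m * δ)) + 1 / m := by
      intro t ht
      apply stage_slot hδ hδ8 hN1 hN hm hF hqm H hq hℓ hη hs (hsm s hs) ht
      intro τ h1 h2
      have ha : |s * τ| ≤ 1/8 := by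
        rw [abs_mul, hsabs, one_mul]; exact abs_le_of_tau hδ hδ8 h1 h2
      rw [abs_le] at ha ht ⊢
      constructor <;> linarith [ha.1, ha.2, ht.1, ht.2]
    refine le_trans (slot_le hδ.le hN2 h0 h1) ?_
    have e1 : δ * (66 * ((ℓ:ℝ) + 1) / (m * δ)) = 66 * (ℓ + 1) / m := by field_simp
    have e2 : 3 * δ * ((1/4) * (66 * ((ℓ:ℝ) + 1) / (m * δ)) + 1 / m)
        = (99/2) * (ℓ + 1) / m + 3 * δ / m := by field_simp; ring
    rw [e1, e2]
    have e3 : 66 * ((ℓ:ℝ) + 1) / m + 1 / m + ((99/2) * (ℓ + 1) / m + 3 * δ / m)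
        = (66 * ((ℓ:ℝ) + 1) + 1 + (99/2) * (ℓ + 1) + 3 * δ) / m := by ring
    rw [e3]
    apply div_le_div_of_nonneg_right _ hmr.le
    have : (0:ℝ) ≤ ℓ := Nat.cast_nonneg ℓ
    linarith
  unfold Phi
  rw [Lam_eq]
  have k1 := key 1 (Or.inl rfl)
  have k2 := key (-1) (Or.inr rfl)
  simp only [one_mul] at k1
  simp only [neg_one_mul] at k2
  calc _ ≤ 120 * ((ℓ:ℝ) + 1) / m + 120 * (ℓ + 1) / m := add_le_add k1 k2
    _ = 240 * (ℓ + 1) / m := by ring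

end Pool.Agent.TH531.Fb
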